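import Pool.Agent.S3.Ls.Tp

/-!
# Bounds of the loss of an inner vertex of multiplicity two: P at Tp (generated)
-/

set_option autoImplicit false

namespace Pool.Agent.S3.Ls

open Real

variable {τ R b P : ℝ}

theorem lpb0 (hτ : 0 < τ) (h : SlD τ R (3969 / 10000) b P) (t1 : 0 ≤ τ ^ 2)
    (t2 : τ ^ 2 ≤ (1 / 10)) (hR0 : 0 < R) (hR2 : R < π / 2) (hc : cos R ^ 2 ≤ (667 / 1000))
    (b1 : (2 / 5) ≤ b) (b2 : b ≤ 1) : lossJ τ b P Tp ≤ (9 / 250) := by
  have hS := sJ_le (S := (107 / 500)) hτ Tp_pos Tp_lt cos_Tp t2 (by norm_num) (by norm_num)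
  have e1 := eta_ge (κ := (83 / 80)) (η := (169 / 625)) hτ Tp_pos Tp_lt cos_Tp (by norm_num) (by norm_num) Tp_le (by norm_num)
    t1 (by linarith) (by norm_num)
  have e2 := eta_le (κ := (1297 / 1250)) (η := (1443 / 5000)) hτ Tp_pos Tp_lt cos_Tp (by norm_num) (by norm_num) le_Tp t2
    (by norm_num)
  have gA : R ≤ (37 / 50) → RA τ R (37 / 50) (377 / 400) 0 0 (8489 / 10000) := fun hR =>
    RA.of (cl := (36923 / 50000)) hτ hR0 hR (by norm_num) t1 t2 (by norm_num) hc
      (by norm_num) (by norm_num) (by norm_num) (by norm_num) (by norm_num) (by norm_num)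
      (by norm_num) (by norm_num) (by norm_num) (by norm_num) (by norm_num) (by norm_num)
  have ga : (37 / 50) ≤ R → Ra τ R (37 / 50) (463 / 2000) (8337 / 10000) := fun hR =>
    Ra.of (cu := (73847 / 100000)) hτ hR hR2 (by norm_num) t1 t2
      (by norm_num) (by norm_num) (by norm_num) (by norm_num) (by norm_num)
  have hp : P ≤ (7583 / 10000) := by
    rcases le_total R (37 / 50) with hR | hR
    · exact (pieceA (p := (7583 / 10000)) (F := (55343 / 100000)) h (gA hR) (by norm_num) b1 b2 (by norm_num)
        (Or.inr ⟨by norm_num, by norm_num, by norm_num, by norm_num⟩) (by norm_num)).trans (by norm_num)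
    · exact piecea (c := (6173 / 12500)) (s := (11679 / 50000)) h (ga hR) (by norm_num) (by norm_num) b1 b2 (by norm_num)
        (by norm_num) (by norm_num) (Or.inr (by norm_num)) (by norm_num) (by norm_num)
  exact pos_fin (g := (3251 / 5000)) hτ Tp_pos Tp_lt hS e1 e2 (by norm_num) (by norm_num) b1 b2 h.P0 (by norm_num)
    (hp.trans (by norm_num)) (by norm_num) (by norm_num)

theorem lpb1 (hτ : 0 < τ) (h : SlD τ R (3969 / 10000) b P) (t1 : (1 / 10) ≤ τ ^ 2)
    (t2 : τ ^ 2 ≤ (3 / 20)) (hR0 : 0 < R) (hR2 : R < π / 2) (hc : cos R ^ 2 ≤ (657 / 1000))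
    (b1 : (2 / 5) ≤ b) (b2 : b ≤ 1) : lossJ τ b P Tp ≤ (9 / 250) := by
  have hS := sJ_le (S := (2589 / 10000)) hτ Tp_pos Tp_lt cos_Tp t2 (by norm_num) (by norm_num)
  have e1 := eta_ge (κ := (83 / 80)) (η := (36 / 125)) hτ Tp_pos Tp_lt cos_Tp (by norm_num) (by norm_num) Tp_le (by norm_num)
    t1 (by linarith) (by norm_num)
  have e2 := eta_le (κ := (1297 / 1250)) (η := (186 / 625)) hτ Tp_pos Tp_lt cos_Tp (by norm_num) (by norm_num) le_Tp t2
    (by norm_num)
  have gA : R ≤ (19 / 25) → RA τ R (19 / 25) (4747 / 5000) (142 / 625) (4703 / 10000) (229 / 250) := fun hR =>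
    RA.of (cl := (72483 / 100000)) hτ hR0 hR (by norm_num) t1 t2 (by norm_num) hc
      (by norm_num) (by norm_num) (by norm_num) (by norm_num) (by norm_num) (by norm_num)
      (by norm_num) (by norm_num) (by norm_num) (by norm_num) (by norm_num) (by norm_num)
  have ga : (19 / 25) ≤ R → Ra τ R (19 / 25) (693 / 2500) (9121 / 10000) := fun hR =>
    Ra.of (cu := (18121 / 25000)) hτ hR hR2 (by norm_num) t1 t2
      (by norm_num) (by norm_num) (by norm_num) (by norm_num) (by norm_num)
  rcases le_total b (27 / 50) with k1 | k1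
  · have hp : P ≤ (7063 / 10000) := by
      rcases le_total R (19 / 25) with hR | hR
      · exact (pieceA (p := (7063 / 10000)) (F := (45541 / 100000)) h (gA hR) (by norm_num) b1 k1 (by norm_num)
          (Or.inr ⟨by norm_num, by norm_num, by norm_num, by norm_num⟩) (by norm_num)).trans (by norm_num)
      · exact piecea (c := (53161 / 100000)) (s := (601 / 4000)) h (ga hR) (by norm_num) (by norm_num) b1 k1 (by norm_num)
          (by norm_num) (by norm_num) (Or.inr (by norm_num)) (by norm_num) (by norm_num)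
    exact pos_fin (g := (5911 / 10000)) hτ Tp_pos Tp_lt hS e1 e2 (by norm_num) (by norm_num) b1 k1 h.P0 (by norm_num)
      (hp.trans (by norm_num)) (by norm_num) (by norm_num)
  have hp : P ≤ (8423 / 10000) := by
    rcases le_total R (19 / 25) with hR | hR
    · exact (pieceA (p := (8423 / 10000)) (F := (78413 / 100000)) h (gA hR) (by norm_num) k1 b2 (by norm_num)
        (Or.inr ⟨by norm_num, by norm_num, by norm_num, by norm_num⟩) (by norm_num)).trans (by norm_num)
    · exact piecea (c := (31277 / 100000)) (s := (28077 / 100000)) h (ga hR) (by norm_num) (by norm_num) k1 b2 (by norm_num)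
        (by norm_num) (by norm_num) (Or.inr (by norm_num)) (by norm_num) (by norm_num)
  exact pos_fin (g := (1717 / 2500)) hτ Tp_pos Tp_lt hS e1 e2 (by norm_num) (by norm_num) k1 b2 h.P0 (by norm_num)
    (hp.trans (by norm_num)) (by norm_num) (by norm_num)

theorem lpb2 (hτ : 0 < τ) (h : SlD τ R (3969 / 10000) b P) (t1 : (3 / 20) ≤ τ ^ 2)
    (t2 : τ ^ 2 ≤ (1 / 5)) (hR0 : 0 < R) (hR2 : R < π / 2) (hc : cos R ^ 2 ≤ (651 / 1000))
    (b1 : (2 / 5) ≤ b) (b2 : b ≤ 1) : lossJ τ b P Tp ≤ (9 / 250) := by
  have hS := sJ_le (S := (591 / 2000)) hτ Tp_pos Tp_lt cos_Tp t2 (by norm_num) (by norm_num)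
  have e1 := eta_ge (κ := (83 / 80)) (η := (593 / 2000)) hτ Tp_pos Tp_lt cos_Tp (by norm_num) (by norm_num) Tp_le (by norm_num)
    t1 (by linarith) (by norm_num)
  have e2 := eta_le (κ := (1297 / 1250)) (η := (613 / 2000)) hτ Tp_pos Tp_lt cos_Tp (by norm_num) (by norm_num) le_Tp t2
    (by norm_num)
  have gA : R ≤ (151 / 200) → RA τ R (151 / 200) (9533 / 10000) (174 / 625) (5861 / 10000) (4523 / 5000) := fun hR =>
    RA.of (cl := (36413 / 50000)) hτ hR0 hR (by norm_num) t1 t2 (by norm_num) hc
      (by norm_num) (by norm_num) (by norm_num) (by norm_num) (by norm_num) (by norm_num)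
      (by norm_num) (by norm_num) (by norm_num) (by norm_num) (by norm_num) (by norm_num)
  have ga : (151 / 200) ≤ R → Ra τ R (151 / 200) (3203 / 10000) (9003 / 10000) := fun hR =>
    Ra.of (cu := (18207 / 25000)) hτ hR hR2 (by norm_num) t1 t2
      (by norm_num) (by norm_num) (by norm_num) (by norm_num) (by norm_num)
  rcases le_total b (14 / 25) with k1 | k1
  · have hp : P ≤ (6719 / 10000) := by
      rcases le_total R (151 / 200) with hR | hR
      · exact (pieceA (p := (6719 / 10000)) (F := (20201 / 50000)) h (gA hR) (by norm_num) b1 k1 (by norm_num)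
          (Or.inr ⟨by norm_num, by norm_num, by norm_num, by norm_num⟩) (by norm_num)).trans (by norm_num)
      · exact piecea (c := (3513 / 6250)) (s := (9017 / 50000)) h (ga hR) (by norm_num) (by norm_num) b1 k1 (by norm_num)
          (by norm_num) (by norm_num) (Or.inr (by norm_num)) (by norm_num) (by norm_num)
    exact pos_fin (g := (5533 / 10000)) hτ Tp_pos Tp_lt hS e1 e2 (by norm_num) (by norm_num) b1 k1 h.P0 (by norm_num)
      (hp.trans (by norm_num)) (by norm_num) (by norm_num)
  have hp : P ≤ (8207 / 10000) := by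
    rcases le_total R (151 / 200) with hR | hR
    · exact (pieceA (p := (8207 / 10000)) (F := (979 / 1250)) h (gA hR) (by norm_num) k1 b2 (by norm_num)
        (Or.inr ⟨by norm_num, by norm_num, by norm_num, by norm_num⟩) (by norm_num)).trans (by norm_num)
    · exact piecea (c := (32149 / 100000)) (s := (16291 / 50000)) h (ga hR) (by norm_num) (by norm_num) k1 b2 (by norm_num)
        (by norm_num) (by norm_num) (Or.inr (by norm_num)) (by norm_num) (by norm_num)
  exact pos_fin (g := (6547 / 10000)) hτ Tp_pos Tp_lt hS e1 e2 (by norm_num) (by norm_num) k1 b2 h.P0 (by norm_num)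
    (hp.trans (by norm_num)) (by norm_num) (by norm_num)

theorem lpb3 (hτ : 0 < τ) (h : SlD τ R (3969 / 10000) b P) (t1 : (1 / 5) ≤ τ ^ 2)
    (t2 : τ ^ 2 ≤ (1 / 4)) (hR0 : 0 < R) (hR2 : R < π / 2) (hc : cos R ^ 2 ≤ (161 / 250))
    (b1 : (2 / 5) ≤ b) (b2 : b ≤ 1) : lossJ τ b P Tp ≤ (9 / 250) := by
  have hS := sJ_le (S := (653 / 2000)) hτ Tp_pos Tp_lt cos_Tp t2 (by norm_num) (by norm_num)
  have e1 := eta_ge (κ := (83 / 80)) (η := (381 / 1250)) hτ Tp_pos Tp_lt cos_Tp (by norm_num) (by norm_num) Tp_le (by norm_num)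
    t1 (by linarith) (by norm_num)
  have e2 := eta_le (κ := (1297 / 1250)) (η := (631 / 2000)) hτ Tp_pos Tp_lt cos_Tp (by norm_num) (by norm_num) le_Tp t2
    (by norm_num)
  have gA : R ≤ (153 / 200) → RA τ R (153 / 200) (1197 / 1250) (793 / 2500) (6779 / 10000) (4687 / 5000) := fun hR =>
    RA.of (cl := (72137 / 100000)) hτ hR0 hR (by norm_num) t1 t2 (by norm_num) hc
      (by norm_num) (by norm_num) (by norm_num) (by norm_num) (by norm_num) (by norm_num)
      (by norm_num) (by norm_num) (by norm_num) (by norm_num) (by norm_num) (by norm_num)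
  have ga : (153 / 200) ≤ R → Ra τ R (153 / 200) (1767 / 5000) (4673 / 5000) := fun hR =>
    Ra.of (cu := (72139 / 100000)) hτ hR hR2 (by norm_num) t1 t2
      (by norm_num) (by norm_num) (by norm_num) (by norm_num) (by norm_num)
  rcases le_total b (51 / 100) with k1 | k1
  · have hp : P ≤ (6483 / 10000) := by
      rcases le_total R (153 / 200) with hR | hR
      · exact (pieceA (p := (6483 / 10000)) (F := (8847 / 25000)) h (gA hR) (by norm_num) b1 k1 (by norm_num)
          (Or.inr ⟨by norm_num, by norm_num, by norm_num, by norm_num⟩) (by norm_num)).trans (by norm_num)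
      · exact piecea (c := (57819 / 100000)) (s := (9061 / 50000)) h (ga hR) (by norm_num) (by norm_num) b1 k1 (by norm_num)
          (by norm_num) (by norm_num) (Or.inr (by norm_num)) (by norm_num) (by norm_num)
    exact pos_fin (g := (329 / 625)) hτ Tp_pos Tp_lt hS e1 e2 (by norm_num) (by norm_num) b1 k1 h.P0 (by norm_num)
      (hp.trans (by norm_num)) (by norm_num) (by norm_num)
  have hp : P ≤ (7497 / 10000) := by
    rcases le_total R (153 / 200) with hR | hR
    · exact (pieceA (p := (7497 / 10000)) (F := (32533 / 50000)) h (gA hR) (by norm_num) k1 b2 (by norm_num)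
        (Or.inr ⟨by norm_num, by norm_num, by norm_num, by norm_num⟩) (by norm_num)).trans (by norm_num)
    · exact piecea (c := (20887 / 50000)) (s := (18041 / 50000)) h (ga hR) (by norm_num) (by norm_num) k1 b2 (by norm_num)
        (by norm_num) (by norm_num) (Or.inr (by norm_num)) (by norm_num) (by norm_num)
  exact pos_fin (g := (5943 / 10000)) hτ Tp_pos Tp_lt hS e1 e2 (by norm_num) (by norm_num) k1 b2 h.P0 (by norm_num)
    (hp.trans (by norm_num)) (by norm_num) (by norm_num)

theorem lpb4 (hτ : 0 < τ) (h : SlD τ R (3969 / 10000) b P) (t1 : (1 / 4) ≤ τ ^ 2)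
    (t2 : τ ^ 2 ≤ (3 / 10)) (hR0 : 0 < R) (hR2 : R < π / 2) (hc : cos R ^ 2 ≤ (159 / 250))
    (b1 : (2 / 5) ≤ b) (b2 : b ≤ 1) : lossJ τ b P Tp ≤ (9 / 250) := by
  have hS := sJ_le (S := (3537 / 10000)) hτ Tp_pos Tp_lt cos_Tp t2 (by norm_num) (by norm_num)
  have e1 := eta_ge (κ := (83 / 80)) (η := (3129 / 10000)) hτ Tp_pos Tp_lt cos_Tp (by norm_num) (by norm_num) Tp_le (by norm_num)
    t1 (by linarith) (by norm_num)
  have e2 := eta_le (κ := (1297 / 1250)) (η := (649 / 2000)) hτ Tp_pos Tp_lt cos_Tp (by norm_num) (by norm_num) le_Tp t2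
    (by norm_num)
  have gA : R ≤ (39 / 50) → RA τ R (39 / 50) (4811 / 5000) (3483 / 10000) (943 / 1250) (2459 / 2500) := fun hR =>
    RA.of (cl := (71091 / 100000)) hτ hR0 hR (by norm_num) t1 t2 (by norm_num) hc
      (by norm_num) (by norm_num) (by norm_num) (by norm_num) (by norm_num) (by norm_num)
      (by norm_num) (by norm_num) (by norm_num) (by norm_num) (by norm_num) (by norm_num)
  have ga : (39 / 50) ≤ R → Ra τ R (39 / 50) (3803 / 10000) (2457 / 2500) := fun hR =>
    Ra.of (cu := (17773 / 25000)) hτ hR hR2 (by norm_num) t1 t2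
      (by norm_num) (by norm_num) (by norm_num) (by norm_num) (by norm_num)
  rcases le_total b (23 / 50) with k1 | k1
  · have hp : P ≤ (1577 / 2500) := by
      rcases le_total R (39 / 50) with hR | hR
      · exact (pieceA (p := (1577 / 2500)) (F := (1231 / 4000)) h (gA hR) (by norm_num) b1 k1 (by norm_num)
          (Or.inr ⟨by norm_num, by norm_num, by norm_num, by norm_num⟩) (by norm_num)).trans (by norm_num)
      · exact piecea (c := (58753 / 100000)) (s := (1099 / 6250)) h (ga hR) (by norm_num) (by norm_num) b1 k1 (by norm_num)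
          (by norm_num) (by norm_num) (Or.inr (by norm_num)) (by norm_num) (by norm_num)
    exact pos_fin (g := (5057 / 10000)) hτ Tp_pos Tp_lt hS e1 e2 (by norm_num) (by norm_num) b1 k1 h.P0 (by norm_num)
      (hp.trans (by norm_num)) (by norm_num) (by norm_num)
  rcases le_total b (79 / 100) with k2 | k2
  · have hp : P ≤ (3431 / 5000) := by
      rcases le_total R (39 / 50) with hR | hR
      · exact (pieceA (p := (3431 / 5000)) (F := (48609 / 100000)) h (gA hR) (by norm_num) k1 k2 (by norm_num)
          (Or.inr ⟨by norm_num, by norm_num, by norm_num, by norm_num⟩) (by norm_num)).trans (by norm_num)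
      · exact piecea (c := (50191 / 100000)) (s := (30499 / 100000)) h (ga hR) (by norm_num) (by norm_num) k1 k2 (by norm_num)
          (by norm_num) (by norm_num) (Or.inr (by norm_num)) (by norm_num) (by norm_num)
    exact pos_fin (g := (5423 / 10000)) hτ Tp_pos Tp_lt hS e1 e2 (by norm_num) (by norm_num) k1 k2 h.P0 (by norm_num)
      (hp.trans (by norm_num)) (by norm_num) (by norm_num)
  have hp : P ≤ (4789 / 5000) := by
    rcases le_total R (39 / 50) with hR | hR
    · exact (pieceA (p := (4569 / 5000)) (F := (45103 / 50000)) h (gA hR) (by norm_num) k2 b2 (by norm_num)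
        (Or.inr ⟨by norm_num, by norm_num, by norm_num, by norm_num⟩) (by norm_num)).trans (by norm_num)
    · exact piecea (c := 0) (s := (7791 / 20000)) h (ga hR) (by norm_num) (by norm_num) k2 b2 (by norm_num)
        (by norm_num) (by norm_num) (Or.inr (by norm_num)) (by norm_num) (by norm_num)
  exact pos_fin (g := (7107 / 10000)) hτ Tp_pos Tp_lt hS e1 e2 (by norm_num) (by norm_num) k2 b2 h.P0 (by norm_num)
    (hp.trans (by norm_num)) (by norm_num) (by norm_num)

theorem lpb5 (hτ : 0 < τ) (h : SlD τ R (3969 / 10000) b P) (t1 : (3 / 10) ≤ τ ^ 2)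
    (t2 : τ ^ 2 ≤ (7 / 20)) (hR0 : 0 < R) (hR2 : R < π / 2) (hc : cos R ^ 2 ≤ (157 / 250))
    (b1 : (2 / 5) ≤ b) (b2 : b ≤ 1) : lossJ τ b P Tp ≤ (9 / 250) := by
  have hS := sJ_le (S := (1889 / 5000)) hτ Tp_pos Tp_lt cos_Tp t2 (by norm_num) (by norm_num)
  have e1 := eta_ge (κ := (83 / 80)) (η := (3209 / 10000)) hτ Tp_pos Tp_lt cos_Tp (by norm_num) (by norm_num) Tp_le (by norm_num)
    t1 (by linarith) (by norm_num)
  have e2 := eta_le (κ := (1297 / 1250)) (η := (1667 / 5000)) hτ Tp_pos Tp_lt cos_Tp (by norm_num) (by norm_num) le_Tp t2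
    (by norm_num)
  have gA : R ≤ (159 / 200) → RA τ R (159 / 200) (4833 / 5000) (3747 / 10000) (1027 / 1250) (5151 / 5000) := fun hR =>
    RA.of (cl := (17507 / 25000)) hτ hR0 hR (by norm_num) t1 t2 (by norm_num) hc
      (by norm_num) (by norm_num) (by norm_num) (by norm_num) (by norm_num) (by norm_num)
      (by norm_num) (by norm_num) (by norm_num) (by norm_num) (by norm_num) (by norm_num)
  have ga : (159 / 200) ≤ R → Ra τ R (159 / 200) (2017 / 5000) (10289 / 10000) := fun hR =>
    Ra.of (cu := (70029 / 100000)) hτ hR hR2 (by norm_num) t1 t2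
      (by norm_num) (by norm_num) (by norm_num) (by norm_num) (by norm_num)
  rcases le_total b (11 / 25) with k1 | k1
  · have hp : P ≤ (386 / 625) := by
      rcases le_total R (159 / 200) with hR | hR
      · exact (pieceA (p := (386 / 625)) (F := (13411 / 50000)) h (gA hR) (by norm_num) b1 k1 (by norm_num)
          (Or.inr ⟨by norm_num, by norm_num, by norm_num, by norm_num⟩) (by norm_num)).trans (by norm_num)
      · exact piecea (c := (29667 / 50000)) (s := (17843 / 100000)) h (ga hR) (by norm_num) (by norm_num) b1 k1 (by norm_num)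
          (by norm_num) (by norm_num) (Or.inr (by norm_num)) (by norm_num) (by norm_num)
    exact pos_fin (g := (4893 / 10000)) hτ Tp_pos Tp_lt hS e1 e2 (by norm_num) (by norm_num) b1 k1 h.P0 (by norm_num)
      (hp.trans (by norm_num)) (by norm_num) (by norm_num)
  rcases le_total b (63 / 100) with k2 | k2
  · have hp : P ≤ (6543 / 10000) := by
      rcases le_total R (159 / 200) with hR | hR
      · exact (pieceA (p := (6543 / 10000)) (F := (9811 / 25000)) h (gA hR) (by norm_num) k1 k2 (by norm_num)
          (Or.inr ⟨by norm_num, by norm_num, by norm_num, by norm_num⟩) (by norm_num)).trans (by norm_num)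
      · exact piecea (c := (10737 / 20000)) (s := (25689 / 100000)) h (ga hR) (by norm_num) (by norm_num) k1 k2 (by norm_num)
          (by norm_num) (by norm_num) (Or.inr (by norm_num)) (by norm_num) (by norm_num)
    exact pos_fin (g := (1283 / 2500)) hτ Tp_pos Tp_lt hS e1 e2 (by norm_num) (by norm_num) k1 k2 h.P0 (by norm_num)
      (hp.trans (by norm_num)) (by norm_num) (by norm_num)
  have hp : P ≤ (4081 / 5000) := by
    rcases le_total R (159 / 200) with hR | hR
    · exact (pieceA (p := (4081 / 5000)) (F := (16517 / 20000)) h (gA hR) (by norm_num) k2 b2 (by norm_num)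
        (Or.inr ⟨by norm_num, by norm_num, by norm_num, by norm_num⟩) (by norm_num)).trans (by norm_num)
    · exact piecea (c := (1569 / 6250)) (s := (8289 / 20000)) h (ga hR) (by norm_num) (by norm_num) k2 b2 (by norm_num)
        (by norm_num) (by norm_num) (Or.inr (by norm_num)) (by norm_num) (by norm_num)
  exact pos_fin (g := (6141 / 10000)) hτ Tp_pos Tp_lt hS e1 e2 (by norm_num) (by norm_num) k2 b2 h.P0 (by norm_num)
    (hp.trans (by norm_num)) (by norm_num) (by norm_num)

theorem lpb6 (hτ : 0 < τ) (h : SlD τ R (3969 / 10000) b P) (t1 : (7 / 20) ≤ τ ^ 2)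
    (t2 : τ ^ 2 ≤ (2 / 5)) (hR0 : 0 < R) (hR2 : R < π / 2) (hc : cos R ^ 2 ≤ (619 / 1000))
    (b1 : (2 / 5) ≤ b) (b2 : b ≤ 1) : lossJ τ b P Tp ≤ (9 / 250) := by
  have hS := sJ_le (S := (799 / 2000)) hτ Tp_pos Tp_lt cos_Tp t2 (by norm_num) (by norm_num)
  have e1 := eta_ge (κ := (83 / 80)) (η := (1643 / 5000)) hτ Tp_pos Tp_lt cos_Tp (by norm_num) (by norm_num) Tp_le (by norm_num)
    t1 (by linarith) (by norm_num)
  have e2 := eta_le (κ := (1297 / 1250)) (η := (214 / 625)) hτ Tp_pos Tp_lt cos_Tp (by norm_num) (by norm_num) le_Tp t2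
    (by norm_num)
  have gA : R ≤ (79 / 100) → RA τ R (79 / 100) (607 / 625) (1013 / 2500) (9021 / 10000) (5069 / 5000) := fun hR =>
    RA.of (cl := (4399 / 6250)) hτ hR0 hR (by norm_num) t1 t2 (by norm_num) hc
      (by norm_num) (by norm_num) (by norm_num) (by norm_num) (by norm_num) (by norm_num)
      (by norm_num) (by norm_num) (by norm_num) (by norm_num) (by norm_num) (by norm_num)
  have ga : (79 / 100) ≤ R → Ra τ R (79 / 100) (2159 / 5000) (2533 / 2500) := fun hR =>
    Ra.of (cu := (14077 / 20000)) hτ hR hR2 (by norm_num) t1 t2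
      (by norm_num) (by norm_num) (by norm_num) (by norm_num) (by norm_num)
  rcases le_total b (11 / 25) with k1 | k1
  · have hp : P ≤ (759 / 1250) := by
      rcases le_total R (79 / 100) with hR | hR
      · exact (pieceA (p := (759 / 1250)) (F := (12783 / 50000)) h (gA hR) (by norm_num) b1 k1 (by norm_num)
          (Or.inr ⟨by norm_num, by norm_num, by norm_num, by norm_num⟩) (by norm_num)).trans (by norm_num)
      · exact piecea (c := (7541 / 12500)) (s := (9557 / 50000)) h (ga hR) (by norm_num) (by norm_num) b1 k1 (by norm_num)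
          (by norm_num) (by norm_num) (Or.inr (by norm_num)) (by norm_num) (by norm_num)
    exact pos_fin (g := (2379 / 5000)) hτ Tp_pos Tp_lt hS e1 e2 (by norm_num) (by norm_num) b1 k1 h.P0 (by norm_num)
      (hp.trans (by norm_num)) (by norm_num) (by norm_num)
  rcases le_total b (17 / 25) with k2 | k2
  · have hp : P ≤ (1609 / 2500) := by
      rcases le_total R (79 / 100) with hR | hR
      · exact (pieceA (p := (1609 / 2500)) (F := (19013 / 50000)) h (gA hR) (by norm_num) k1 k2 (by norm_num)
          (Or.inr ⟨by norm_num, by norm_num, by norm_num, by norm_num⟩) (by norm_num)).trans (by norm_num)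
      · exact piecea (c := (54769 / 100000)) (s := (29787 / 100000)) h (ga hR) (by norm_num) (by norm_num) k1 k2 (by norm_num)
          (by norm_num) (by norm_num) (Or.inr (by norm_num)) (by norm_num) (by norm_num)
    exact pos_fin (g := (4991 / 10000)) hτ Tp_pos Tp_lt hS e1 e2 (by norm_num) (by norm_num) k1 k2 h.P0 (by norm_num)
      (hp.trans (by norm_num)) (by norm_num) (by norm_num)
  have hp : P ≤ (4219 / 5000) := by
    rcases le_total R (79 / 100) with hR | hR
    · exact (pieceA (p := (4219 / 5000)) (F := (17613 / 20000)) h (gA hR) (by norm_num) k2 b2 (by norm_num)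
        (Or.inr ⟨by norm_num, by norm_num, by norm_num, by norm_num⟩) (by norm_num)).trans (by norm_num)
    · exact piecea (c := (18867 / 100000)) (s := (44537 / 100000)) h (ga hR) (by norm_num) (by norm_num) k2 b2 (by norm_num)
        (by norm_num) (by norm_num) (Or.inr (by norm_num)) (by norm_num) (by norm_num)
  exact pos_fin (g := (1551 / 2500)) hτ Tp_pos Tp_lt hS e1 e2 (by norm_num) (by norm_num) k2 b2 h.P0 (by norm_num)
    (hp.trans (by norm_num)) (by norm_num) (by norm_num)

theorem lpb7 (hτ : 0 < τ) (h : SlD τ R (3969 / 10000) b P) (t1 : (2 / 5) ≤ τ ^ 2)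
    (t2 : τ ^ 2 ≤ (1 / 2)) (hR0 : 0 < R) (hR2 : R < π / 2) (hc : cos R ^ 2 ≤ (61 / 100))
    (b1 : (2 / 5) ≤ b) (b2 : b ≤ 1) : lossJ τ b P Tp ≤ (9 / 250) := by
  have hS := sJ_le (S := (2187 / 5000)) hτ Tp_pos Tp_lt cos_Tp t2 (by norm_num) (by norm_num)
  have e1 := eta_ge (κ := (83 / 80)) (η := (1681 / 5000)) hτ Tp_pos Tp_lt cos_Tp (by norm_num) (by norm_num) Tp_le (by norm_num)
    t1 (by linarith) (by norm_num)
  have e2 := eta_le (κ := (1297 / 1250)) (η := (3603 / 10000)) hτ Tp_pos Tp_lt cos_Tp (by norm_num) (by norm_num) le_Tp t2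
    (by norm_num)
  have gA : R ≤ (81 / 100) → RA τ R (81 / 100) (4877 / 5000) (529 / 1250) (4757 / 5000) (537 / 500) := fun hR =>
    RA.of (cl := (68949 / 100000)) hτ hR0 hR (by norm_num) t1 t2 (by norm_num) hc
      (by norm_num) (by norm_num) (by norm_num) (by norm_num) (by norm_num) (by norm_num)
      (by norm_num) (by norm_num) (by norm_num) (by norm_num) (by norm_num) (by norm_num)
  have ga : (81 / 100) ≤ R → Ra τ R (81 / 100) (4703 / 10000) (10689 / 10000) := fun hR =>
    Ra.of (cu := (1379 / 2000)) hτ hR hR2 (by norm_num) t1 t2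
      (by norm_num) (by norm_num) (by norm_num) (by norm_num) (by norm_num)
  rcases le_total b (23 / 50) with k1 | k1
  · have hp : P ≤ (1473 / 2500) := by
      rcases le_total R (81 / 100) with hR | hR
      · exact (pieceA (p := (1473 / 2500)) (F := (19989 / 100000)) h (gA hR) (by norm_num) b1 k1 (by norm_num)
          (Or.inr ⟨by norm_num, by norm_num, by norm_num, by norm_num⟩) (by norm_num)).trans (by norm_num)
      · exact piecea (c := (30561 / 50000)) (s := (5451 / 25000)) h (ga hR) (by norm_num) (by norm_num) b1 k1 (by norm_num)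
          (by norm_num) (by norm_num) (Or.inr (by norm_num)) (by norm_num) (by norm_num)
    exact pos_fin (g := (1137 / 2500)) hτ Tp_pos Tp_lt hS e1 e2 (by norm_num) (by norm_num) b1 k1 h.P0 (by norm_num)
      (hp.trans (by norm_num)) (by norm_num) (by norm_num)
  rcases le_total b (17 / 25) with k2 | k2
  · have hp : P ≤ (6423 / 10000) := by
      rcases le_total R (81 / 100) with hR | hR
      · exact (pieceA (p := (6423 / 10000)) (F := (38853 / 100000)) h (gA hR) (by norm_num) k1 k2 (by norm_num)
          (Or.inr ⟨by norm_num, by norm_num, by norm_num, by norm_num⟩) (by norm_num)).trans (by norm_num)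
      · exact piecea (c := (52771 / 100000)) (s := (32529 / 100000)) h (ga hR) (by norm_num) (by norm_num) k1 k2 (by norm_num)
          (by norm_num) (by norm_num) (Or.inr (by norm_num)) (by norm_num) (by norm_num)
    exact pos_fin (g := (4877 / 10000)) hτ Tp_pos Tp_lt hS e1 e2 (by norm_num) (by norm_num) k1 k2 h.P0 (by norm_num)
      (hp.trans (by norm_num)) (by norm_num) (by norm_num)
  have hp : P ≤ (1643 / 2000) := by
    rcases le_total R (81 / 100) with hR | hR
    · exact (pieceA (p := (1643 / 2000)) (F := (86571 / 100000)) h (gA hR) (by norm_num) k2 b2 (by norm_num)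
        (Or.inr ⟨by norm_num, by norm_num, by norm_num, by norm_num⟩) (by norm_num)).trans (by norm_num)
    · exact piecea (c := (19721 / 100000)) (s := (48787 / 100000)) h (ga hR) (by norm_num) (by norm_num) k2 b2 (by norm_num)
        (by norm_num) (by norm_num) (Or.inr (by norm_num)) (by norm_num) (by norm_num)
  exact pos_fin (g := (5929 / 10000)) hτ Tp_pos Tp_lt hS e1 e2 (by norm_num) (by norm_num) k2 b2 h.P0 (by norm_num)
    (hp.trans (by norm_num)) (by norm_num) (by norm_num)

theorem lpb8 (hτ : 0 < τ) (h : SlD τ R (3969 / 10000) b P) (t1 : (1 / 2) ≤ τ ^ 2)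
    (t2 : τ ^ 2 ≤ (13 / 20)) (hR0 : 0 < R) (hR2 : R < π / 2) (hc : cos R ^ 2 ≤ (591 / 1000))
    (b1 : (2 / 5) ≤ b) (b2 : b ≤ 1) : lossJ τ b P Tp ≤ (9 / 250) := by
  have hS := sJ_le (S := (4839 / 10000)) hτ Tp_pos Tp_lt cos_Tp t2 (by norm_num) (by norm_num)
  have e1 := eta_ge (κ := (83 / 80)) (η := (877 / 2500)) hτ Tp_pos Tp_lt cos_Tp (by norm_num) (by norm_num) Tp_le (by norm_num)
    t1 (by linarith) (by norm_num)
  have e2 := eta_le (κ := (1297 / 1250)) (η := (242 / 625)) hτ Tp_pos Tp_lt cos_Tp (by norm_num) (by norm_num) le_Tp t2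
    (by norm_num)
  have gA : R ≤ (83 / 100) → RA τ R (83 / 100) (1229 / 1250) (4607 / 10000) (423 / 400) (2261 / 2000) := fun hR =>
    RA.of (cl := (67487 / 100000)) hτ hR0 hR (by norm_num) t1 t2 (by norm_num) hc
      (by norm_num) (by norm_num) (by norm_num) (by norm_num) (by norm_num) (by norm_num)
      (by norm_num) (by norm_num) (by norm_num) (by norm_num) (by norm_num) (by norm_num)
  have ga : (83 / 100) ≤ R → Ra τ R (83 / 100) (2603 / 5000) (2237 / 2000) := fun hR =>
    Ra.of (cu := (2109 / 3125)) hτ hR hR2 (by norm_num) t1 t2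
      (by norm_num) (by norm_num) (by norm_num) (by norm_num) (by norm_num)
  rcases le_total b (47 / 100) with k1 | k1
  · have hp : P ≤ (5727 / 10000) := by
      rcases le_total R (83 / 100) with hR | hR
      · exact (pieceA (p := (5727 / 10000)) (F := (7317 / 50000)) h (gA hR) (by norm_num) b1 k1 (by norm_num)
          (Or.inr ⟨by norm_num, by norm_num, by norm_num, by norm_num⟩) (by norm_num)).trans (by norm_num)
      · exact piecea (c := (61793 / 100000)) (s := (12357 / 50000)) h (ga hR) (by norm_num) (by norm_num) b1 k1 (by norm_num)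
          (by norm_num) (by norm_num) (Or.inr (by norm_num)) (by norm_num) (by norm_num)
    exact pos_fin (g := (1081 / 2500)) hτ Tp_pos Tp_lt hS e1 e2 (by norm_num) (by norm_num) b1 k1 h.P0 (by norm_num)
      (hp.trans (by norm_num)) (by norm_num) (by norm_num)
  rcases le_total b (17 / 25) with k2 | k2
  · have hp : P ≤ (1267 / 2000) := by
      rcases le_total R (83 / 100) with hR | hR
      · exact (pieceA (p := (1267 / 2000)) (F := (18559 / 50000)) h (gA hR) (by norm_num) k1 k2 (by norm_num)
          (Or.inr ⟨by norm_num, by norm_num, by norm_num, by norm_num⟩) (by norm_num)).trans (by norm_num)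
      · exact piecea (c := (5203 / 10000)) (s := (18073 / 50000)) h (ga hR) (by norm_num) (by norm_num) k1 k2 (by norm_num)
          (by norm_num) (by norm_num) (Or.inr (by norm_num)) (by norm_num) (by norm_num)
    exact pos_fin (g := (4687 / 10000)) hτ Tp_pos Tp_lt hS e1 e2 (by norm_num) (by norm_num) k1 k2 h.P0 (by norm_num)
      (hp.trans (by norm_num)) (by norm_num) (by norm_num)
  have hp : P ≤ (4011 / 5000) := by
    rcases le_total R (83 / 100) with hR | hR
    · exact (pieceA (p := (4011 / 5000)) (F := (42631 / 50000)) h (gA hR) (by norm_num) k2 b2 (by norm_num)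
        (Or.inr ⟨by norm_num, by norm_num, by norm_num, by norm_num⟩) (by norm_num)).trans (by norm_num)
    · exact piecea (c := (20279 / 100000)) (s := (1089 / 2000)) h (ga hR) (by norm_num) (by norm_num) k2 b2 (by norm_num)
        (by norm_num) (by norm_num) (Or.inr (by norm_num)) (by norm_num) (by norm_num)
  exact pos_fin (g := (5637 / 10000)) hτ Tp_pos Tp_lt hS e1 e2 (by norm_num) (by norm_num) k2 b2 h.P0 (by norm_num)
    (hp.trans (by norm_num)) (by norm_num) (by norm_num)

theorem lpb9 (hτ : 0 < τ) (h : SlD τ R (3969 / 10000) b P) (t1 : (13 / 20) ≤ τ ^ 2)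
    (t2 : τ ^ 2 ≤ (7 / 10)) (hR0 : 0 < R) (hR2 : R < π / 2) (hc : cos R ^ 2 ≤ (563 / 1000))
    (b1 : (2 / 5) ≤ b) (b2 : b ≤ 1) : lossJ τ b P Tp ≤ (4 / 125) := by
  have hS := sJ_le (S := (2487 / 5000)) hτ Tp_pos Tp_lt cos_Tp t2 (by norm_num) (by norm_num)
  have e1 := eta_ge (κ := (83 / 80)) (η := (3713 / 10000)) hτ Tp_pos Tp_lt cos_Tp (by norm_num) (by norm_num) Tp_le (by norm_num)
    t1 (by linarith) (by norm_num)
  have e2 := eta_le (κ := (1297 / 1250)) (η := (1981 / 5000)) hτ Tp_pos Tp_lt cos_Tp (by norm_num) (by norm_num) le_Tp t2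
    (by norm_num)
  have gA : R ≤ (171 / 200) → RA τ R (171 / 200) (9903 / 10000) (5069 / 10000) (1197 / 1000) (5977 / 5000) := fun hR =>
    RA.of (cl := (65621 / 100000)) hτ hR0 hR (by norm_num) t1 t2 (by norm_num) hc
      (by norm_num) (by norm_num) (by norm_num) (by norm_num) (by norm_num) (by norm_num)
      (by norm_num) (by norm_num) (by norm_num) (by norm_num) (by norm_num) (by norm_num)
  have ga : (171 / 200) ≤ R → Ra τ R (171 / 200) (21 / 40) (2379 / 2000) := fun hR =>
    Ra.of (cu := (32811 / 50000)) hτ hR hR2 (by norm_num) t1 t2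
      (by norm_num) (by norm_num) (by norm_num) (by norm_num) (by norm_num)
  rcases le_total b (12 / 25) with k1 | k1
  · have hp : P ≤ (2753 / 5000) := by
      rcases le_total R (171 / 200) with hR | hR
      · exact (pieceA (p := (2753 / 5000)) (F := (93 / 1250)) h (gA hR) (by norm_num) b1 k1 (by norm_num)
          (Or.inr ⟨by norm_num, by norm_num, by norm_num, by norm_num⟩) (by norm_num)).trans (by norm_num)
      · exact piecea (c := (62739 / 100000)) (s := (6367 / 25000)) h (ga hR) (by norm_num) (by norm_num) b1 k1 (by norm_num)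
          (by norm_num) (by norm_num) (Or.inr (by norm_num)) (by norm_num) (by norm_num)
    exact pos_fin (g := (4021 / 10000)) hτ Tp_pos Tp_lt hS e1 e2 (by norm_num) (by norm_num) b1 k1 h.P0 (by norm_num)
      (hp.trans (by norm_num)) (by norm_num) (by norm_num)
  rcases le_total b (17 / 25) with k2 | k2
  · have hp : P ≤ (3093 / 5000) := by
      rcases le_total R (171 / 200) with hR | hR
      · exact (pieceA (p := (3093 / 5000)) (F := (16883 / 50000)) h (gA hR) (by norm_num) k1 k2 (by norm_num)
          (Or.inr ⟨by norm_num, by norm_num, by norm_num, by norm_num⟩) (by norm_num)).trans (by norm_num)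
      · exact piecea (c := (3223 / 6250)) (s := (7293 / 20000)) h (ga hR) (by norm_num) (by norm_num) k1 k2 (by norm_num)
          (by norm_num) (by norm_num) (Or.inr (by norm_num)) (by norm_num) (by norm_num)
    exact pos_fin (g := (1101 / 2500)) hτ Tp_pos Tp_lt hS e1 e2 (by norm_num) (by norm_num) k1 k2 h.P0 (by norm_num)
      (hp.trans (by norm_num)) (by norm_num) (by norm_num)
  have hp : P ≤ (3883 / 5000) := by
    rcases le_total R (171 / 200) with hR | hR
    · exact (pieceA (p := (3883 / 5000)) (F := (4141 / 5000)) h (gA hR) (by norm_num) k2 b2 (by norm_num)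
        (Or.inr ⟨by norm_num, by norm_num, by norm_num, by norm_num⟩) (by norm_num)).trans (by norm_num)
    · exact piecea (c := (132 / 625)) (s := (6869 / 12500)) h (ga hR) (by norm_num) (by norm_num) k2 b2 (by norm_num)
        (by norm_num) (by norm_num) (Or.inr (by norm_num)) (by norm_num) (by norm_num)
  exact pos_fin (g := (2621 / 5000)) hτ Tp_pos Tp_lt hS e1 e2 (by norm_num) (by norm_num) k2 b2 h.P0 (by norm_num)
    (hp.trans (by norm_num)) (by norm_num) (by norm_num)

theorem lpb10 (hτ : 0 < τ) (h : SlD τ R (3969 / 10000) b P) (t1 : (7 / 10) ≤ τ ^ 2)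
    (t2 : τ ^ 2 ≤ (29 / 40)) (hR0 : 0 < R) (hR2 : R < π / 2) (hc : cos R ^ 2 ≤ (277 / 500))
    (b1 : (2 / 5) ≤ b) (b2 : b ≤ 1) : lossJ τ b P Tp ≤ (1 / 40) := by
  have hS := sJ_le (S := (2519 / 5000)) hτ Tp_pos Tp_lt cos_Tp t2 (by norm_num) (by norm_num)
  have e1 := eta_ge (κ := (83 / 80)) (η := (3777 / 10000)) hτ Tp_pos Tp_lt cos_Tp (by norm_num) (by norm_num) Tp_le (by norm_num)
    t1 (by linarith) (by norm_num)
  have e2 := eta_le (κ := (1297 / 1250)) (η := (4007 / 10000)) hτ Tp_pos Tp_lt cos_Tp (by norm_num) (by norm_num) le_Tp t2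
    (by norm_num)
  have gA : R ≤ (173 / 200) → RA τ R (173 / 200) (9873 / 10000) (519 / 1000) (3087 / 2500) (12217 / 10000) := fun hR =>
    RA.of (cl := (64863 / 100000)) hτ hR0 hR (by norm_num) t1 t2 (by norm_num) hc
      (by norm_num) (by norm_num) (by norm_num) (by norm_num) (by norm_num) (by norm_num)
      (by norm_num) (by norm_num) (by norm_num) (by norm_num) (by norm_num) (by norm_num)
  have ga : (173 / 200) ≤ R → Ra τ R (173 / 200) (5279 / 10000) (12183 / 10000) := fun hR =>
    Ra.of (cu := (12973 / 20000)) hτ hR hR2 (by norm_num) t1 t2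
      (by norm_num) (by norm_num) (by norm_num) (by norm_num) (by norm_num)
  rcases le_total b (41 / 100) with k1 | k1
  · have hp : P ≤ (5041 / 10000) := by
      rcases le_total R (173 / 200) with hR | hR
      · exact (pieceA (p := (5041 / 10000)) (F := (-149 / 5000)) h (gA hR) (by norm_num) b1 k1 (by norm_num)
          (Or.inl ⟨by norm_num, by norm_num⟩) (by norm_num)).trans (by norm_num)
      · exact piecea (c := (65991 / 100000)) (s := (10907 / 50000)) h (ga hR) (by norm_num) (by norm_num) b1 k1 (by norm_num)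
          (by norm_num) (by norm_num) (Or.inr (by norm_num)) (by norm_num) (by norm_num)
    exact pos_fin (g := (3531 / 10000)) hτ Tp_pos Tp_lt hS e1 e2 (by norm_num) (by norm_num) b1 k1 h.P0 (by norm_num)
      (hp.trans (by norm_num)) (by norm_num) (by norm_num)
  rcases le_total b (9 / 20) with k2 | k2
  · have hp : P ≤ (5123 / 10000) := by
      rcases le_total R (173 / 200) with hR | hR
      · exact (pieceA (p := (5123 / 10000)) (F := (77 / 20000)) h (gA hR) (by norm_num) k1 k2 (by norm_num)
          (Or.inr ⟨by norm_num, by norm_num, by norm_num, by norm_num⟩) (by norm_num)).trans (by norm_num)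
      · exact piecea (c := (16179 / 25000)) (s := (1199 / 5000)) h (ga hR) (by norm_num) (by norm_num) k1 k2 (by norm_num)
          (by norm_num) (by norm_num) (Or.inr (by norm_num)) (by norm_num) (by norm_num)
    exact pos_fin (g := (143 / 400)) hτ Tp_pos Tp_lt hS e1 e2 (by norm_num) (by norm_num) k1 k2 h.P0 (by norm_num)
      (hp.trans (by norm_num)) (by norm_num) (by norm_num)
  rcases le_total b (27 / 50) with k3 | k3
  · have hp : P ≤ (1361 / 2500) := by
      rcases le_total R (173 / 200) with hR | hR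
      · exact (pieceA (p := (1361 / 2500)) (F := (13513 / 100000)) h (gA hR) (by norm_num) k2 k3 (by norm_num)
          (Or.inr ⟨by norm_num, by norm_num, by norm_num, by norm_num⟩) (by norm_num)).trans (by norm_num)
      · exact piecea (c := (59491 / 100000)) (s := (5779 / 20000)) h (ga hR) (by norm_num) (by norm_num) k2 k3 (by norm_num)
          (by norm_num) (by norm_num) (Or.inr (by norm_num)) (by norm_num) (by norm_num)
    exact pos_fin (g := (749 / 2000)) hτ Tp_pos Tp_lt hS e1 e2 (by norm_num) (by norm_num) k2 k3 h.P0 (by norm_num)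
      (hp.trans (by norm_num)) (by norm_num) (by norm_num)
  rcases le_total b (3 / 4) with k4 | k4
  · have hp : P ≤ (3071 / 5000) := by
      rcases le_total R (173 / 200) with hR | hR
      · exact (pieceA (p := (3071 / 5000)) (F := (20689 / 50000)) h (gA hR) (by norm_num) k3 k4 (by norm_num)
          (Or.inr ⟨by norm_num, by norm_num, by norm_num, by norm_num⟩) (by norm_num)).trans (by norm_num)
      · exact piecea (c := (47019 / 100000)) (s := (40637 / 100000)) h (ga hR) (by norm_num) (by norm_num) k3 k4 (by norm_num)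
          (by norm_num) (by norm_num) (Or.inr (by norm_num)) (by norm_num) (by norm_num)
    exact pos_fin (g := (4103 / 10000)) hτ Tp_pos Tp_lt hS e1 e2 (by norm_num) (by norm_num) k3 k4 h.P0 (by norm_num)
      (hp.trans (by norm_num)) (by norm_num) (by norm_num)
  have hp : P ≤ (7667 / 10000) := by
    rcases le_total R (173 / 200) with hR | hR
    · exact (pieceA (p := (7667 / 10000)) (F := (5421 / 6250)) h (gA hR) (by norm_num) k4 b2 (by norm_num)
        (Or.inr ⟨by norm_num, by norm_num, by norm_num, by norm_num⟩) (by norm_num)).trans (by norm_num)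
    · exact piecea (c := (7737 / 50000)) (s := (55283 / 100000)) h (ga hR) (by norm_num) (by norm_num) k4 b2 (by norm_num)
        (by norm_num) (by norm_num) (Or.inr (by norm_num)) (by norm_num) (by norm_num)
  exact pos_fin (g := (967 / 2000)) hτ Tp_pos Tp_lt hS e1 e2 (by norm_num) (by norm_num) k4 b2 h.P0 (by norm_num)
    (hp.trans (by norm_num)) (by norm_num) (by norm_num)

theorem lpb11 (hτ : 0 < τ) (h : SlD τ R (3969 / 10000) b P) (t1 : (29 / 40) ≤ τ ^ 2)
    (t2 : τ ^ 2 ≤ (3 / 4)) (hR0 : 0 < R) (hR2 : R < π / 2) (hc : cos R ^ 2 ≤ (549 / 1000))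
    (b1 : (2 / 5) ≤ b) (b2 : b ≤ 1) : lossJ τ b P Tp ≤ (1 / 40) := by
  have hS := sJ_le (S := (51 / 100)) hτ Tp_pos Tp_lt cos_Tp t2 (by norm_num) (by norm_num)
  have e1 := eta_ge (κ := (83 / 80)) (η := (3809 / 10000)) hτ Tp_pos Tp_lt cos_Tp (by norm_num) (by norm_num) Tp_le (by norm_num)
    t1 (by linarith) (by norm_num)
  have e2 := eta_le (κ := (1297 / 1250)) (η := (4051 / 10000)) hτ Tp_pos Tp_lt cos_Tp (by norm_num) (by norm_num) le_Tp t2
    (by norm_num)
  have gA : R ≤ (87 / 100) → RA τ R (87 / 100) (9857 / 10000) (1049 / 2000) (6263 / 5000) (12349 / 10000) := fun hR =>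
    RA.of (cl := (64481 / 100000)) hτ hR0 hR (by norm_num) t1 t2 (by norm_num) hc
      (by norm_num) (by norm_num) (by norm_num) (by norm_num) (by norm_num) (by norm_num)
      (by norm_num) (by norm_num) (by norm_num) (by norm_num) (by norm_num) (by norm_num)
  have ga : (87 / 100) ≤ R → Ra τ R (87 / 100) (1333 / 2500) (6157 / 5000) := fun hR =>
    Ra.of (cu := (64483 / 100000)) hτ hR hR2 (by norm_num) t1 t2
      (by norm_num) (by norm_num) (by norm_num) (by norm_num) (by norm_num)
  rcases le_total b (43 / 100) with k1 | k1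
  · have hp : P ≤ (629 / 1250) := by
      rcases le_total R (87 / 100) with hR | hR
      · exact (pieceA (p := (629 / 1250)) (F := (-47 / 1250)) h (gA hR) (by norm_num) b1 k1 (by norm_num)
          (Or.inl ⟨by norm_num, by norm_num⟩) (by norm_num)).trans (by norm_num)
      · exact piecea (c := (65909 / 100000)) (s := (2313 / 10000)) h (ga hR) (by norm_num) (by norm_num) b1 k1 (by norm_num)
          (by norm_num) (by norm_num) (Or.inr (by norm_num)) (by norm_num) (by norm_num)
    exact pos_fin (g := (3509 / 10000)) hτ Tp_pos Tp_lt hS e1 e2 (by norm_num) (by norm_num) b1 k1 h.P0 (by norm_num)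
      (hp.trans (by norm_num)) (by norm_num) (by norm_num)
  rcases le_total b (1 / 2) with k2 | k2
  · have hp : P ≤ (1319 / 2500) := by
      rcases le_total R (87 / 100) with hR | hR
      · exact (pieceA (p := (1319 / 2500)) (F := (1249 / 20000)) h (gA hR) (by norm_num) k1 k2 (by norm_num)
          (Or.inr ⟨by norm_num, by norm_num, by norm_num, by norm_num⟩) (by norm_num)).trans (by norm_num)
      · exact piecea (c := (15507 / 25000)) (s := (13489 / 50000)) h (ga hR) (by norm_num) (by norm_num) k1 k2 (by norm_num)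
          (by norm_num) (by norm_num) (Or.inr (by norm_num)) (by norm_num) (by norm_num)
    exact pos_fin (g := (3639 / 10000)) hτ Tp_pos Tp_lt hS e1 e2 (by norm_num) (by norm_num) k1 k2 h.P0 (by norm_num)
      (hp.trans (by norm_num)) (by norm_num) (by norm_num)
  rcases le_total b (13 / 20) with k3 | k3
  · have hp : P ≤ (1457 / 2500) := by
      rcases le_total R (87 / 100) with hR | hR
      · exact (pieceA (p := (1457 / 2500)) (F := (3589 / 12500)) h (gA hR) (by norm_num) k2 k3 (by norm_num)
          (Or.inr ⟨by norm_num, by norm_num, by norm_num, by norm_num⟩) (by norm_num)).trans (by norm_num)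
      · exact piecea (c := (13131 / 25000)) (s := (35357 / 100000)) h (ga hR) (by norm_num) (by norm_num) k2 k3 (by norm_num)
          (by norm_num) (by norm_num) (Or.inr (by norm_num)) (by norm_num) (by norm_num)
    exact pos_fin (g := (981 / 2500)) hτ Tp_pos Tp_lt hS e1 e2 (by norm_num) (by norm_num) k2 k3 h.P0 (by norm_num)
      (hp.trans (by norm_num)) (by norm_num) (by norm_num)
  rcases le_total b (19 / 20) with k4 | k4
  · have hp : P ≤ (6949 / 10000) := by
      rcases le_total R (87 / 100) with hR | hR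
      · exact (pieceA (p := (6949 / 10000)) (F := (69143 / 100000)) h (gA hR) (by norm_num) k3 k4 (by norm_num)
          (Or.inr ⟨by norm_num, by norm_num, by norm_num, by norm_num⟩) (by norm_num)).trans (by norm_num)
      · exact piecea (c := (1909 / 6250)) (s := (26427 / 50000)) h (ga hR) (by norm_num) (by norm_num) k3 k4 (by norm_num)
          (by norm_num) (by norm_num) (Or.inr (by norm_num)) (by norm_num) (by norm_num)
    exact pos_fin (g := (2237 / 5000)) hτ Tp_pos Tp_lt hS e1 e2 (by norm_num) (by norm_num) k3 k4 h.P0 (by norm_num)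
      (hp.trans (by norm_num)) (by norm_num) (by norm_num)
  have hp : P ≤ (9027 / 10000) := by
    rcases le_total R (87 / 100) with hR | hR
    · exact (pieceA (p := (1587 / 2000)) (F := (92409 / 100000)) h (gA hR) (by norm_num) k4 b2 (by norm_num)
        (Or.inr ⟨by norm_num, by norm_num, by norm_num, by norm_num⟩) (by norm_num)).trans (by norm_num)
    · exact piecea (c := 0) (s := (5589 / 10000)) h (ga hR) (by norm_num) (by norm_num) k4 b2 (by norm_num)
        (by norm_num) (by norm_num) (Or.inl (by norm_num)) (by norm_num) (by norm_num)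
  exact pos_fin (g := (5409 / 10000)) hτ Tp_pos Tp_lt hS e1 e2 (by norm_num) (by norm_num) k4 b2 h.P0 (by norm_num)
    (hp.trans (by norm_num)) (by norm_num) (by norm_num)

theorem lpb12 (hτ : 0 < τ) (h : SlD τ R (3969 / 10000) b P) (t1 : (3 / 4) ≤ τ ^ 2)
    (t2 : τ ^ 2 ≤ (31 / 40)) (hR0 : 0 < R) (hR2 : R < π / 2) (hc : cos R ^ 2 ≤ (68 / 125))
    (b1 : (2 / 5) ≤ b) (b2 : b ≤ 1) : lossJ τ b P Tp ≤ (3 / 125) := by
  have hS := sJ_le (S := (5161 / 10000)) hτ Tp_pos Tp_lt cos_Tp t2 (by norm_num) (by norm_num)
  have e1 := eta_ge (κ := (83 / 80)) (η := (48 / 125)) hτ Tp_pos Tp_lt cos_Tp (by norm_num) (by norm_num) Tp_le (by norm_num)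
    t1 (by linarith) (by norm_num)
  have e2 := eta_le (κ := (1297 / 1250)) (η := (256 / 625)) hτ Tp_pos Tp_lt cos_Tp (by norm_num) (by norm_num) le_Tp t2
    (by norm_num)
  have gA : R ≤ (7 / 8) → RA τ R (7 / 8) (9839 / 10000) (2649 / 5000) (12697 / 10000) (156 / 125) := fun hR =>
    RA.of (cl := (32049 / 50000)) hτ hR0 hR (by norm_num) t1 t2 (by norm_num) hc
      (by norm_num) (by norm_num) (by norm_num) (by norm_num) (by norm_num) (by norm_num)
      (by norm_num) (by norm_num) (by norm_num) (by norm_num) (by norm_num) (by norm_num)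
  have ga : (7 / 8) ≤ R → Ra τ R (7 / 8) (673 / 1250) (12443 / 10000) := fun hR =>
    Ra.of (cu := (641 / 1000)) hτ hR hR2 (by norm_num) t1 t2
      (by norm_num) (by norm_num) (by norm_num) (by norm_num) (by norm_num)
  rcases le_total b (21 / 50) with k1 | k1
  · have hp : P ≤ (2477 / 5000) := by
      rcases le_total R (7 / 8) with hR | hR
      · exact (pieceA (p := (2477 / 5000)) (F := (-37 / 625)) h (gA hR) (by norm_num) b1 k1 (by norm_num)
          (Or.inl ⟨by norm_num, by norm_num⟩) (by norm_num)).trans (by norm_num)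
      · exact piecea (c := (8293 / 12500)) (s := (22807 / 100000)) h (ga hR) (by norm_num) (by norm_num) b1 k1 (by norm_num)
          (by norm_num) (by norm_num) (Or.inr (by norm_num)) (by norm_num) (by norm_num)
    exact pos_fin (g := (1709 / 5000)) hτ Tp_pos Tp_lt hS e1 e2 (by norm_num) (by norm_num) b1 k1 h.P0 (by norm_num)
      (hp.trans (by norm_num)) (by norm_num) (by norm_num)
  rcases le_total b (47 / 100) with k2 | k2
  · have hp : P ≤ (1023 / 2000) := by
      rcases le_total R (7 / 8) with hR | hR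
      · exact (pieceA (p := (1023 / 2000)) (F := (787 / 100000)) h (gA hR) (by norm_num) k1 k2 (by norm_num)
          (Or.inr ⟨by norm_num, by norm_num, by norm_num, by norm_num⟩) (by norm_num)).trans (by norm_num)
      · exact piecea (c := (63793 / 100000)) (s := (3197 / 12500)) h (ga hR) (by norm_num) (by norm_num) k1 k2 (by norm_num)
          (by norm_num) (by norm_num) (Or.inr (by norm_num)) (by norm_num) (by norm_num)
    exact pos_fin (g := (3503 / 10000)) hτ Tp_pos Tp_lt hS e1 e2 (by norm_num) (by norm_num) k1 k2 h.P0 (by norm_num)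
      (hp.trans (by norm_num)) (by norm_num) (by norm_num)
  rcases le_total b (29 / 50) with k3 | k3
  · have hp : P ≤ (5509 / 10000) := by
      rcases le_total R (7 / 8) with hR | hR
      · exact (pieceA (p := (5509 / 10000)) (F := (8531 / 50000)) h (gA hR) (by norm_num) k2 k3 (by norm_num)
          (Or.inr ⟨by norm_num, by norm_num, by norm_num, by norm_num⟩) (by norm_num)).trans (by norm_num)
      · exact piecea (c := (7147 / 12500)) (s := (15869 / 50000)) h (ga hR) (by norm_num) (by norm_num) k2 k3 (by norm_num)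
          (by norm_num) (by norm_num) (Or.inr (by norm_num)) (by norm_num) (by norm_num)
    exact pos_fin (g := (741 / 2000)) hτ Tp_pos Tp_lt hS e1 e2 (by norm_num) (by norm_num) k2 k3 h.P0 (by norm_num)
      (hp.trans (by norm_num)) (by norm_num) (by norm_num)
  rcases le_total b (81 / 100) with k4 | k4
  · have hp : P ≤ (6343 / 10000) := by
      rcases le_total R (7 / 8) with hR | hR
      · exact (pieceA (p := (6343 / 10000)) (F := (50009 / 100000)) h (gA hR) (by norm_num) k3 k4 (by norm_num)
          (Or.inr ⟨by norm_num, by norm_num, by norm_num, by norm_num⟩) (by norm_num)).trans (by norm_num)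
      · exact piecea (c := (10399 / 25000)) (s := (45009 / 100000)) h (ga hR) (by norm_num) (by norm_num) k3 k4 (by norm_num)
          (by norm_num) (by norm_num) (Or.inr (by norm_num)) (by norm_num) (by norm_num)
    exact pos_fin (g := (1029 / 2500)) hτ Tp_pos Tp_lt hS e1 e2 (by norm_num) (by norm_num) k3 k4 h.P0 (by norm_num)
      (hp.trans (by norm_num)) (by norm_num) (by norm_num)
  have hp : P ≤ (3987 / 5000) := by
    rcases le_total R (7 / 8) with hR | hR
    · exact (pieceA (p := (3987 / 5000)) (F := (45607 / 50000)) h (gA hR) (by norm_num) k4 b2 (by norm_num)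
        (Or.inr ⟨by norm_num, by norm_num, by norm_num, by norm_num⟩) (by norm_num)).trans (by norm_num)
    · exact piecea (c := (3231 / 50000)) (s := (56487 / 100000)) h (ga hR) (by norm_num) (by norm_num) k4 b2 (by norm_num)
        (by norm_num) (by norm_num) (Or.inr (by norm_num)) (by norm_num) (by norm_num)
  exact pos_fin (g := (304 / 625)) hτ Tp_pos Tp_lt hS e1 e2 (by norm_num) (by norm_num) k4 b2 h.P0 (by norm_num)
    (hp.trans (by norm_num)) (by norm_num) (by norm_num)

theorem lpb13 (hτ : 0 < τ) (h : SlD τ R (3969 / 10000) b P) (t1 : (31 / 40) ≤ τ ^ 2)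
    (t2 : τ ^ 2 ≤ (4 / 5)) (hR0 : 0 < R) (hR2 : R < π / 2) (hc : cos R ^ 2 ≤ (27 / 50))
    (b1 : (2 / 5) ≤ b) (b2 : b ≤ 1) : lossJ τ b P Tp ≤ (3 / 125) := by
  have hS := sJ_le (S := (5219 / 10000)) hτ Tp_pos Tp_lt cos_Tp t2 (by norm_num) (by norm_num)
  have e1 := eta_ge (κ := (83 / 80)) (η := (3871 / 10000)) hτ Tp_pos Tp_lt cos_Tp (by norm_num) (by norm_num) Tp_le (by norm_num)
    t1 (by linarith) (by norm_num)
  have e2 := eta_le (κ := (1297 / 1250)) (η := (4141 / 10000)) hτ Tp_pos Tp_lt cos_Tp (by norm_num) (by norm_num) le_Tp t2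
    (by norm_num)
  have gA : R ≤ (22 / 25) → RA τ R (22 / 25) (9821 / 10000) (5349 / 10000) (6431 / 5000) (12611 / 10000) := fun hR =>
    RA.of (cl := (31857 / 50000)) hτ hR0 hR (by norm_num) t1 t2 (by norm_num) hc
      (by norm_num) (by norm_num) (by norm_num) (by norm_num) (by norm_num) (by norm_num)
      (by norm_num) (by norm_num) (by norm_num) (by norm_num) (by norm_num) (by norm_num)
  have ga : (22 / 25) ≤ R → Ra τ R (22 / 25) (679 / 1250) (12573 / 10000) := fun hR =>
    Ra.of (cu := (15929 / 25000)) hτ hR hR2 (by norm_num) t1 t2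
      (by norm_num) (by norm_num) (by norm_num) (by norm_num) (by norm_num)
  rcases le_total b (43 / 100) with k1 | k1
  · have hp : P ≤ (4947 / 10000) := by
      rcases le_total R (22 / 25) with hR | hR
      · exact (pieceA (p := (4947 / 10000)) (F := (-333 / 5000)) h (gA hR) (by norm_num) b1 k1 (by norm_num)
          (Or.inl ⟨by norm_num, by norm_num⟩) (by norm_num)).trans (by norm_num)
      · exact piecea (c := (33123 / 50000)) (s := (23571 / 100000)) h (ga hR) (by norm_num) (by norm_num) b1 k1 (by norm_num)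
          (by norm_num) (by norm_num) (Or.inr (by norm_num)) (by norm_num) (by norm_num)
    exact pos_fin (g := (3399 / 10000)) hτ Tp_pos Tp_lt hS e1 e2 (by norm_num) (by norm_num) b1 k1 h.P0 (by norm_num)
      (hp.trans (by norm_num)) (by norm_num) (by norm_num)
  rcases le_total b (49 / 100) with k2 | k2
  · have hp : P ≤ (1297 / 2500) := by
      rcases le_total R (22 / 25) with hR | hR
      · exact (pieceA (p := (1297 / 2500)) (F := (3377 / 100000)) h (gA hR) (by norm_num) k1 k2 (by norm_num)
          (Or.inr ⟨by norm_num, by norm_num, by norm_num, by norm_num⟩) (by norm_num)).trans (by norm_num)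
      · exact piecea (c := (62381 / 100000)) (s := (26933 / 100000)) h (ga hR) (by norm_num) (by norm_num) k1 k2 (by norm_num)
          (by norm_num) (by norm_num) (Or.inr (by norm_num)) (by norm_num) (by norm_num)
    exact pos_fin (g := (881 / 2500)) hτ Tp_pos Tp_lt hS e1 e2 (by norm_num) (by norm_num) k1 k2 h.P0 (by norm_num)
      (hp.trans (by norm_num)) (by norm_num) (by norm_num)
  rcases le_total b (31 / 50) with k3 | k3
  · have hp : P ≤ (2829 / 5000) := by
      rcases le_total R (22 / 25) with hR | hR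
      · exact (pieceA (p := (2829 / 5000)) (F := (22771 / 100000)) h (gA hR) (by norm_num) k2 k3 (by norm_num)
          (Or.inr ⟨by norm_num, by norm_num, by norm_num, by norm_num⟩) (by norm_num)).trans (by norm_num)
      · exact piecea (c := (54283 / 100000)) (s := (429 / 1250)) h (ga hR) (by norm_num) (by norm_num) k2 k3 (by norm_num)
          (by norm_num) (by norm_num) (Or.inr (by norm_num)) (by norm_num) (by norm_num)
    exact pos_fin (g := (1881 / 5000)) hτ Tp_pos Tp_lt hS e1 e2 (by norm_num) (by norm_num) k2 k3 h.P0 (by norm_num)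
      (hp.trans (by norm_num)) (by norm_num) (by norm_num)
  rcases le_total b (22 / 25) with k4 | k4
  · have hp : P ≤ (829 / 1250) := by
      rcases le_total R (22 / 25) with hR | hR
      · exact (pieceA (p := (829 / 1250)) (F := (7491 / 12500)) h (gA hR) (by norm_num) k3 k4 (by norm_num)
          (Or.inr ⟨by norm_num, by norm_num, by norm_num, by norm_num⟩) (by norm_num)).trans (by norm_num)
      · exact piecea (c := (7083 / 20000)) (s := (49647 / 100000)) h (ga hR) (by norm_num) (by norm_num) k3 k4 (by norm_num)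
          (by norm_num) (by norm_num) (Or.inr (by norm_num)) (by norm_num) (by norm_num)
    exact pos_fin (g := (529 / 1250)) hτ Tp_pos Tp_lt hS e1 e2 (by norm_num) (by norm_num) k3 k4 h.P0 (by norm_num)
      (hp.trans (by norm_num)) (by norm_num) (by norm_num)
  have hp : P ≤ (528 / 625) := by
    rcases le_total R (22 / 25) with hR | hR
    · exact (pieceA (p := (528 / 625)) (F := (46151 / 50000)) h (gA hR) (by norm_num) k4 b2 (by norm_num)
        (Or.inr ⟨by norm_num, by norm_num, by norm_num, by norm_num⟩) (by norm_num)).trans (by norm_num)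
    · exact piecea (c := 0) (s := (57039 / 100000)) h (ga hR) (by norm_num) (by norm_num) k4 b2 (by norm_num)
        (by norm_num) (by norm_num) (Or.inl (by norm_num)) (by norm_num) (by norm_num)
  exact pos_fin (g := (2521 / 5000)) hτ Tp_pos Tp_lt hS e1 e2 (by norm_num) (by norm_num) k4 b2 h.P0 (by norm_num)
    (hp.trans (by norm_num)) (by norm_num) (by norm_num)

theorem lpb14 (hτ : 0 < τ) (h : SlD τ R (3969 / 10000) b P) (t1 : (4 / 5) ≤ τ ^ 2)
    (t2 : τ ^ 2 ≤ (17 / 20)) (hR0 : 0 < R) (hR2 : R < π / 2) (hc : cos R ^ 2 ≤ (107 / 200))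
    (b1 : (2 / 5) ≤ b) (b2 : b ≤ 1) : lossJ τ b P Tp ≤ (3 / 125) := by
  have hS := sJ_le (S := (5331 / 10000)) hτ Tp_pos Tp_lt cos_Tp t2 (by norm_num) (by norm_num)
  have e1 := eta_ge (κ := (83 / 80)) (η := (3901 / 10000)) hτ Tp_pos Tp_lt cos_Tp (by norm_num) (by norm_num) Tp_le (by norm_num)
    t1 (by linarith) (by norm_num)
  have e2 := eta_le (κ := (1297 / 1250)) (η := (4231 / 10000)) hτ Tp_pos Tp_lt cos_Tp (by norm_num) (by norm_num) le_Tp t2
    (by norm_num)
  have gA : R ≤ (177 / 200) → RA τ R (177 / 200) (4901 / 5000) (5397 / 10000) (13019 / 10000) (6371 / 5000) := fun hR =>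
    RA.of (cl := (1979 / 3125)) hτ hR0 hR (by norm_num) t1 t2 (by norm_num) hc
      (by norm_num) (by norm_num) (by norm_num) (by norm_num) (by norm_num) (by norm_num)
      (by norm_num) (by norm_num) (by norm_num) (by norm_num) (by norm_num) (by norm_num)
  have ga : (177 / 200) ≤ R → Ra τ R (177 / 200) (2777 / 5000) (12667 / 10000) := fun hR =>
    Ra.of (cu := (63329 / 100000)) hτ hR hR2 (by norm_num) t1 t2
      (by norm_num) (by norm_num) (by norm_num) (by norm_num) (by norm_num)
  rcases le_total b (43 / 100) with k1 | k1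
  · have hp : P ≤ (4923 / 10000) := by
      rcases le_total R (177 / 200) with hR | hR
      · exact (pieceA (p := (4923 / 10000)) (F := (-387 / 5000)) h (gA hR) (by norm_num) b1 k1 (by norm_num)
          (Or.inl ⟨by norm_num, by norm_num⟩) (by norm_num)).trans (by norm_num)
      · exact piecea (c := (16569 / 25000)) (s := (24111 / 100000)) h (ga hR) (by norm_num) (by norm_num) b1 k1 (by norm_num)
          (by norm_num) (by norm_num) (Or.inr (by norm_num)) (by norm_num) (by norm_num)
    exact pos_fin (g := (3363 / 10000)) hτ Tp_pos Tp_lt hS e1 e2 (by norm_num) (by norm_num) b1 k1 h.P0 (by norm_num)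
      (hp.trans (by norm_num)) (by norm_num) (by norm_num)
  rcases le_total b (49 / 100) with k2 | k2
  · have hp : P ≤ (1291 / 2500) := by
      rcases le_total R (177 / 200) with hR | hR
      · exact (pieceA (p := (1291 / 2500)) (F := (1171 / 50000)) h (gA hR) (by norm_num) k1 k2 (by norm_num)
          (Or.inr ⟨by norm_num, by norm_num, by norm_num, by norm_num⟩) (by norm_num)).trans (by norm_num)
      · exact piecea (c := (78 / 125)) (s := (27553 / 100000)) h (ga hR) (by norm_num) (by norm_num) k1 k2 (by norm_num)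
          (by norm_num) (by norm_num) (Or.inr (by norm_num)) (by norm_num) (by norm_num)
    exact pos_fin (g := (3487 / 10000)) hτ Tp_pos Tp_lt hS e1 e2 (by norm_num) (by norm_num) k1 k2 h.P0 (by norm_num)
      (hp.trans (by norm_num)) (by norm_num) (by norm_num)
  rcases le_total b (61 / 100) with k3 | k3
  · have hp : P ≤ (5633 / 10000) := by
      rcases le_total R (177 / 200) with hR | hR
      · exact (pieceA (p := (5633 / 10000)) (F := (21763 / 100000)) h (gA hR) (by norm_num) k2 k3 (by norm_num)
          (Or.inr ⟨by norm_num, by norm_num, by norm_num, by norm_num⟩) (by norm_num)).trans (by norm_num)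
      · exact piecea (c := (54287 / 100000)) (s := (8633 / 25000)) h (ga hR) (by norm_num) (by norm_num) k2 k3 (by norm_num)
          (by norm_num) (by norm_num) (Or.inr (by norm_num)) (by norm_num) (by norm_num)
    exact pos_fin (g := (1861 / 5000)) hτ Tp_pos Tp_lt hS e1 e2 (by norm_num) (by norm_num) k2 k3 h.P0 (by norm_num)
      (hp.trans (by norm_num)) (by norm_num) (by norm_num)
  rcases le_total b (17 / 20) with k4 | k4
  · have hp : P ≤ (1633 / 2500) := by
      rcases le_total R (177 / 200) with hR | hR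
      · exact (pieceA (p := (1633 / 2500)) (F := (56569 / 100000)) h (gA hR) (by norm_num) k3 k4 (by norm_num)
          (Or.inr ⟨by norm_num, by norm_num, by norm_num, by norm_num⟩) (by norm_num)).trans (by norm_num)
      · exact piecea (c := (36883 / 100000)) (s := (48987 / 100000)) h (ga hR) (by norm_num) (by norm_num) k3 k4 (by norm_num)
          (by norm_num) (by norm_num) (Or.inr (by norm_num)) (by norm_num) (by norm_num)
    exact pos_fin (g := (4153 / 10000)) hτ Tp_pos Tp_lt hS e1 e2 (by norm_num) (by norm_num) k3 k4 h.P0 (by norm_num)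
      (hp.trans (by norm_num)) (by norm_num) (by norm_num)
  have hp : P ≤ (4109 / 5000) := by
    rcases le_total R (177 / 200) with hR | hR
    · exact (pieceA (p := (4109 / 5000)) (F := (23081 / 25000)) h (gA hR) (by norm_num) k4 b2 (by norm_num)
        (Or.inr ⟨by norm_num, by norm_num, by norm_num, by norm_num⟩) (by norm_num)).trans (by norm_num)
    · exact piecea (c := 0) (s := (58449 / 100000)) h (ga hR) (by norm_num) (by norm_num) k4 b2 (by norm_num)
        (by norm_num) (by norm_num) (Or.inr (by norm_num)) (by norm_num) (by norm_num)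
  exact pos_fin (g := (4903 / 10000)) hτ Tp_pos Tp_lt hS e1 e2 (by norm_num) (by norm_num) k4 b2 h.P0 (by norm_num)
    (hp.trans (by norm_num)) (by norm_num) (by norm_num)

theorem lpb15 (hτ : 0 < τ) (h : SlD τ R (3969 / 10000) b P) (t1 : (17 / 20) ≤ τ ^ 2)
    (t2 : τ ^ 2 ≤ (9 / 10)) (hR0 : 0 < R) (hR2 : R < π / 2) (hc : cos R ^ 2 ≤ (263 / 500))
    (b1 : (2 / 5) ≤ b) (b2 : b ≤ 1) : lossJ τ b P Tp ≤ (3 / 125) := by
  have hS := sJ_le (S := (5437 / 10000)) hτ Tp_pos Tp_lt cos_Tp t2 (by norm_num) (by norm_num)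
  have e1 := eta_ge (κ := (83 / 80)) (η := (99 / 250)) hτ Tp_pos Tp_lt cos_Tp (by norm_num) (by norm_num) Tp_le (by norm_num)
    t1 (by linarith) (by norm_num)
  have e2 := eta_le (κ := (1297 / 1250)) (η := (54 / 125)) hτ Tp_pos Tp_lt cos_Tp (by norm_num) (by norm_num) le_Tp t2
    (by norm_num)
  have gA : R ≤ (89 / 100) → RA τ R (89 / 100) (9781 / 10000) (5517 / 10000) (13417 / 10000) (2567 / 2000) := fun hR =>
    RA.of (cl := (3147 / 5000)) hτ hR0 hR (by norm_num) t1 t2 (by norm_num) hc
      (by norm_num) (by norm_num) (by norm_num) (by norm_num) (by norm_num) (by norm_num)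
      (by norm_num) (by norm_num) (by norm_num) (by norm_num) (by norm_num) (by norm_num)
  have ga : (89 / 100) ≤ R → Ra τ R (89 / 100) (1417 / 2500) (6379 / 5000) := fun hR =>
    Ra.of (cu := (31471 / 50000)) hτ hR hR2 (by norm_num) t1 t2
      (by norm_num) (by norm_num) (by norm_num) (by norm_num) (by norm_num)
  rcases le_total b (9 / 20) with k1 | k1
  · have hp : P ≤ (2457 / 5000) := by
      rcases le_total R (89 / 100) with hR | hR
      · exact (pieceA (p := (2457 / 5000)) (F := (-213 / 2500)) h (gA hR) (by norm_num) b1 k1 (by norm_num)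
          (Or.inl ⟨by norm_num, by norm_num⟩) (by norm_num)).trans (by norm_num)
      · exact piecea (c := (33097 / 50000)) (s := (3223 / 12500)) h (ga hR) (by norm_num) (by norm_num) b1 k1 (by norm_num)
          (by norm_num) (by norm_num) (Or.inr (by norm_num)) (by norm_num) (by norm_num)
    exact pos_fin (g := (333 / 1000)) hτ Tp_pos Tp_lt hS e1 e2 (by norm_num) (by norm_num) b1 k1 h.P0 (by norm_num)
      (hp.trans (by norm_num)) (by norm_num) (by norm_num)
  rcases le_total b (11 / 20) with k2 | k2
  · have hp : P ≤ (2657 / 5000) := by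
      rcases le_total R (89 / 100) with hR | hR
      · exact (pieceA (p := (2657 / 5000)) (F := (4093 / 50000)) h (gA hR) (by norm_num) k1 k2 (by norm_num)
          (Or.inr ⟨by norm_num, by norm_num, by norm_num, by norm_num⟩) (by norm_num)).trans (by norm_num)
      · exact piecea (c := (59631 / 100000)) (s := (15841 / 50000)) h (ga hR) (by norm_num) (by norm_num) k1 k2 (by norm_num)
          (by norm_num) (by norm_num) (Or.inr (by norm_num)) (by norm_num) (by norm_num)
    exact pos_fin (g := (883 / 2500)) hτ Tp_pos Tp_lt hS e1 e2 (by norm_num) (by norm_num) k1 k2 h.P0 (by norm_num)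
      (hp.trans (by norm_num)) (by norm_num) (by norm_num)
  rcases le_total b (37 / 50) with k3 | k3
  · have hp : P ≤ (6083 / 10000) := by
      rcases le_total R (89 / 100) with hR | hR
      · exact (pieceA (p := (6083 / 10000)) (F := (39479 / 100000)) h (gA hR) (by norm_num) k2 k3 (by norm_num)
          (Or.inr ⟨by norm_num, by norm_num, by norm_num, by norm_num⟩) (by norm_num)).trans (by norm_num)
      · exact piecea (c := (11389 / 25000)) (s := (21593 / 50000)) h (ga hR) (by norm_num) (by norm_num) k2 k3 (by norm_num)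
          (by norm_num) (by norm_num) (Or.inr (by norm_num)) (by norm_num) (by norm_num)
    exact pos_fin (g := (781 / 2000)) hτ Tp_pos Tp_lt hS e1 e2 (by norm_num) (by norm_num) k2 k3 h.P0 (by norm_num)
      (hp.trans (by norm_num)) (by norm_num) (by norm_num)
  have hp : P ≤ (373 / 500) := by
    rcases le_total R (89 / 100) with hR | hR
    · exact (pieceA (p := (373 / 500)) (F := (41447 / 50000)) h (gA hR) (by norm_num) k3 b2 (by norm_num)
        (Or.inr ⟨by norm_num, by norm_num, by norm_num, by norm_num⟩) (by norm_num)).trans (by norm_num)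
    · exact piecea (c := (3309 / 20000)) (s := (29887 / 50000)) h (ga hR) (by norm_num) (by norm_num) k3 b2 (by norm_num)
        (by norm_num) (by norm_num) (Or.inr (by norm_num)) (by norm_num) (by norm_num)
  exact pos_fin (g := (453 / 1000)) hτ Tp_pos Tp_lt hS e1 e2 (by norm_num) (by norm_num) k3 b2 h.P0 (by norm_num)
    (hp.trans (by norm_num)) (by norm_num) (by norm_num)

theorem lpb16 (hτ : 0 < τ) (h : SlD τ R (3969 / 10000) b P) (t1 : (9 / 10) ≤ τ ^ 2)
    (t2 : τ ^ 2 ≤ 1) (hR0 : 0 < R) (hR2 : R < π / 2) (hc : cos R ^ 2 ≤ (259 / 500))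
    (b1 : (2 / 5) ≤ b) (b2 : b ≤ 1) : lossJ τ b P Tp ≤ (3 / 125) := by
  have hS := sJ_le (S := (352 / 625)) hτ Tp_pos Tp_lt cos_Tp t2 (by norm_num) (by norm_num)
  have e1 := eta_ge (κ := (83 / 80)) (η := (4017 / 10000)) hτ Tp_pos Tp_lt cos_Tp (by norm_num) (by norm_num) Tp_le (by norm_num)
    t1 (by linarith) (by norm_num)
  have e2 := eta_le (κ := (1297 / 1250)) (η := (9 / 20)) hτ Tp_pos Tp_lt cos_Tp (by norm_num) (by norm_num) le_Tp t2
    (by norm_num)
  have gA : R ≤ (181 / 200) → RA τ R (181 / 200) (1943 / 2000) (2783 / 5000) (13583 / 10000) (1327 / 1000) := fun hR =>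
    RA.of (cl := (61767 / 100000)) hτ hR0 hR (by norm_num) t1 t2 (by norm_num) hc
      (by norm_num) (by norm_num) (by norm_num) (by norm_num) (by norm_num) (by norm_num)
      (by norm_num) (by norm_num) (by norm_num) (by norm_num) (by norm_num) (by norm_num)
  have ga : (181 / 200) ≤ R → Ra τ R (181 / 200) (1169 / 2000) (819 / 625) := fun hR =>
    Ra.of (cu := (61769 / 100000)) hτ hR hR2 (by norm_num) t1 t2
      (by norm_num) (by norm_num) (by norm_num) (by norm_num) (by norm_num)
  rcases le_total b (43 / 100) with k1 | k1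
  · have hp : P ≤ (2439 / 5000) := by
      rcases le_total R (181 / 200) with hR | hR
      · exact (pieceA (p := (2439 / 5000)) (F := (-69 / 625)) h (gA hR) (by norm_num) b1 k1 (by norm_num)
          (Or.inl ⟨by norm_num, by norm_num⟩) (by norm_num)).trans (by norm_num)
      · exact piecea (c := (33007 / 50000)) (s := (127 / 500)) h (ga hR) (by norm_num) (by norm_num) b1 k1 (by norm_num)
          (by norm_num) (by norm_num) (Or.inr (by norm_num)) (by norm_num) (by norm_num)
    exact pos_fin (g := (409 / 1250)) hτ Tp_pos Tp_lt hS e1 e2 (by norm_num) (by norm_num) b1 k1 h.P0 (by norm_num)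
      (hp.trans (by norm_num)) (by norm_num) (by norm_num)
  rcases le_total b (49 / 100) with k2 | k2
  · have hp : P ≤ (64 / 125) := by
      rcases le_total R (181 / 200) with hR | hR
      · exact (pieceA (p := (64 / 125)) (F := (-77 / 10000)) h (gA hR) (by norm_num) k1 k2 (by norm_num)
          (Or.inl ⟨by norm_num, by norm_num⟩) (by norm_num)).trans (by norm_num)
      · exact piecea (c := (62071 / 100000)) (s := (14517 / 50000)) h (ga hR) (by norm_num) (by norm_num) k1 k2 (by norm_num)
          (by norm_num) (by norm_num) (Or.inr (by norm_num)) (by norm_num) (by norm_num)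
    exact pos_fin (g := (3393 / 10000)) hτ Tp_pos Tp_lt hS e1 e2 (by norm_num) (by norm_num) k1 k2 h.P0 (by norm_num)
      (hp.trans (by norm_num)) (by norm_num) (by norm_num)
  rcases le_total b (3 / 5) with k3 | k3
  · have hp : P ≤ (559 / 1000) := by
      rcases le_total R (181 / 200) with hR | hR
      · exact (pieceA (p := (559 / 1000)) (F := (9407 / 50000)) h (gA hR) (by norm_num) k2 k3 (by norm_num)
          (Or.inr ⟨by norm_num, by norm_num, by norm_num, by norm_num⟩) (by norm_num)).trans (by norm_num)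
      · exact piecea (c := (1682 / 3125)) (s := (7159 / 20000)) h (ga hR) (by norm_num) (by norm_num) k2 k3 (by norm_num)
          (by norm_num) (by norm_num) (Or.inr (by norm_num)) (by norm_num) (by norm_num)
    exact pos_fin (g := (1811 / 5000)) hτ Tp_pos Tp_lt hS e1 e2 (by norm_num) (by norm_num) k2 k3 h.P0 (by norm_num)
      (hp.trans (by norm_num)) (by norm_num) (by norm_num)
  rcases le_total b (81 / 100) with k4 | k4
  · have hp : P ≤ (3209 / 5000) := by
      rcases le_total R (181 / 200) with hR | hR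
      · exact (pieceA (p := (3209 / 5000)) (F := (51527 / 100000)) h (gA hR) (by norm_num) k3 k4 (by norm_num)
          (Or.inr ⟨by norm_num, by norm_num, by norm_num, by norm_num⟩) (by norm_num)).trans (by norm_num)
      · exact piecea (c := (37649 / 100000)) (s := (24569 / 50000)) h (ga hR) (by norm_num) (by norm_num) k3 k4 (by norm_num)
          (by norm_num) (by norm_num) (Or.inr (by norm_num)) (by norm_num) (by norm_num)
    exact pos_fin (g := (501 / 1250)) hτ Tp_pos Tp_lt hS e1 e2 (by norm_num) (by norm_num) k3 k4 h.P0 (by norm_num)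
      (hp.trans (by norm_num)) (by norm_num) (by norm_num)
  have hp : P ≤ (7909 / 10000) := by
    rcases le_total R (181 / 200) with hR | hR
    · exact (pieceA (p := (7909 / 10000)) (F := (89547 / 100000)) h (gA hR) (by norm_num) k4 b2 (by norm_num)
        (Or.inr ⟨by norm_num, by norm_num, by norm_num, by norm_num⟩) (by norm_num)).trans (by norm_num)
    · exact piecea (c := (937 / 20000)) (s := (61847 / 100000)) h (ga hR) (by norm_num) (by norm_num) k4 b2 (by norm_num)
        (by norm_num) (by norm_num) (Or.inr (by norm_num)) (by norm_num) (by norm_num)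
  exact pos_fin (g := (291 / 625)) hτ Tp_pos Tp_lt hS e1 e2 (by norm_num) (by norm_num) k4 b2 h.P0 (by norm_num)
    (hp.trans (by norm_num)) (by norm_num) (by norm_num)

end Pool.Agent.S3.Ls
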