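import Pool.Agent.S3.Ls.Tp

/-!
# Bounds of the loss of an inner vertex of multiplicity two: -P at Tn (generated)
-/

set_option autoImplicit false

namespace Pool.Agent.S3.Ls

open Real

variable {τ R b P : ℝ}

theorem lna0 (hτ : 0 < τ) (h : SlD τ R (3969 / 10000) b P) (t1 : 0 ≤ τ ^ 2)
    (t2 : τ ^ 2 ≤ (1 / 5)) (hR0 : 0 < R) (hR2 : R < π / 2) (hc : cos R ^ 2 ≤ (667 / 1000))
    (b1 : (2 / 5) ≤ b) (b2 : b ≤ 1) : lossJ τ (2 - b) (-P) Tn ≤ (3 / 125) := by
  have hS := sJ_le (S := (1691 / 5000)) hτ Tn_pos Tn_lt cos_Tn t2 (by norm_num) (by norm_num)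
  have e2 := eta_ge (κ := (3951 / 5000)) (η := (-1119 / 10000)) hτ Tn_pos Tn_lt cos_Tn (by norm_num) (by norm_num) Tn_le (by norm_num)
    t1 (by linarith) (by norm_num)
  have e1 := eta_le (κ := (7903 / 10000)) (η := (-457 / 5000)) hτ Tn_pos Tn_lt cos_Tn (by norm_num) (by norm_num) le_Tn t2
    (by norm_num)
  have gA : R ≤ (153 / 200) → RA τ R (153 / 200) (377 / 400) 0 0 (2337 / 2500) := fun hR =>
    RA.of (cl := (72137 / 100000)) hτ hR0 hR (by norm_num) t1 t2 (by norm_num) hc
      (by norm_num) (by norm_num) (by norm_num) (by norm_num) (by norm_num) (by norm_num)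
      (by norm_num) (by norm_num) (by norm_num) (by norm_num) (by norm_num) (by norm_num)
  have ga : (153 / 200) ≤ R → Ra τ R (153 / 200) (3173 / 10000) (1843 / 2000) := fun hR =>
    Ra.of (cu := (72139 / 100000)) hτ hR hR2 (by norm_num) t1 t2
      (by norm_num) (by norm_num) (by norm_num) (by norm_num) (by norm_num)
  rcases le_total b (47 / 50) with k1 | k1
  · have hp : P ≤ (3921 / 5000) := by
      rcases le_total R (153 / 200) with hR | hR
      · exact (pieceA (p := (3921 / 5000)) (F := (28489 / 50000)) h (gA hR) (by norm_num) b1 k1 (by norm_num)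
          (Or.inr ⟨by norm_num, by norm_num, by norm_num, by norm_num⟩) (by norm_num)).trans (by norm_num)
      · exact piecea (c := (46231 / 100000)) (s := (30271 / 100000)) h (ga hR) (by norm_num) (by norm_num) b1 k1 (by norm_num)
          (by norm_num) (by norm_num) (Or.inr (by norm_num)) (by norm_num) (by norm_num)
    exact neg_fin (g := (3437 / 5000)) hτ Tn_pos Tn_lt hS (by linarith) (by linarith) (show (0:ℝ) ≤ (457 / 5000) by norm_num) (by norm_num)
      b1 k1 h.P0 (by norm_num) (hp.trans (by norm_num)) (by norm_num) (show _ * _ * ((1119 / 10000) : ℝ) ^ 2 ≤ _ by norm_num)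
  have hp : P ≤ (7591 / 10000) := by
    rcases le_total R (153 / 200) with hR | hR
    · exact (pieceA (p := (7591 / 10000)) (F := (8883 / 10000)) h (gA hR) (by norm_num) k1 b2 (by norm_num)
        (Or.inr ⟨by norm_num, by norm_num, by norm_num, by norm_num⟩) (by norm_num)).trans (by norm_num)
    · exact piecea (c := (289 / 3125)) (s := (16133 / 50000)) h (ga hR) (by norm_num) (by norm_num) k1 b2 (by norm_num)
        (by norm_num) (by norm_num) (Or.inr (by norm_num)) (by norm_num) (by norm_num)
  exact neg_fin (g := (6677 / 10000)) hτ Tn_pos Tn_lt hS (by linarith) (by linarith) (show (0:ℝ) ≤ (457 / 5000) by norm_num) (by norm_num)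
    k1 b2 h.P0 (by norm_num) (hp.trans (by norm_num)) (by norm_num) (show _ * _ * ((1119 / 10000) : ℝ) ^ 2 ≤ _ by norm_num)

theorem lna1 (hτ : 0 < τ) (h : SlD τ R (3969 / 10000) b P) (t1 : (1 / 5) ≤ τ ^ 2)
    (t2 : τ ^ 2 ≤ (7 / 20)) (hR0 : 0 < R) (hR2 : R < π / 2) (hc : cos R ^ 2 ≤ (161 / 250))
    (b1 : (2 / 5) ≤ b) (b2 : b ≤ 1) : lossJ τ (2 - b) (-P) Tn ≤ (3 / 125) := by
  have hS := sJ_le (S := (2179 / 5000)) hτ Tn_pos Tn_lt cos_Tn t2 (by norm_num) (by norm_num)
  have e2 := eta_ge (κ := (3951 / 5000)) (η := (-923 / 10000)) hτ Tn_pos Tn_lt cos_Tn (by norm_num) (by norm_num) Tn_le (by norm_num)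
    t1 (by linarith) (by norm_num)
  have e1 := eta_le (κ := (7903 / 10000)) (η := (-381 / 5000)) hτ Tn_pos Tn_lt cos_Tn (by norm_num) (by norm_num) le_Tn t2
    (by norm_num)
  have gA : R ≤ (159 / 200) → RA τ R (159 / 200) (1197 / 1250) (1541 / 5000) (6563 / 10000) (10327 / 10000) := fun hR =>
    RA.of (cl := (17507 / 25000)) hτ hR0 hR (by norm_num) t1 t2 (by norm_num) hc
      (by norm_num) (by norm_num) (by norm_num) (by norm_num) (by norm_num) (by norm_num)
      (by norm_num) (by norm_num) (by norm_num) (by norm_num) (by norm_num) (by norm_num)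
  have ga : (159 / 200) ≤ R → Ra τ R (159 / 200) (2017 / 5000) (10289 / 10000) := fun hR =>
    Ra.of (cu := (70029 / 100000)) hτ hR hR2 (by norm_num) t1 t2
      (by norm_num) (by norm_num) (by norm_num) (by norm_num) (by norm_num)
  rcases le_total b (18 / 25) with k1 | k1
  · have hp : P ≤ (763 / 1000) := by
      rcases le_total R (159 / 200) with hR | hR
      · exact (pieceA (p := (763 / 1000)) (F := (51787 / 100000)) h (gA hR) (by norm_num) b1 k1 (by norm_num)
          (Or.inr ⟨by norm_num, by norm_num, by norm_num, by norm_num⟩) (by norm_num)).trans (by norm_num)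
      · exact piecea (c := (9409 / 20000)) (s := (1841 / 6250)) h (ga hR) (by norm_num) (by norm_num) b1 k1 (by norm_num)
          (by norm_num) (by norm_num) (Or.inr (by norm_num)) (by norm_num) (by norm_num)
    exact neg_fin (g := (1331 / 2000)) hτ Tn_pos Tn_lt hS (by linarith) (by linarith) (show (0:ℝ) ≤ (381 / 5000) by norm_num) (by norm_num)
      b1 k1 h.P0 (by norm_num) (hp.trans (by norm_num)) (by norm_num) (show _ * _ * ((923 / 10000) : ℝ) ^ 2 ≤ _ by norm_num)
  have hp : P ≤ (1661 / 2500) := by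
    rcases le_total R (159 / 200) with hR | hR
    · exact (pieceA (p := (1661 / 2500)) (F := (73603 / 100000)) h (gA hR) (by norm_num) k1 b2 (by norm_num)
        (Or.inr ⟨by norm_num, by norm_num, by norm_num, by norm_num⟩) (by norm_num)).trans (by norm_num)
    · exact piecea (c := (32783 / 100000)) (s := (8289 / 20000)) h (ga hR) (by norm_num) (by norm_num) k1 b2 (by norm_num)
        (by norm_num) (by norm_num) (Or.inr (by norm_num)) (by norm_num) (by norm_num)
  exact neg_fin (g := (2941 / 5000)) hτ Tn_pos Tn_lt hS (by linarith) (by linarith) (show (0:ℝ) ≤ (381 / 5000) by norm_num) (by norm_num)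
    k1 b2 h.P0 (by norm_num) (hp.trans (by norm_num)) (by norm_num) (show _ * _ * ((923 / 10000) : ℝ) ^ 2 ≤ _ by norm_num)

theorem lna2 (hτ : 0 < τ) (h : SlD τ R (3969 / 10000) b P) (t1 : (7 / 20) ≤ τ ^ 2)
    (t2 : τ ^ 2 ≤ (1 / 2)) (hR0 : 0 < R) (hR2 : R < π / 2) (hc : cos R ^ 2 ≤ (619 / 1000))
    (b1 : (2 / 5) ≤ b) (b2 : b ≤ 1) : lossJ τ (2 - b) (-P) Tn ≤ (3 / 125) := by
  have hS := sJ_le (S := (2541 / 5000)) hτ Tn_pos Tn_lt cos_Tn t2 (by norm_num) (by norm_num)
  have e2 := eta_ge (κ := (3951 / 5000)) (η := (-49 / 625)) hτ Tn_pos Tn_lt cos_Tn (by norm_num) (by norm_num) Tn_le (by norm_num)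
    t1 (by linarith) (by norm_num)
  have e1 := eta_le (κ := (7903 / 10000)) (η := (-61 / 1000)) hτ Tn_pos Tn_lt cos_Tn (by norm_num) (by norm_num) le_Tn t2
    (by norm_num)
  have gA : R ≤ (159 / 200) → RA τ R (159 / 200) (607 / 625) (252 / 625) (1121 / 1250) (10291 / 10000) := fun hR =>
    RA.of (cl := (17507 / 25000)) hτ hR0 hR (by norm_num) t1 t2 (by norm_num) hc
      (by norm_num) (by norm_num) (by norm_num) (by norm_num) (by norm_num) (by norm_num)
      (by norm_num) (by norm_num) (by norm_num) (by norm_num) (by norm_num) (by norm_num)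
  have ga : (159 / 200) ≤ R → Ra τ R (159 / 200) (4771 / 10000) (513 / 500) := fun hR =>
    Ra.of (cu := (70029 / 100000)) hτ hR hR2 (by norm_num) t1 t2
      (by norm_num) (by norm_num) (by norm_num) (by norm_num) (by norm_num)
  rcases le_total b (71 / 100) with k1 | k1
  · have hp : P ≤ (1743 / 2500) := by
      rcases le_total R (159 / 200) with hR | hR
      · exact (pieceA (p := (1743 / 2500)) (F := (41389 / 100000)) h (gA hR) (by norm_num) b1 k1 (by norm_num)
          (Or.inr ⟨by norm_num, by norm_num, by norm_num, by norm_num⟩) (by norm_num)).trans (by norm_num)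
      · exact piecea (c := (26373 / 50000)) (s := (34527 / 100000)) h (ga hR) (by norm_num) (by norm_num) b1 k1 (by norm_num)
          (by norm_num) (by norm_num) (Or.inr (by norm_num)) (by norm_num) (by norm_num)
    exact neg_fin (g := (3093 / 5000)) hτ Tn_pos Tn_lt hS (by linarith) (by linarith) (show (0:ℝ) ≤ (61 / 1000) by norm_num) (by norm_num)
      b1 k1 h.P0 (by norm_num) (hp.trans (by norm_num)) (by norm_num) (show _ * _ * ((49 / 625) : ℝ) ^ 2 ≤ _ by norm_num)
  have hp : P ≤ (6057 / 10000) := by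
    rcases le_total R (159 / 200) with hR | hR
    · exact (pieceA (p := (6057 / 10000)) (F := (4127 / 6250)) h (gA hR) (by norm_num) k1 b2 (by norm_num)
        (Or.inr ⟨by norm_num, by norm_num, by norm_num, by norm_num⟩) (by norm_num)).trans (by norm_num)
    · exact piecea (c := (19501 / 50000)) (s := (9909 / 20000)) h (ga hR) (by norm_num) (by norm_num) k1 b2 (by norm_num)
        (by norm_num) (by norm_num) (Or.inr (by norm_num)) (by norm_num) (by norm_num)
  exact neg_fin (g := (5447 / 10000)) hτ Tn_pos Tn_lt hS (by linarith) (by linarith) (show (0:ℝ) ≤ (61 / 1000) by norm_num) (by norm_num)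
    k1 b2 h.P0 (by norm_num) (hp.trans (by norm_num)) (by norm_num) (show _ * _ * ((49 / 625) : ℝ) ^ 2 ≤ _ by norm_num)

theorem lna3 (hτ : 0 < τ) (h : SlD τ R (3969 / 10000) b P) (t1 : (1 / 2) ≤ τ ^ 2)
    (t2 : τ ^ 2 ≤ (3 / 5)) (hR0 : 0 < R) (hR2 : R < π / 2) (hc : cos R ^ 2 ≤ (591 / 1000))
    (b1 : (2 / 5) ≤ b) (b2 : b ≤ 1) : lossJ τ (2 - b) (-P) Tn ≤ (41 / 2000) := by
  have hS := sJ_le (S := (5479 / 10000)) hτ Tn_pos Tn_lt cos_Tn t2 (by norm_num) (by norm_num)
  have e2 := eta_ge (κ := (3951 / 5000)) (η := (-163 / 2500)) hτ Tn_pos Tn_lt cos_Tn (by norm_num) (by norm_num) Tn_le (by norm_num)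
    t1 (by linarith) (by norm_num)
  have e1 := eta_le (κ := (7903 / 10000)) (η := (-509 / 10000)) hτ Tn_pos Tn_lt cos_Tn (by norm_num) (by norm_num) le_Tn t2
    (by norm_num)
  have gA : R ≤ (33 / 40) → RA τ R (33 / 40) (1229 / 1250) (463 / 1000) (10643 / 10000) (5573 / 5000) := fun hR =>
    RA.of (cl := (13571 / 20000)) hτ hR0 hR (by norm_num) t1 t2 (by norm_num) hc
      (by norm_num) (by norm_num) (by norm_num) (by norm_num) (by norm_num) (by norm_num)
      (by norm_num) (by norm_num) (by norm_num) (by norm_num) (by norm_num) (by norm_num)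
  have ga : (33 / 40) ≤ R → Ra τ R (33 / 40) (5043 / 10000) (11073 / 10000) := fun hR =>
    Ra.of (cu := (4241 / 6250)) hτ hR hR2 (by norm_num) t1 t2
      (by norm_num) (by norm_num) (by norm_num) (by norm_num) (by norm_num)
  rcases le_total b (61 / 100) with k1 | k1
  · have hp : P ≤ (6423 / 10000) := by
      rcases le_total R (33 / 40) with hR | hR
      · exact (pieceA (p := (6423 / 10000)) (F := (14273 / 50000)) h (gA hR) (by norm_num) b1 k1 (by norm_num)
          (Or.inr ⟨by norm_num, by norm_num, by norm_num, by norm_num⟩) (by norm_num)).trans (by norm_num)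
      · exact piecea (c := (56341 / 100000)) (s := (31251 / 100000)) h (ga hR) (by norm_num) (by norm_num) b1 k1 (by norm_num)
          (by norm_num) (by norm_num) (Or.inr (by norm_num)) (by norm_num) (by norm_num)
    exact neg_fin (g := (1429 / 2500)) hτ Tn_pos Tn_lt hS (by linarith) (by linarith) (show (0:ℝ) ≤ (509 / 10000) by norm_num) (by norm_num)
      b1 k1 h.P0 (by norm_num) (hp.trans (by norm_num)) (by norm_num) (show _ * _ * ((163 / 2500) : ℝ) ^ 2 ≤ _ by norm_num)
  rcases le_total b (41 / 50) with k2 | k2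
  · have hp : P ≤ (2933 / 5000) := by
      rcases le_total R (33 / 40) with hR | hR
      · exact (pieceA (p := (2933 / 5000)) (F := (12411 / 25000)) h (gA hR) (by norm_num) k1 k2 (by norm_num)
          (Or.inr ⟨by norm_num, by norm_num, by norm_num, by norm_num⟩) (by norm_num)).trans (by norm_num)
      · exact piecea (c := (23131 / 50000)) (s := (2659 / 6250)) h (ga hR) (by norm_num) (by norm_num) k1 k2 (by norm_num)
          (by norm_num) (by norm_num) (Or.inr (by norm_num)) (by norm_num) (by norm_num)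
    exact neg_fin (g := (2633 / 5000)) hτ Tn_pos Tn_lt hS (by linarith) (by linarith) (show (0:ℝ) ≤ (509 / 10000) by norm_num) (by norm_num)
      k1 k2 h.P0 (by norm_num) (hp.trans (by norm_num)) (by norm_num) (show _ * _ * ((163 / 2500) : ℝ) ^ 2 ≤ _ by norm_num)
  have hp : P ≤ (5357 / 10000) := by
    rcases le_total R (33 / 40) with hR | hR
    · exact (pieceA (p := (5357 / 10000)) (F := (4283 / 6250)) h (gA hR) (by norm_num) k2 b2 (by norm_num)
        (Or.inr ⟨by norm_num, by norm_num, by norm_num, by norm_num⟩) (by norm_num)).trans (by norm_num)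
    · exact piecea (c := (35097 / 100000)) (s := (52601 / 100000)) h (ga hR) (by norm_num) (by norm_num) k2 b2 (by norm_num)
        (by norm_num) (by norm_num) (Or.inr (by norm_num)) (by norm_num) (by norm_num)
  exact neg_fin (g := (303 / 625)) hτ Tn_pos Tn_lt hS (by linarith) (by linarith) (show (0:ℝ) ≤ (509 / 10000) by norm_num) (by norm_num)
    k2 b2 h.P0 (by norm_num) (hp.trans (by norm_num)) (by norm_num) (show _ * _ * ((163 / 2500) : ℝ) ^ 2 ≤ _ by norm_num)

theorem lna4 (hτ : 0 < τ) (h : SlD τ R (3969 / 10000) b P) (t1 : (3 / 5) ≤ τ ^ 2)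
    (t2 : τ ^ 2 ≤ (13 / 20)) (hR0 : 0 < R) (hR2 : R < π / 2) (hc : cos R ^ 2 ≤ (143 / 250))
    (b1 : (2 / 5) ≤ b) (b2 : b ≤ 1) : lossJ τ (2 - b) (-P) Tn ≤ (19 / 1000) := by
  have hS := sJ_le (S := (5659 / 10000)) hτ Tn_pos Tn_lt cos_Tn t2 (by norm_num) (by norm_num)
  have e2 := eta_ge (κ := (3951 / 5000)) (η := (-71 / 1250)) hτ Tn_pos Tn_lt cos_Tn (by norm_num) (by norm_num) Tn_le (by norm_num)
    t1 (by linarith) (by norm_num)
  have e1 := eta_le (κ := (7903 / 10000)) (η := (-229 / 5000)) hτ Tn_pos Tn_lt cos_Tn (by norm_num) (by norm_num) le_Tn t2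
    (by norm_num)
  have gA : R ≤ (21 / 25) → RA τ R (21 / 25) (1979 / 2000) (4963 / 10000) (291 / 250) (1153 / 1000) := fun hR =>
    RA.of (cl := (13349 / 20000)) hτ hR0 hR (by norm_num) t1 t2 (by norm_num) hc
      (by norm_num) (by norm_num) (by norm_num) (by norm_num) (by norm_num) (by norm_num)
      (by norm_num) (by norm_num) (by norm_num) (by norm_num) (by norm_num) (by norm_num)
  have ga : (21 / 25) ≤ R → Ra τ R (21 / 25) (2577 / 5000) (5741 / 5000) := fun hR =>
    Ra.of (cu := (66747 / 100000)) hτ hR hR2 (by norm_num) t1 t2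
      (by norm_num) (by norm_num) (by norm_num) (by norm_num) (by norm_num)
  rcases le_total b (29 / 50) with k1 | k1
  · have hp : P ≤ (6123 / 10000) := by
      rcases le_total R (21 / 25) with hR | hR
      · exact (pieceA (p := (6123 / 10000)) (F := (1329 / 6250)) h (gA hR) (by norm_num) b1 k1 (by norm_num)
          (Or.inr ⟨by norm_num, by norm_num, by norm_num, by norm_num⟩) (by norm_num)).trans (by norm_num)
      · exact piecea (c := (58307 / 100000)) (s := (30341 / 100000)) h (ga hR) (by norm_num) (by norm_num) b1 k1 (by norm_num)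
          (by norm_num) (by norm_num) (Or.inr (by norm_num)) (by norm_num) (by norm_num)
    exact neg_fin (g := (5473 / 10000)) hτ Tn_pos Tn_lt hS (by linarith) (by linarith) (show (0:ℝ) ≤ (229 / 5000) by norm_num) (by norm_num)
      b1 k1 h.P0 (by norm_num) (hp.trans (by norm_num)) (by norm_num) (show _ * _ * ((71 / 1250) : ℝ) ^ 2 ≤ _ by norm_num)
  rcases le_total b (3 / 4) with k2 | k2
  · have hp : P ≤ (5707 / 10000) := by
      rcases le_total R (21 / 25) with hR | hR
      · exact (pieceA (p := (5707 / 10000)) (F := (41757 / 100000)) h (gA hR) (by norm_num) k1 k2 (by norm_num)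
          (Or.inr ⟨by norm_num, by norm_num, by norm_num, by norm_num⟩) (by norm_num)).trans (by norm_num)
      · exact piecea (c := (49071 / 100000)) (s := (39627 / 100000)) h (ga hR) (by norm_num) (by norm_num) k1 k2 (by norm_num)
          (by norm_num) (by norm_num) (Or.inr (by norm_num)) (by norm_num) (by norm_num)
    exact neg_fin (g := (1027 / 2000)) hτ Tn_pos Tn_lt hS (by linarith) (by linarith) (show (0:ℝ) ≤ (229 / 5000) by norm_num) (by norm_num)
      k1 k2 h.P0 (by norm_num) (hp.trans (by norm_num)) (by norm_num) (show _ * _ * ((71 / 1250) : ℝ) ^ 2 ≤ _ by norm_num)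
  rcases le_total b (9 / 10) with k3 | k3
  · have hp : P ≤ (133 / 250) := by
      rcases le_total R (21 / 25) with hR | hR
      · exact (pieceA (p := (133 / 250)) (F := (59319 / 100000)) h (gA hR) (by norm_num) k2 k3 (by norm_num)
          (Or.inr ⟨by norm_num, by norm_num, by norm_num, by norm_num⟩) (by norm_num)).trans (by norm_num)
      · exact piecea (c := (39751 / 100000)) (s := (48071 / 100000)) h (ga hR) (by norm_num) (by norm_num) k2 k3 (by norm_num)
          (by norm_num) (by norm_num) (Or.inr (by norm_num)) (by norm_num) (by norm_num)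
    exact neg_fin (g := (4817 / 10000)) hτ Tn_pos Tn_lt hS (by linarith) (by linarith) (show (0:ℝ) ≤ (229 / 5000) by norm_num) (by norm_num)
      k2 k3 h.P0 (by norm_num) (hp.trans (by norm_num)) (by norm_num) (show _ * _ * ((71 / 1250) : ℝ) ^ 2 ≤ _ by norm_num)
  have hp : P ≤ (101 / 200) := by
    rcases le_total R (21 / 25) with hR | hR
    · exact (pieceA (p := (101 / 200)) (F := (73471 / 100000)) h (gA hR) (by norm_num) k3 b2 (by norm_num)
        (Or.inr ⟨by norm_num, by norm_num, by norm_num, by norm_num⟩) (by norm_num)).trans (by norm_num)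
    · exact piecea (c := (30487 / 100000)) (s := (53859 / 100000)) h (ga hR) (by norm_num) (by norm_num) k3 b2 (by norm_num)
        (by norm_num) (by norm_num) (Or.inr (by norm_num)) (by norm_num) (by norm_num)
  exact neg_fin (g := (287 / 625)) hτ Tn_pos Tn_lt hS (by linarith) (by linarith) (show (0:ℝ) ≤ (229 / 5000) by norm_num) (by norm_num)
    k3 b2 h.P0 (by norm_num) (hp.trans (by norm_num)) (by norm_num) (show _ * _ * ((71 / 1250) : ℝ) ^ 2 ≤ _ by norm_num)

theorem lna5 (hτ : 0 < τ) (h : SlD τ R (3969 / 10000) b P) (t1 : (13 / 20) ≤ τ ^ 2)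
    (t2 : τ ^ 2 ≤ (4 / 5)) (hR0 : 0 < R) (hR2 : R < π / 2) (hc : cos R ^ 2 ≤ (563 / 1000))
    (b1 : (2 / 5) ≤ b) (b2 : b ≤ 1) : lossJ τ (2 - b) (-P) Tn ≤ (7 / 250) := by
  have hS := sJ_le (S := (3069 / 5000)) hτ Tn_pos Tn_lt cos_Tn t2 (by norm_num) (by norm_num)
  have e2 := eta_ge (κ := (3951 / 5000)) (η := (-527 / 10000)) hτ Tn_pos Tn_lt cos_Tn (by norm_num) (by norm_num) Tn_le (by norm_num)
    t1 (by linarith) (by norm_num)
  have e1 := eta_le (κ := (7903 / 10000)) (η := (-153 / 5000)) hτ Tn_pos Tn_lt cos_Tn (by norm_num) (by norm_num) le_Tn t2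
    (by norm_num)
  have gA : R ≤ (17 / 20) → RA τ R (17 / 20) (2479 / 2500) (637 / 1250) (6027 / 5000) (5897 / 5000) := fun hR =>
    RA.of (cl := (65997 / 100000)) hτ hR0 hR (by norm_num) t1 t2 (by norm_num) hc
      (by norm_num) (by norm_num) (by norm_num) (by norm_num) (by norm_num) (by norm_num)
      (by norm_num) (by norm_num) (by norm_num) (by norm_num) (by norm_num) (by norm_num)
  have ga : (17 / 20) ≤ R → Ra τ R (17 / 20) (561 / 1000) (11643 / 10000) := fun hR =>
    Ra.of (cu := (65999 / 100000)) hτ hR hR2 (by norm_num) t1 t2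
      (by norm_num) (by norm_num) (by norm_num) (by norm_num) (by norm_num)
  rcases le_total b (33 / 50) with k1 | k1
  · have hp : P ≤ (6607 / 10000) := by
      rcases le_total R (17 / 20) with hR | hR
      · exact (pieceA (p := (6607 / 10000)) (F := (14717 / 50000)) h (gA hR) (by norm_num) b1 k1 (by norm_num)
          (Or.inr ⟨by norm_num, by norm_num, by norm_num, by norm_num⟩) (by norm_num)).trans (by norm_num)
      · exact piecea (c := (13493 / 25000)) (s := (37879 / 100000)) h (ga hR) (by norm_num) (by norm_num) b1 k1 (by norm_num)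
          (by norm_num) (by norm_num) (Or.inr (by norm_num)) (by norm_num) (by norm_num)
    exact neg_fin (g := (6197 / 10000)) hτ Tn_pos Tn_lt hS (by linarith) (by linarith) (show (0:ℝ) ≤ (153 / 5000) by norm_num) (by norm_num)
      b1 k1 h.P0 (by norm_num) (hp.trans (by norm_num)) (by norm_num) (show _ * _ * ((527 / 10000) : ℝ) ^ 2 ≤ _ by norm_num)
  rcases le_total b (22 / 25) with k2 | k2
  · have hp : P ≤ (6007 / 10000) := by
      rcases le_total R (17 / 20) with hR | hR
      · exact (pieceA (p := (6007 / 10000)) (F := (14453 / 25000)) h (gA hR) (by norm_num) k1 k2 (by norm_num)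
          (Or.inr ⟨by norm_num, by norm_num, by norm_num, by norm_num⟩) (by norm_num)).trans (by norm_num)
      · exact piecea (c := (39779 / 100000)) (s := (51403 / 100000)) h (ga hR) (by norm_num) (by norm_num) k1 k2 (by norm_num)
          (by norm_num) (by norm_num) (Or.inr (by norm_num)) (by norm_num) (by norm_num)
    exact neg_fin (g := (1133 / 2000)) hτ Tn_pos Tn_lt hS (by linarith) (by linarith) (show (0:ℝ) ≤ (153 / 5000) by norm_num) (by norm_num)
      k1 k2 h.P0 (by norm_num) (hp.trans (by norm_num)) (by norm_num) (show _ * _ * ((527 / 10000) : ℝ) ^ 2 ≤ _ by norm_num)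
  have hp : P ≤ (5659 / 10000) := by
    rcases le_total R (17 / 20) with hR | hR
    · exact (pieceA (p := (5659 / 10000)) (F := (78801 / 100000)) h (gA hR) (by norm_num) k2 b2 (by norm_num)
        (Or.inr ⟨by norm_num, by norm_num, by norm_num, by norm_num⟩) (by norm_num)).trans (by norm_num)
    · exact piecea (c := (25409 / 100000)) (s := (59099 / 100000)) h (ga hR) (by norm_num) (by norm_num) k2 b2 (by norm_num)
        (by norm_num) (by norm_num) (Or.inr (by norm_num)) (by norm_num) (by norm_num)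
  exact neg_fin (g := (5353 / 10000)) hτ Tn_pos Tn_lt hS (by linarith) (by linarith) (show (0:ℝ) ≤ (153 / 5000) by norm_num) (by norm_num)
    k2 b2 h.P0 (by norm_num) (hp.trans (by norm_num)) (by norm_num) (show _ * _ * ((527 / 10000) : ℝ) ^ 2 ≤ _ by norm_num)

theorem lna6 (hτ : 0 < τ) (h : SlD τ R (3969 / 10000) b P) (t1 : (4 / 5) ≤ τ ^ 2)
    (t2 : τ ^ 2 ≤ 1) (hR0 : 0 < R) (hR2 : R < π / 2) (hc : cos R ^ 2 ≤ (107 / 200))
    (b1 : (2 / 5) ≤ b) (b2 : b ≤ 1) : lossJ τ (2 - b) (-P) Tn ≤ (7 / 250) := by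
  have hS := sJ_le (S := (6669 / 10000)) hτ Tn_pos Tn_lt cos_Tn t2 (by norm_num) (by norm_num)
  have e2 := eta_ge (κ := (3951 / 5000)) (η := (-409 / 10000)) hτ Tn_pos Tn_lt cos_Tn (by norm_num) (by norm_num) Tn_le (by norm_num)
    t1 (by linarith) (by norm_num)
  have e1 := eta_le (κ := (7903 / 10000)) (η := (-13 / 1250)) hτ Tn_pos Tn_lt cos_Tn (by norm_num) (by norm_num) le_Tn t2
    (by norm_num)
  have gA : R ≤ (87 / 100) → RA τ R (87 / 100) (9857 / 10000) (5487 / 10000) (2663 / 2000) (12251 / 10000) := fun hR =>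
    RA.of (cl := (64481 / 100000)) hτ hR0 hR (by norm_num) t1 t2 (by norm_num) hc
      (by norm_num) (by norm_num) (by norm_num) (by norm_num) (by norm_num) (by norm_num)
      (by norm_num) (by norm_num) (by norm_num) (by norm_num) (by norm_num) (by norm_num)
  have ga : (87 / 100) ≤ R → Ra τ R (87 / 100) (243 / 400) (1503 / 1250) := fun hR =>
    Ra.of (cu := (64483 / 100000)) hτ hR hR2 (by norm_num) t1 t2
      (by norm_num) (by norm_num) (by norm_num) (by norm_num) (by norm_num)
  rcases le_total b (31 / 50) with k1 | k1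
  · have hp : P ≤ (386 / 625) := by
      rcases le_total R (87 / 100) with hR | hR
      · exact (pieceA (p := (386 / 625)) (F := (18731 / 100000)) h (gA hR) (by norm_num) b1 k1 (by norm_num)
          (Or.inr ⟨by norm_num, by norm_num, by norm_num, by norm_num⟩) (by norm_num)).trans (by norm_num)
      · exact piecea (c := (56893 / 100000)) (s := (9641 / 25000)) h (ga hR) (by norm_num) (by norm_num) b1 k1 (by norm_num)
          (by norm_num) (by norm_num) (Or.inr (by norm_num)) (by norm_num) (by norm_num)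
    exact neg_fin (g := (6033 / 10000)) hτ Tn_pos Tn_lt hS (by linarith) (by linarith) (show (0:ℝ) ≤ (13 / 1250) by norm_num) (by norm_num)
      b1 k1 h.P0 (by norm_num) (hp.trans (by norm_num)) (by norm_num) (show _ * _ * ((409 / 10000) : ℝ) ^ 2 ≤ _ by norm_num)
  rcases le_total b (4 / 5) with k2 | k2
  · have hp : P ≤ (23 / 40) := by
      rcases le_total R (87 / 100) with hR | hR
      · exact (pieceA (p := (23 / 40)) (F := (23131 / 50000)) h (gA hR) (by norm_num) k1 k2 (by norm_num)
          (Or.inr ⟨by norm_num, by norm_num, by norm_num, by norm_num⟩) (by norm_num)).trans (by norm_num)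
      · exact piecea (c := (5509 / 12500)) (s := (50541 / 100000)) h (ga hR) (by norm_num) (by norm_num) k1 k2 (by norm_num)
          (by norm_num) (by norm_num) (Or.inr (by norm_num)) (by norm_num) (by norm_num)
    exact neg_fin (g := (2813 / 5000)) hτ Tn_pos Tn_lt hS (by linarith) (by linarith) (show (0:ℝ) ≤ (13 / 1250) by norm_num) (by norm_num)
      k1 k2 h.P0 (by norm_num) (hp.trans (by norm_num)) (by norm_num) (show _ * _ * ((409 / 10000) : ℝ) ^ 2 ≤ _ by norm_num)
  rcases le_total b (47 / 50) with k3 | k3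
  · have hp : P ≤ (5397 / 10000) := by
      rcases le_total R (87 / 100) with hR | hR
      · exact (pieceA (p := (5397 / 10000)) (F := (32833 / 50000)) h (gA hR) (by norm_num) k2 k3 (by norm_num)
          (Or.inr ⟨by norm_num, by norm_num, by norm_num, by norm_num⟩) (by norm_num)).trans (by norm_num)
      · exact piecea (c := (32887 / 100000)) (s := (6027 / 10000)) h (ga hR) (by norm_num) (by norm_num) k2 k3 (by norm_num)
          (by norm_num) (by norm_num) (Or.inr (by norm_num)) (by norm_num) (by norm_num)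
    exact neg_fin (g := (5287 / 10000)) hτ Tn_pos Tn_lt hS (by linarith) (by linarith) (show (0:ℝ) ≤ (13 / 1250) by norm_num) (by norm_num)
      k2 k3 h.P0 (by norm_num) (hp.trans (by norm_num)) (by norm_num) (show _ * _ * ((409 / 10000) : ℝ) ^ 2 ≤ _ by norm_num)
  have hp : P ≤ (131 / 250) := by
    rcases le_total R (87 / 100) with hR | hR
    · exact (pieceA (p := (131 / 250)) (F := (9901 / 12500)) h (gA hR) (by norm_num) k3 b2 (by norm_num)
        (Or.inr ⟨by norm_num, by norm_num, by norm_num, by norm_num⟩) (by norm_num)).trans (by norm_num)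
    · exact piecea (c := (22701 / 100000)) (s := (6457 / 10000)) h (ga hR) (by norm_num) (by norm_num) k3 b2 (by norm_num)
        (by norm_num) (by norm_num) (Or.inr (by norm_num)) (by norm_num) (by norm_num)
  exact neg_fin (g := (321 / 625)) hτ Tn_pos Tn_lt hS (by linarith) (by linarith) (show (0:ℝ) ≤ (13 / 1250) by norm_num) (by norm_num)
    k3 b2 h.P0 (by norm_num) (hp.trans (by norm_num)) (by norm_num) (show _ * _ * ((409 / 10000) : ℝ) ^ 2 ≤ _ by norm_num)

end Pool.Agent.S3.Ls
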