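import Pool.Agent.S3.Ls.PV

/-!
# Bounds of the loss of an inner vertex of multiplicity two: b at least one (generated)
-/

set_option autoImplicit false

namespace Pool.Agent.S3.Ls

open Real

variable {τ R b P : ℝ}

theorem lvp0 (hτ : 0 < τ) (h : VD τ R b P) (t1 : 0 ≤ τ ^ 2)
    (t2 : τ ^ 2 ≤ (1 / 10)) (hR0 : 0 < R) (hR2 : R < π / 2) (hc : cos R ^ 2 ≤ (667 / 1000))
    (b1 : 1 ≤ b) (b2 : b ≤ 8 / 5) : lossJ τ b P Tp ≤ (3 / 100) := by
  have hS := sJ_le (S := (107 / 500)) hτ Tp_pos Tp_lt cos_Tp t2 (by norm_num) (by norm_num)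
  have e1 := eta_ge (κ := (83 / 80)) (η := (169 / 625)) hτ Tp_pos Tp_lt cos_Tp (by norm_num) (by norm_num) Tp_le (by norm_num)
    t1 (by linarith) (by norm_num)
  have e2 := eta_le (κ := (1297 / 1250)) (η := (1443 / 5000)) hτ Tp_pos Tp_lt cos_Tp (by norm_num) (by norm_num) le_Tp t2
    (by norm_num)
  have hW := h.le_W (x := (2831 / 2000)) (T0 := (1413 / 2000)) (W := (2399 / 2500)) hR0 hR2 hc (by norm_num) t1 (by norm_num) (by norm_num) (by norm_num)
    (by norm_num) (by norm_num) (by norm_num) (by norm_num) (by norm_num)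
  have hr := le_R (r1 := (123 / 200)) hR0 hc (by norm_num) (by norm_num) (by norm_num) (by norm_num)
  have hp := P_le hW hr (by norm_num) (bl := 1) (by norm_num) b1 (p := (2399 / 2500)) (by norm_num)
  exact pos_fin (g := (1877 / 2000)) hτ Tp_pos Tp_lt hS e1 e2 (by norm_num) (by norm_num) b1 b2 h.P0 (by norm_num)
    (hp.trans (by norm_num)) (by norm_num) (by norm_num)

theorem lvp1 (hτ : 0 < τ) (h : VD τ R b P) (t1 : (1 / 10) ≤ τ ^ 2)
    (t2 : τ ^ 2 ≤ (1 / 5)) (hR0 : 0 < R) (hR2 : R < π / 2) (hc : cos R ^ 2 ≤ (657 / 1000))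
    (b1 : 1 ≤ b) (b2 : b ≤ 8 / 5) : lossJ τ b P Tp ≤ (3 / 100) := by
  have hS := sJ_le (S := (591 / 2000)) hτ Tp_pos Tp_lt cos_Tp t2 (by norm_num) (by norm_num)
  have e1 := eta_ge (κ := (83 / 80)) (η := (36 / 125)) hτ Tp_pos Tp_lt cos_Tp (by norm_num) (by norm_num) Tp_le (by norm_num)
    t1 (by linarith) (by norm_num)
  have e2 := eta_le (κ := (1297 / 1250)) (η := (613 / 2000)) hτ Tp_pos Tp_lt cos_Tp (by norm_num) (by norm_num) le_Tp t2
    (by norm_num)
  have hW := h.le_W (x := (2091 / 2000)) (T0 := (289 / 400)) (W := (8097 / 10000)) hR0 hR2 hc (by norm_num) t1 (by norm_num) (by norm_num) (by norm_num)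
    (by norm_num) (by norm_num) (by norm_num) (by norm_num) (by norm_num)
  have hr := le_R (r1 := (1251 / 2000)) hR0 hc (by norm_num) (by norm_num) (by norm_num) (by norm_num)
  have hp := P_le hW hr (by norm_num) (bl := 1) (by norm_num) b1 (p := (8097 / 10000)) (by norm_num)
  exact pos_fin (g := (3993 / 5000)) hτ Tp_pos Tp_lt hS e1 e2 (by norm_num) (by norm_num) b1 b2 h.P0 (by norm_num)
    (hp.trans (by norm_num)) (by norm_num) (by norm_num)

theorem lvp2 (hτ : 0 < τ) (h : VD τ R b P) (t1 : (1 / 5) ≤ τ ^ 2)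
    (t2 : τ ^ 2 ≤ (1 / 2)) (hR0 : 0 < R) (hR2 : R < π / 2) (hc : cos R ^ 2 ≤ (161 / 250))
    (b1 : 1 ≤ b) (b2 : b ≤ 8 / 5) : lossJ τ b P Tp ≤ (3 / 100) := by
  have hS := sJ_le (S := (2187 / 5000)) hτ Tp_pos Tp_lt cos_Tp t2 (by norm_num) (by norm_num)
  have e1 := eta_ge (κ := (83 / 80)) (η := (381 / 1250)) hτ Tp_pos Tp_lt cos_Tp (by norm_num) (by norm_num) Tp_le (by norm_num)
    t1 (by linarith) (by norm_num)
  have e2 := eta_le (κ := (1297 / 1250)) (η := (3603 / 10000)) hτ Tp_pos Tp_lt cos_Tp (by norm_num) (by norm_num) le_Tp t2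
    (by norm_num)
  have hW := h.le_W (x := (3951 / 5000)) (T0 := (1487 / 2000)) (W := (6697 / 10000)) hR0 hR2 hc (by norm_num) t1 (by norm_num) (by norm_num) (by norm_num)
    (by norm_num) (by norm_num) (by norm_num) (by norm_num) (by norm_num)
  have hr := le_R (r1 := (799 / 1250)) hR0 hc (by norm_num) (by norm_num) (by norm_num) (by norm_num)
  have hp := P_le hW hr (by norm_num) (bl := 1) (by norm_num) b1 (p := (6697 / 10000)) (by norm_num)
  exact pos_fin (g := (1641 / 2500)) hτ Tp_pos Tp_lt hS e1 e2 (by norm_num) (by norm_num) b1 b2 h.P0 (by norm_num)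
    (hp.trans (by norm_num)) (by norm_num) (by norm_num)

theorem lvp3 (hτ : 0 < τ) (h : VD τ R b P) (t1 : (1 / 2) ≤ τ ^ 2)
    (t2 : τ ^ 2 ≤ (3 / 5)) (hR0 : 0 < R) (hR2 : R < π / 2) (hc : cos R ^ 2 ≤ (591 / 1000))
    (b1 : 1 ≤ b) (b2 : b ≤ 8 / 5) : lossJ τ b P Tp ≤ (9 / 400) := by
  have hS := sJ_le (S := (939 / 2000)) hτ Tp_pos Tp_lt cos_Tp t2 (by norm_num) (by norm_num)
  have e1 := eta_ge (κ := (83 / 80)) (η := (877 / 2500)) hτ Tp_pos Tp_lt cos_Tp (by norm_num) (by norm_num) Tp_le (by norm_num)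
    t1 (by linarith) (by norm_num)
  have e2 := eta_le (κ := (1297 / 1250)) (η := (1891 / 5000)) hτ Tp_pos Tp_lt cos_Tp (by norm_num) (by norm_num) le_Tp t2
    (by norm_num)
  have hW := h.le_W (x := (349 / 1000)) (T0 := (4159 / 5000)) (W := (3359 / 10000)) hR0 hR2 hc (by norm_num) t1 (by norm_num) (by norm_num) (by norm_num)
    (by norm_num) (by norm_num) (by norm_num) (by norm_num) (by norm_num)
  have hr := le_R (r1 := (6937 / 10000)) hR0 hc (by norm_num) (by norm_num) (by norm_num) (by norm_num)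
  have hp := P_le hW hr (by norm_num) (bl := 1) (by norm_num) b1 (p := (3359 / 10000)) (by norm_num)
  exact pos_fin (g := (5487 / 10000)) hτ Tp_pos Tp_lt hS e1 e2 (by norm_num) (by norm_num) b1 b2 h.P0 (by norm_num)
    (hp.trans (by norm_num)) (by norm_num) (by norm_num)

theorem lvp4 (hτ : 0 < τ) (h : VD τ R b P) (t1 : (3 / 5) ≤ τ ^ 2)
    (t2 : τ ^ 2 ≤ (7 / 10)) (hR0 : 0 < R) (hR2 : R < π / 2) (hc : cos R ^ 2 ≤ (143 / 250))
    (b1 : 1 ≤ b) (b2 : b ≤ 8 / 5) : lossJ τ b P Tp ≤ (21 / 1000) := by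
  have hS := sJ_le (S := (2487 / 5000)) hτ Tp_pos Tp_lt cos_Tp t2 (by norm_num) (by norm_num)
  have e1 := eta_ge (κ := (83 / 80)) (η := (1823 / 5000)) hτ Tp_pos Tp_lt cos_Tp (by norm_num) (by norm_num) Tp_le (by norm_num)
    t1 (by linarith) (by norm_num)
  have e2 := eta_le (κ := (1297 / 1250)) (η := (1981 / 5000)) hτ Tp_pos Tp_lt cos_Tp (by norm_num) (by norm_num) le_Tp t2
    (by norm_num)
  have hW := h.le_W (x := (2567 / 10000)) (T0 := (173 / 200)) (W := (2513 / 10000)) hR0 hR2 hc (by norm_num) t1 (by norm_num) (by norm_num) (by norm_num)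
    (by norm_num) (by norm_num) (by norm_num) (by norm_num) (by norm_num)
  have hr := le_R (r1 := (713 / 1000)) hR0 hc (by norm_num) (by norm_num) (by norm_num) (by norm_num)
  have hp := P_le hW hr (by norm_num) (bl := 1) (by norm_num) b1 (p := (2513 / 10000)) (by norm_num)
  exact pos_fin (g := (103 / 200)) hτ Tp_pos Tp_lt hS e1 e2 (by norm_num) (by norm_num) b1 b2 h.P0 (by norm_num)
    (hp.trans (by norm_num)) (by norm_num) (by norm_num)

theorem lvp5 (hτ : 0 < τ) (h : VD τ R b P) (t1 : (7 / 10) ≤ τ ^ 2)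
    (t2 : τ ^ 2 ≤ (3 / 4)) (hR0 : 0 < R) (hR2 : R < π / 2) (hc : cos R ^ 2 ≤ (277 / 500))
    (b1 : 1 ≤ b) (b2 : b ≤ 8 / 5) : lossJ τ b P Tp ≤ (9 / 400) := by
  have hS := sJ_le (S := (51 / 100)) hτ Tp_pos Tp_lt cos_Tp t2 (by norm_num) (by norm_num)
  have e1 := eta_ge (κ := (83 / 80)) (η := (3777 / 10000)) hτ Tp_pos Tp_lt cos_Tp (by norm_num) (by norm_num) Tp_le (by norm_num)
    t1 (by linarith) (by norm_num)
  have e2 := eta_le (κ := (1297 / 1250)) (η := (4051 / 10000)) hτ Tp_pos Tp_lt cos_Tp (by norm_num) (by norm_num) le_Tp t2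
    (by norm_num)
  have hW := h.le_W (x := (1789 / 10000)) (T0 := (2243 / 2500)) (W := (1771 / 10000)) hR0 hR2 hc (by norm_num) t1 (by norm_num) (by norm_num) (by norm_num)
    (by norm_num) (by norm_num) (by norm_num) (by norm_num) (by norm_num)
  have hr := le_R (r1 := (7311 / 10000)) hR0 hc (by norm_num) (by norm_num) (by norm_num) (by norm_num)
  have hp := P_le hW hr (by norm_num) (bl := 1) (by norm_num) b1 (p := (1771 / 10000)) (by norm_num)
  exact pos_fin (g := (329 / 625)) hτ Tp_pos Tp_lt hS e1 e2 (by norm_num) (by norm_num) b1 b2 h.P0 (by norm_num)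
    (hp.trans (by norm_num)) (by norm_num) (by norm_num)

theorem lvp6 (hτ : 0 < τ) (h : VD τ R b P) (t1 : (3 / 4) ≤ τ ^ 2)
    (t2 : τ ^ 2 ≤ 1) (hR0 : 0 < R) (hR2 : R < π / 2) (hc : cos R ^ 2 ≤ (68 / 125))
    (b1 : 1 ≤ b) (b2 : b ≤ 8 / 5) : lossJ τ b P Tp ≤ (9 / 400) := by
  have hS := sJ_le (S := (352 / 625)) hτ Tp_pos Tp_lt cos_Tp t2 (by norm_num) (by norm_num)
  have e1 := eta_ge (κ := (83 / 80)) (η := (48 / 125)) hτ Tp_pos Tp_lt cos_Tp (by norm_num) (by norm_num) Tp_le (by norm_num)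
    t1 (by linarith) (by norm_num)
  have e2 := eta_le (κ := (1297 / 1250)) (η := (9 / 20)) hτ Tp_pos Tp_lt cos_Tp (by norm_num) (by norm_num) le_Tp t2
    (by norm_num)
  have hW := h.le_W (x := (721 / 5000)) (T0 := (1831 / 2000)) (W := (1433 / 10000)) hR0 hR2 hc (by norm_num) t1 (by norm_num) (by norm_num) (by norm_num)
    (by norm_num) (by norm_num) (by norm_num) (by norm_num) (by norm_num)
  have hr := le_R (r1 := (1853 / 2500)) hR0 hc (by norm_num) (by norm_num) (by norm_num) (by norm_num)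
  rcases le_total b (123 / 100) with k1 | k1
  · have hp := P_le hW hr (by norm_num) (bl := 1) (by norm_num) b1 (p := (1433 / 10000)) (by norm_num)
    exact pos_fin (g := (501 / 1000)) hτ Tp_pos Tp_lt hS e1 e2 (by norm_num) (by norm_num) b1 k1 h.P0 (by norm_num)
      (hp.trans (by norm_num)) (by norm_num) (by norm_num)
  exact absurd (P_le hW hr (by norm_num) (bl := (123 / 100)) (by norm_num) k1 (p := (-3397 / 125000)) (by norm_num)) (not_le.2 (lt_of_lt_of_le (by norm_num) h.P0))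

theorem lvn0 (hτ : 0 < τ) (h : VD τ R b P) (t1 : 0 ≤ τ ^ 2)
    (t2 : τ ^ 2 ≤ (1 / 20)) (hR0 : 0 < R) (hR2 : R < π / 2) (hc : cos R ^ 2 ≤ (667 / 1000))
    (b1 : 1 ≤ b) (b2 : b ≤ 8 / 5) : lossJ τ (2 - b) (-P) Tn ≤ (3 / 125) := by
  have hS := sJ_le (S := (869 / 5000)) hτ Tn_pos Tn_lt cos_Tn t2 (by norm_num) (by norm_num)
  have e2 := eta_ge (κ := (3951 / 5000)) (η := (-1119 / 10000)) hτ Tn_pos Tn_lt cos_Tn (by norm_num) (by norm_num) Tn_le (by norm_num)
    t1 (by linarith) (by norm_num)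
  have e1 := eta_le (κ := (7903 / 10000)) (η := (-533 / 5000)) hτ Tn_pos Tn_lt cos_Tn (by norm_num) (by norm_num) le_Tn t2
    (by norm_num)
  have hW := h.le_W (x := (2831 / 2000)) (T0 := (1413 / 2000)) (W := (2399 / 2500)) hR0 hR2 hc (by norm_num) t1 (by norm_num) (by norm_num) (by norm_num)
    (by norm_num) (by norm_num) (by norm_num) (by norm_num) (by norm_num)
  have hr := le_R (r1 := (123 / 200)) hR0 hc (by norm_num) (by norm_num) (by norm_num) (by norm_num)
  rcases le_total b (113 / 100) with k1 | k1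
  · have hp := P_le hW hr (by norm_num) (bl := 1) (by norm_num) b1 (p := (2399 / 2500)) (by norm_num)
    exact neg_fin (g := (543 / 625)) hτ Tn_pos Tn_lt hS (by linarith) (by linarith) (show (0:ℝ) ≤ (533 / 5000) by norm_num) (by norm_num)
      b1 k1 h.P0 (by norm_num) (hp.trans (by norm_num)) (by norm_num) (show _ * _ * ((1119 / 10000) : ℝ) ^ 2 ≤ _ by norm_num)
  rcases le_total b (63 / 50) with k2 | k2
  · have hp := P_le hW hr (by norm_num) (bl := (113 / 100)) (by norm_num) k1 (p := (8797 / 10000)) (by norm_num)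
    exact neg_fin (g := (2003 / 2500)) hτ Tn_pos Tn_lt hS (by linarith) (by linarith) (show (0:ℝ) ≤ (533 / 5000) by norm_num) (by norm_num)
      k1 k2 h.P0 (by norm_num) (hp.trans (by norm_num)) (by norm_num) (show _ * _ * ((1119 / 10000) : ℝ) ^ 2 ≤ _ by norm_num)
  rcases le_total b (137 / 100) with k3 | k3
  · have hp := P_le hW hr (by norm_num) (bl := (63 / 50)) (by norm_num) k2 (p := (7997 / 10000)) (by norm_num)
    exact neg_fin (g := (7393 / 10000)) hτ Tn_pos Tn_lt hS (by linarith) (by linarith) (show (0:ℝ) ≤ (533 / 5000) by norm_num) (by norm_num)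
      k2 k3 h.P0 (by norm_num) (hp.trans (by norm_num)) (by norm_num) (show _ * _ * ((1119 / 10000) : ℝ) ^ 2 ≤ _ by norm_num)
  rcases le_total b (147 / 100) with k4 | k4
  · have hp := P_le hW hr (by norm_num) (bl := (137 / 100)) (by norm_num) k3 (p := (7321 / 10000)) (by norm_num)
    exact neg_fin (g := (6781 / 10000)) hτ Tn_pos Tn_lt hS (by linarith) (by linarith) (show (0:ℝ) ≤ (533 / 5000) by norm_num) (by norm_num)
      k3 k4 h.P0 (by norm_num) (hp.trans (by norm_num)) (by norm_num) (show _ * _ * ((1119 / 10000) : ℝ) ^ 2 ≤ _ by norm_num)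
  rcases le_total b (31 / 20) with k5 | k5
  · have hp := P_le hW hr (by norm_num) (bl := (147 / 100)) (by norm_num) k4 (p := (3353 / 5000)) (by norm_num)
    exact neg_fin (g := (781 / 1250)) hτ Tn_pos Tn_lt hS (by linarith) (by linarith) (show (0:ℝ) ≤ (533 / 5000) by norm_num) (by norm_num)
      k4 k5 h.P0 (by norm_num) (hp.trans (by norm_num)) (by norm_num) (show _ * _ * ((1119 / 10000) : ℝ) ^ 2 ≤ _ by norm_num)
  have hp := P_le hW hr (by norm_num) (bl := (31 / 20)) (by norm_num) k5 (p := (3107 / 5000)) (by norm_num)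
  exact neg_fin (g := (5891 / 10000)) hτ Tn_pos Tn_lt hS (by linarith) (by linarith) (show (0:ℝ) ≤ (533 / 5000) by norm_num) (by norm_num)
    k5 b2 h.P0 (by norm_num) (hp.trans (by norm_num)) (by norm_num) (show _ * _ * ((1119 / 10000) : ℝ) ^ 2 ≤ _ by norm_num)

theorem lvn1 (hτ : 0 < τ) (h : VD τ R b P) (t1 : (1 / 20) ≤ τ ^ 2)
    (t2 : τ ^ 2 ≤ (2 / 25)) (hR0 : 0 < R) (hR2 : R < π / 2) (hc : cos R ^ 2 ≤ (663 / 1000))
    (b1 : 1 ≤ b) (b2 : b ≤ 8 / 5) : lossJ τ (2 - b) (-P) Tn ≤ (3 / 125) := by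
  have hS := sJ_le (S := (1093 / 5000)) hτ Tn_pos Tn_lt cos_Tn t2 (by norm_num) (by norm_num)
  have e2 := eta_ge (κ := (3951 / 5000)) (η := (-1069 / 10000)) hτ Tn_pos Tn_lt cos_Tn (by norm_num) (by norm_num) Tn_le (by norm_num)
    t1 (by linarith) (by norm_num)
  have e1 := eta_le (κ := (7903 / 10000)) (η := (-207 / 2000)) hτ Tn_pos Tn_lt cos_Tn (by norm_num) (by norm_num) le_Tn t2
    (by norm_num)
  have hW := h.le_W (x := (12133 / 10000)) (T0 := (7129 / 10000)) (W := (8843 / 10000)) hR0 hR2 hc (by norm_num) t1 (by norm_num) (by norm_num) (by norm_num)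
    (by norm_num) (by norm_num) (by norm_num) (by norm_num) (by norm_num)
  have hr := le_R (r1 := (387 / 625)) hR0 hc (by norm_num) (by norm_num) (by norm_num) (by norm_num)
  rcases le_total b (109 / 100) with k1 | k1
  · have hp := P_le hW hr (by norm_num) (bl := 1) (by norm_num) b1 (p := (8843 / 10000)) (by norm_num)
    exact neg_fin (g := (3961 / 5000)) hτ Tn_pos Tn_lt hS (by linarith) (by linarith) (show (0:ℝ) ≤ (207 / 2000) by norm_num) (by norm_num)
      b1 k1 h.P0 (by norm_num) (hp.trans (by norm_num)) (by norm_num) (show _ * _ * ((1069 / 10000) : ℝ) ^ 2 ≤ _ by norm_num)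
  rcases le_total b (119 / 100) with k2 | k2
  · have hp := P_le hW hr (by norm_num) (bl := (109 / 100)) (by norm_num) k1 (p := (4143 / 5000)) (by norm_num)
    exact neg_fin (g := (3737 / 5000)) hτ Tn_pos Tn_lt hS (by linarith) (by linarith) (show (0:ℝ) ≤ (207 / 2000) by norm_num) (by norm_num)
      k1 k2 h.P0 (by norm_num) (hp.trans (by norm_num)) (by norm_num) (show _ * _ * ((1069 / 10000) : ℝ) ^ 2 ≤ _ by norm_num)
  rcases le_total b (13 / 10) with k3 | k3
  · have hp := P_le hW hr (by norm_num) (bl := (119 / 100)) (by norm_num) k2 (p := (7667 / 10000)) (by norm_num)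
    exact neg_fin (g := (1737 / 2500)) hτ Tn_pos Tn_lt hS (by linarith) (by linarith) (show (0:ℝ) ≤ (207 / 2000) by norm_num) (by norm_num)
      k2 k3 h.P0 (by norm_num) (hp.trans (by norm_num)) (by norm_num) (show _ * _ * ((1069 / 10000) : ℝ) ^ 2 ≤ _ by norm_num)
  rcases le_total b (141 / 100) with k4 | k4
  · have hp := P_le hW hr (by norm_num) (bl := (13 / 10)) (by norm_num) k3 (p := (3493 / 5000)) (by norm_num)
    exact neg_fin (g := (6379 / 10000)) hτ Tn_pos Tn_lt hS (by linarith) (by linarith) (show (0:ℝ) ≤ (207 / 2000) by norm_num) (by norm_num)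
      k3 k4 h.P0 (by norm_num) (hp.trans (by norm_num)) (by norm_num) (show _ * _ * ((1069 / 10000) : ℝ) ^ 2 ≤ _ by norm_num)
  rcases le_total b (151 / 100) with k5 | k5
  · have hp := P_le hW hr (by norm_num) (bl := (141 / 100)) (by norm_num) k4 (p := (1261 / 2000)) (by norm_num)
    exact neg_fin (g := (5813 / 10000)) hτ Tn_pos Tn_lt hS (by linarith) (by linarith) (show (0:ℝ) ≤ (207 / 2000) by norm_num) (by norm_num)
      k4 k5 h.P0 (by norm_num) (hp.trans (by norm_num)) (by norm_num) (show _ * _ * ((1069 / 10000) : ℝ) ^ 2 ≤ _ by norm_num)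
  rcases le_total b (159 / 100) with k6 | k6
  · have hp := P_le hW hr (by norm_num) (bl := (151 / 100)) (by norm_num) k5 (p := (2843 / 5000)) (by norm_num)
    exact neg_fin (g := (2659 / 5000)) hτ Tn_pos Tn_lt hS (by linarith) (by linarith) (show (0:ℝ) ≤ (207 / 2000) by norm_num) (by norm_num)
      k5 k6 h.P0 (by norm_num) (hp.trans (by norm_num)) (by norm_num) (show _ * _ * ((1069 / 10000) : ℝ) ^ 2 ≤ _ by norm_num)
  have hp := P_le hW hr (by norm_num) (bl := (159 / 100)) (by norm_num) k6 (p := (519 / 1000)) (by norm_num)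
  exact neg_fin (g := (1313 / 2500)) hτ Tn_pos Tn_lt hS (by linarith) (by linarith) (show (0:ℝ) ≤ (207 / 2000) by norm_num) (by norm_num)
    k6 b2 h.P0 (by norm_num) (hp.trans (by norm_num)) (by norm_num) (show _ * _ * ((1069 / 10000) : ℝ) ^ 2 ≤ _ by norm_num)

theorem lvn2 (hτ : 0 < τ) (h : VD τ R b P) (t1 : (2 / 25) ≤ τ ^ 2)
    (t2 : τ ^ 2 ≤ (11 / 100)) (hR0 : 0 < R) (hR2 : R < π / 2) (hc : cos R ^ 2 ≤ (33 / 50))
    (b1 : 1 ≤ b) (b2 : b ≤ 8 / 5) : lossJ τ (2 - b) (-P) Tn ≤ (3 / 125) := by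
  have hS := sJ_le (S := (2549 / 10000)) hτ Tn_pos Tn_lt cos_Tn t2 (by norm_num) (by norm_num)
  have e2 := eta_ge (κ := (3951 / 5000)) (η := (-1039 / 10000)) hτ Tn_pos Tn_lt cos_Tn (by norm_num) (by norm_num) Tn_le (by norm_num)
    t1 (by linarith) (by norm_num)
  have e1 := eta_le (κ := (7903 / 10000)) (η := (-201 / 2000)) hτ Tn_pos Tn_lt cos_Tn (by norm_num) (by norm_num) le_Tn t2
    (by norm_num)
  have hW := h.le_W (x := (1387 / 1250)) (T0 := (7177 / 10000)) (W := (2099 / 2500)) hR0 hR2 hc (by norm_num) t1 (by norm_num) (by norm_num) (by norm_num)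
    (by norm_num) (by norm_num) (by norm_num) (by norm_num) (by norm_num)
  have hr := le_R (r1 := (389 / 625)) hR0 hc (by norm_num) (by norm_num) (by norm_num) (by norm_num)
  rcases le_total b (53 / 50) with k1 | k1
  · have hp := P_le hW hr (by norm_num) (bl := 1) (by norm_num) b1 (p := (2099 / 2500)) (by norm_num)
    exact neg_fin (g := (7457 / 10000)) hτ Tn_pos Tn_lt hS (by linarith) (by linarith) (show (0:ℝ) ≤ (201 / 2000) by norm_num) (by norm_num)
      b1 k1 h.P0 (by norm_num) (hp.trans (by norm_num)) (by norm_num) (show _ * _ * ((1039 / 10000) : ℝ) ^ 2 ≤ _ by norm_num)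
  rcases le_total b (113 / 100) with k2 | k2
  · have hp := P_le hW hr (by norm_num) (bl := (53 / 50)) (by norm_num) k1 (p := (8023 / 10000)) (by norm_num)
    exact neg_fin (g := (3587 / 5000)) hτ Tn_pos Tn_lt hS (by linarith) (by linarith) (show (0:ℝ) ≤ (201 / 2000) by norm_num) (by norm_num)
      k1 k2 h.P0 (by norm_num) (hp.trans (by norm_num)) (by norm_num) (show _ * _ * ((1039 / 10000) : ℝ) ^ 2 ≤ _ by norm_num)
  rcases le_total b (121 / 100) with k3 | k3
  · have hp := P_le hW hr (by norm_num) (bl := (113 / 100)) (by norm_num) k2 (p := (7587 / 10000)) (by norm_num)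
    exact neg_fin (g := (1709 / 2500)) hτ Tn_pos Tn_lt hS (by linarith) (by linarith) (show (0:ℝ) ≤ (201 / 2000) by norm_num) (by norm_num)
      k2 k3 h.P0 (by norm_num) (hp.trans (by norm_num)) (by norm_num) (show _ * _ * ((1039 / 10000) : ℝ) ^ 2 ≤ _ by norm_num)
  rcases le_total b (13 / 10) with k4 | k4
  · have hp := P_le hW hr (by norm_num) (bl := (121 / 100)) (by norm_num) k3 (p := (7089 / 10000)) (by norm_num)
    exact neg_fin (g := (1287 / 2000)) hτ Tn_pos Tn_lt hS (by linarith) (by linarith) (show (0:ℝ) ≤ (201 / 2000) by norm_num) (by norm_num)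
      k3 k4 h.P0 (by norm_num) (hp.trans (by norm_num)) (by norm_num) (show _ * _ * ((1039 / 10000) : ℝ) ^ 2 ≤ _ by norm_num)
  rcases le_total b (7 / 5) with k5 | k5
  · have hp := P_le hW hr (by norm_num) (bl := (13 / 10)) (by norm_num) k4 (p := (6529 / 10000)) (by norm_num)
    exact neg_fin (g := (5957 / 10000)) hτ Tn_pos Tn_lt hS (by linarith) (by linarith) (show (0:ℝ) ≤ (201 / 2000) by norm_num) (by norm_num)
      k4 k5 h.P0 (by norm_num) (hp.trans (by norm_num)) (by norm_num) (show _ * _ * ((1039 / 10000) : ℝ) ^ 2 ≤ _ by norm_num)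
  rcases le_total b (3 / 2) with k6 | k6
  · have hp := P_le hW hr (by norm_num) (bl := (7 / 5)) (by norm_num) k5 (p := (5907 / 10000)) (by norm_num)
    exact neg_fin (g := (2719 / 5000)) hτ Tn_pos Tn_lt hS (by linarith) (by linarith) (show (0:ℝ) ≤ (201 / 2000) by norm_num) (by norm_num)
      k5 k6 h.P0 (by norm_num) (hp.trans (by norm_num)) (by norm_num) (show _ * _ * ((1039 / 10000) : ℝ) ^ 2 ≤ _ by norm_num)
  rcases le_total b (159 / 100) with k7 | k7
  · have hp := P_le hW hr (by norm_num) (bl := (3 / 2)) (by norm_num) k6 (p := (1321 / 2500)) (by norm_num)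
    exact neg_fin (g := (1231 / 2500)) hτ Tn_pos Tn_lt hS (by linarith) (by linarith) (show (0:ℝ) ≤ (201 / 2000) by norm_num) (by norm_num)
      k6 k7 h.P0 (by norm_num) (hp.trans (by norm_num)) (by norm_num) (show _ * _ * ((1039 / 10000) : ℝ) ^ 2 ≤ _ by norm_num)
  have hp := P_le hW hr (by norm_num) (bl := (159 / 100)) (by norm_num) k7 (p := (1181 / 2500)) (by norm_num)
  exact neg_fin (g := (304 / 625)) hτ Tn_pos Tn_lt hS (by linarith) (by linarith) (show (0:ℝ) ≤ (201 / 2000) by norm_num) (by norm_num)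
    k7 b2 h.P0 (by norm_num) (hp.trans (by norm_num)) (by norm_num) (show _ * _ * ((1039 / 10000) : ℝ) ^ 2 ≤ _ by norm_num)

theorem lvn3 (hτ : 0 < τ) (h : VD τ R b P) (t1 : (11 / 100) ≤ τ ^ 2)
    (t2 : τ ^ 2 ≤ (3 / 20)) (hR0 : 0 < R) (hR2 : R < π / 2) (hc : cos R ^ 2 ≤ (82 / 125))
    (b1 : 1 ≤ b) (b2 : b ≤ 8 / 5) : lossJ τ (2 - b) (-P) Tn ≤ (3 / 125) := by
  have hS := sJ_le (S := (591 / 2000)) hτ Tn_pos Tn_lt cos_Tn t2 (by norm_num) (by norm_num)
  have e2 := eta_ge (κ := (3951 / 5000)) (η := (-101 / 1000)) hτ Tn_pos Tn_lt cos_Tn (by norm_num) (by norm_num) Tn_le (by norm_num)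
    t1 (by linarith) (by norm_num)
  have e1 := eta_le (κ := (7903 / 10000)) (η := (-193 / 2000)) hτ Tn_pos Tn_lt cos_Tn (by norm_num) (by norm_num) le_Tn t2
    (by norm_num)
  have hW := h.le_W (x := (127 / 125)) (T0 := (7241 / 10000)) (W := (497 / 625)) hR0 hR2 hc (by norm_num) t1 (by norm_num) (by norm_num) (by norm_num)
    (by norm_num) (by norm_num) (by norm_num) (by norm_num) (by norm_num)
  have hr := le_R (r1 := (3133 / 5000)) hR0 hc (by norm_num) (by norm_num) (by norm_num) (by norm_num)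
  rcases le_total b (103 / 100) with k1 | k1
  · have hp := P_le hW hr (by norm_num) (bl := 1) (by norm_num) b1 (p := (497 / 625)) (by norm_num)
    exact neg_fin (g := (1407 / 2000)) hτ Tn_pos Tn_lt hS (by linarith) (by linarith) (show (0:ℝ) ≤ (193 / 2000) by norm_num) (by norm_num)
      b1 k1 h.P0 (by norm_num) (hp.trans (by norm_num)) (by norm_num) (show _ * _ * ((101 / 1000) : ℝ) ^ 2 ≤ _ by norm_num)
  rcases le_total b (107 / 100) with k2 | k2
  · have hp := P_le hW hr (by norm_num) (bl := (103 / 100)) (by norm_num) k1 (p := (1553 / 2000)) (by norm_num)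
    exact neg_fin (g := (861 / 1250)) hτ Tn_pos Tn_lt hS (by linarith) (by linarith) (show (0:ℝ) ≤ (193 / 2000) by norm_num) (by norm_num)
      k1 k2 h.P0 (by norm_num) (hp.trans (by norm_num)) (by norm_num) (show _ * _ * ((101 / 1000) : ℝ) ^ 2 ≤ _ by norm_num)
  rcases le_total b (28 / 25) with k3 | k3
  · have hp := P_le hW hr (by norm_num) (bl := (107 / 100)) (by norm_num) k2 (p := (3757 / 5000)) (by norm_num)
    exact neg_fin (g := (6701 / 10000)) hτ Tn_pos Tn_lt hS (by linarith) (by linarith) (show (0:ℝ) ≤ (193 / 2000) by norm_num) (by norm_num)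
      k2 k3 h.P0 (by norm_num) (hp.trans (by norm_num)) (by norm_num) (show _ * _ * ((101 / 1000) : ℝ) ^ 2 ≤ _ by norm_num)
  rcases le_total b (119 / 100) with k4 | k4
  · have hp := P_le hW hr (by norm_num) (bl := (28 / 25)) (by norm_num) k3 (p := (7201 / 10000)) (by norm_num)
    exact neg_fin (g := (6429 / 10000)) hτ Tn_pos Tn_lt hS (by linarith) (by linarith) (show (0:ℝ) ≤ (193 / 2000) by norm_num) (by norm_num)
      k3 k4 h.P0 (by norm_num) (hp.trans (by norm_num)) (by norm_num) (show _ * _ * ((101 / 1000) : ℝ) ^ 2 ≤ _ by norm_num)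
  rcases le_total b (127 / 100) with k5 | k5
  · have hp := P_le hW hr (by norm_num) (bl := (119 / 100)) (by norm_num) k4 (p := (3381 / 5000)) (by norm_num)
    exact neg_fin (g := (6103 / 10000)) hτ Tn_pos Tn_lt hS (by linarith) (by linarith) (show (0:ℝ) ≤ (193 / 2000) by norm_num) (by norm_num)
      k4 k5 h.P0 (by norm_num) (hp.trans (by norm_num)) (by norm_num) (show _ * _ * ((101 / 1000) : ℝ) ^ 2 ≤ _ by norm_num)
  rcases le_total b (137 / 100) with k6 | k6
  · have hp := P_le hW hr (by norm_num) (bl := (127 / 100)) (by norm_num) k5 (p := (6261 / 10000)) (by norm_num)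
    exact neg_fin (g := (5669 / 10000)) hτ Tn_pos Tn_lt hS (by linarith) (by linarith) (show (0:ℝ) ≤ (193 / 2000) by norm_num) (by norm_num)
      k5 k6 h.P0 (by norm_num) (hp.trans (by norm_num)) (by norm_num) (show _ * _ * ((101 / 1000) : ℝ) ^ 2 ≤ _ by norm_num)
  rcases le_total b (37 / 25) with k7 | k7
  · have hp := P_le hW hr (by norm_num) (bl := (137 / 100)) (by norm_num) k6 (p := (2817 / 5000)) (by norm_num)
    exact neg_fin (g := (5151 / 10000)) hτ Tn_pos Tn_lt hS (by linarith) (by linarith) (show (0:ℝ) ≤ (193 / 2000) by norm_num) (by norm_num)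
      k6 k7 h.P0 (by norm_num) (hp.trans (by norm_num)) (by norm_num) (show _ * _ * ((101 / 1000) : ℝ) ^ 2 ≤ _ by norm_num)
  rcases le_total b (159 / 100) with k8 | k8
  · have hp := P_le hW hr (by norm_num) (bl := (37 / 25)) (by norm_num) k7 (p := (989 / 2000)) (by norm_num)
    exact neg_fin (g := (2287 / 5000)) hτ Tn_pos Tn_lt hS (by linarith) (by linarith) (show (0:ℝ) ≤ (193 / 2000) by norm_num) (by norm_num)
      k7 k8 h.P0 (by norm_num) (hp.trans (by norm_num)) (by norm_num) (show _ * _ * ((101 / 1000) : ℝ) ^ 2 ≤ _ by norm_num)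
  have hp := P_le hW hr (by norm_num) (bl := (159 / 100)) (by norm_num) k8 (p := (266 / 625)) (by norm_num)
  exact neg_fin (g := (4517 / 10000)) hτ Tn_pos Tn_lt hS (by linarith) (by linarith) (show (0:ℝ) ≤ (193 / 2000) by norm_num) (by norm_num)
    k8 b2 h.P0 (by norm_num) (hp.trans (by norm_num)) (by norm_num) (show _ * _ * ((101 / 1000) : ℝ) ^ 2 ≤ _ by norm_num)

theorem lvn4 (hτ : 0 < τ) (h : VD τ R b P) (t1 : (3 / 20) ≤ τ ^ 2)
    (t2 : τ ^ 2 ≤ (1 / 5)) (hR0 : 0 < R) (hR2 : R < π / 2) (hc : cos R ^ 2 ≤ (651 / 1000))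
    (b1 : 1 ≤ b) (b2 : b ≤ 8 / 5) : lossJ τ (2 - b) (-P) Tn ≤ (3 / 125) := by
  have hS := sJ_le (S := (1691 / 5000)) hτ Tn_pos Tn_lt cos_Tn t2 (by norm_num) (by norm_num)
  have e2 := eta_ge (κ := (3951 / 5000)) (η := (-971 / 10000)) hτ Tn_pos Tn_lt cos_Tn (by norm_num) (by norm_num) Tn_le (by norm_num)
    t1 (by linarith) (by norm_num)
  have e1 := eta_le (κ := (7903 / 10000)) (η := (-457 / 5000)) hτ Tn_pos Tn_lt cos_Tn (by norm_num) (by norm_num) le_Tn t2
    (by norm_num)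
  have hW := h.le_W (x := (567 / 625)) (T0 := (7321 / 10000)) (W := (3691 / 5000)) hR0 hR2 hc (by norm_num) t1 (by norm_num) (by norm_num) (by norm_num)
    (by norm_num) (by norm_num) (by norm_num) (by norm_num) (by norm_num)
  have hr := le_R (r1 := (6319 / 10000)) hR0 hc (by norm_num) (by norm_num) (by norm_num) (by norm_num)
  rcases le_total b (26 / 25) with k1 | k1
  · have hp := P_le hW hr (by norm_num) (bl := 1) (by norm_num) b1 (p := (3691 / 5000)) (by norm_num)
    exact neg_fin (g := (3271 / 5000)) hτ Tn_pos Tn_lt hS (by linarith) (by linarith) (show (0:ℝ) ≤ (457 / 5000) by norm_num) (by norm_num)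
      b1 k1 h.P0 (by norm_num) (hp.trans (by norm_num)) (by norm_num) (show _ * _ * ((971 / 10000) : ℝ) ^ 2 ≤ _ by norm_num)
  rcases le_total b (11 / 10) with k2 | k2
  · have hp := P_le hW hr (by norm_num) (bl := (26 / 25)) (by norm_num) k1 (p := (713 / 1000)) (by norm_num)
    exact neg_fin (g := (3167 / 5000)) hτ Tn_pos Tn_lt hS (by linarith) (by linarith) (show (0:ℝ) ≤ (457 / 5000) by norm_num) (by norm_num)
      k1 k2 h.P0 (by norm_num) (hp.trans (by norm_num)) (by norm_num) (show _ * _ * ((971 / 10000) : ℝ) ^ 2 ≤ _ by norm_num)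
  rcases le_total b (59 / 50) with k3 | k3
  · have hp := P_le hW hr (by norm_num) (bl := (11 / 10)) (by norm_num) k2 (p := (6751 / 10000)) (by norm_num)
    exact neg_fin (g := (3023 / 5000)) hτ Tn_pos Tn_lt hS (by linarith) (by linarith) (show (0:ℝ) ≤ (457 / 5000) by norm_num) (by norm_num)
      k2 k3 h.P0 (by norm_num) (hp.trans (by norm_num)) (by norm_num) (show _ * _ * ((971 / 10000) : ℝ) ^ 2 ≤ _ by norm_num)
  rcases le_total b (129 / 100) with k4 | k4
  · have hp := P_le hW hr (by norm_num) (bl := (59 / 50)) (by norm_num) k3 (p := (1249 / 2000)) (by norm_num)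
    exact neg_fin (g := (2813 / 5000)) hτ Tn_pos Tn_lt hS (by linarith) (by linarith) (show (0:ℝ) ≤ (457 / 5000) by norm_num) (by norm_num)
      k3 k4 h.P0 (by norm_num) (hp.trans (by norm_num)) (by norm_num) (show _ * _ * ((971 / 10000) : ℝ) ^ 2 ≤ _ by norm_num)
  rcases le_total b (143 / 100) with k5 | k5
  · have hp := P_le hW hr (by norm_num) (bl := (129 / 100)) (by norm_num) k4 (p := (111 / 200)) (by norm_num)
    exact neg_fin (g := (5041 / 10000)) hτ Tn_pos Tn_lt hS (by linarith) (by linarith) (show (0:ℝ) ≤ (457 / 5000) by norm_num) (by norm_num)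
      k4 k5 h.P0 (by norm_num) (hp.trans (by norm_num)) (by norm_num) (show _ * _ * ((971 / 10000) : ℝ) ^ 2 ≤ _ by norm_num)
  rcases le_total b (79 / 50) with k6 | k6
  · have hp := P_le hW hr (by norm_num) (bl := (143 / 100)) (by norm_num) k5 (p := (933 / 2000)) (by norm_num)
    exact neg_fin (g := (4327 / 10000)) hτ Tn_pos Tn_lt hS (by linarith) (by linarith) (show (0:ℝ) ≤ (457 / 5000) by norm_num) (by norm_num)
      k5 k6 h.P0 (by norm_num) (hp.trans (by norm_num)) (by norm_num) (show _ * _ * ((971 / 10000) : ℝ) ^ 2 ≤ _ by norm_num)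
  have hp := P_le hW hr (by norm_num) (bl := (79 / 50)) (by norm_num) k6 (p := (3717 / 10000)) (by norm_num)
  exact neg_fin (g := (4223 / 10000)) hτ Tn_pos Tn_lt hS (by linarith) (by linarith) (show (0:ℝ) ≤ (457 / 5000) by norm_num) (by norm_num)
    k6 b2 h.P0 (by norm_num) (hp.trans (by norm_num)) (by norm_num) (show _ * _ * ((971 / 10000) : ℝ) ^ 2 ≤ _ by norm_num)

theorem lvn5 (hτ : 0 < τ) (h : VD τ R b P) (t1 : (1 / 5) ≤ τ ^ 2)
    (t2 : τ ^ 2 ≤ (27 / 100)) (hR0 : 0 < R) (hR2 : R < π / 2) (hc : cos R ^ 2 ≤ (161 / 250))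
    (b1 : 1 ≤ b) (b2 : b ≤ 8 / 5) : lossJ τ (2 - b) (-P) Tn ≤ (3 / 125) := by
  have hS := sJ_le (S := (3881 / 10000)) hτ Tn_pos Tn_lt cos_Tn t2 (by norm_num) (by norm_num)
  have e2 := eta_ge (κ := (3951 / 5000)) (η := (-923 / 10000)) hτ Tn_pos Tn_lt cos_Tn (by norm_num) (by norm_num) Tn_le (by norm_num)
    t1 (by linarith) (by norm_num)
  have e1 := eta_le (κ := (7903 / 10000)) (η := (-843 / 10000)) hτ Tn_pos Tn_lt cos_Tn (by norm_num) (by norm_num) le_Tn t2
    (by norm_num)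
  have hW := h.le_W (x := (3951 / 5000)) (T0 := (1487 / 2000)) (W := (6697 / 10000)) hR0 hR2 hc (by norm_num) t1 (by norm_num) (by norm_num) (by norm_num)
    (by norm_num) (by norm_num) (by norm_num) (by norm_num) (by norm_num)
  have hr := le_R (r1 := (799 / 1250)) hR0 hc (by norm_num) (by norm_num) (by norm_num) (by norm_num)
  rcases le_total b (109 / 100) with k1 | k1
  · have hp := P_le hW hr (by norm_num) (bl := 1) (by norm_num) b1 (p := (6697 / 10000)) (by norm_num)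
    exact neg_fin (g := (2973 / 5000)) hτ Tn_pos Tn_lt hS (by linarith) (by linarith) (show (0:ℝ) ≤ (843 / 10000) by norm_num) (by norm_num)
      b1 k1 h.P0 (by norm_num) (hp.trans (by norm_num)) (by norm_num) (show _ * _ * ((923 / 10000) : ℝ) ^ 2 ≤ _ by norm_num)
  rcases le_total b (61 / 50) with k2 | k2
  · have hp := P_le hW hr (by norm_num) (bl := (109 / 100)) (by norm_num) k1 (p := (3061 / 5000)) (by norm_num)
    exact neg_fin (g := (1101 / 2000)) hτ Tn_pos Tn_lt hS (by linarith) (by linarith) (show (0:ℝ) ≤ (843 / 10000) by norm_num) (by norm_num)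
      k1 k2 h.P0 (by norm_num) (hp.trans (by norm_num)) (by norm_num) (show _ * _ * ((923 / 10000) : ℝ) ^ 2 ≤ _ by norm_num)
  rcases le_total b (7 / 5) with k3 | k3
  · have hp := P_le hW hr (by norm_num) (bl := (61 / 50)) (by norm_num) k2 (p := (5291 / 10000)) (by norm_num)
    exact neg_fin (g := (1207 / 2500)) hτ Tn_pos Tn_lt hS (by linarith) (by linarith) (show (0:ℝ) ≤ (843 / 10000) by norm_num) (by norm_num)
      k2 k3 h.P0 (by norm_num) (hp.trans (by norm_num)) (by norm_num) (show _ * _ * ((923 / 10000) : ℝ) ^ 2 ≤ _ by norm_num)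
  have hp := P_le hW hr (by norm_num) (bl := (7 / 5)) (by norm_num) k3 (p := (4141 / 10000)) (by norm_num)
  exact neg_fin (g := (1971 / 5000)) hτ Tn_pos Tn_lt hS (by linarith) (by linarith) (show (0:ℝ) ≤ (843 / 10000) by norm_num) (by norm_num)
    k3 b2 h.P0 (by norm_num) (hp.trans (by norm_num)) (by norm_num) (show _ * _ * ((923 / 10000) : ℝ) ^ 2 ≤ _ by norm_num)

theorem lvn6 (hτ : 0 < τ) (h : VD τ R b P) (t1 : (27 / 100) ≤ τ ^ 2)
    (t2 : τ ^ 2 ≤ (7 / 20)) (hR0 : 0 < R) (hR2 : R < π / 2) (hc : cos R ^ 2 ≤ (633 / 1000))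
    (b1 : 1 ≤ b) (b2 : b ≤ 8 / 5) : lossJ τ (2 - b) (-P) Tn ≤ (3 / 125) := by
  have hS := sJ_le (S := (2179 / 5000)) hτ Tn_pos Tn_lt cos_Tn t2 (by norm_num) (by norm_num)
  have e2 := eta_ge (κ := (3951 / 5000)) (η := (-857 / 10000)) hτ Tn_pos Tn_lt cos_Tn (by norm_num) (by norm_num) Tn_le (by norm_num)
    t1 (by linarith) (by norm_num)
  have e1 := eta_le (κ := (7903 / 10000)) (η := (-381 / 5000)) hτ Tn_pos Tn_lt cos_Tn (by norm_num) (by norm_num) le_Tn t2
    (by norm_num)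
  have hW := h.le_W (x := (3271 / 5000)) (T0 := (3807 / 5000)) (W := (2899 / 5000)) hR0 hR2 hc (by norm_num) t1 (by norm_num) (by norm_num) (by norm_num)
    (by norm_num) (by norm_num) (by norm_num) (by norm_num) (by norm_num)
  have hr := le_R (r1 := (3253 / 5000)) hR0 hc (by norm_num) (by norm_num) (by norm_num) (by norm_num)
  rcases le_total b (121 / 100) with k1 | k1
  · have hp := P_le hW hr (by norm_num) (bl := 1) (by norm_num) b1 (p := (2899 / 5000)) (by norm_num)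
    exact neg_fin (g := (1307 / 2500)) hτ Tn_pos Tn_lt hS (by linarith) (by linarith) (show (0:ℝ) ≤ (381 / 5000) by norm_num) (by norm_num)
      b1 k1 h.P0 (by norm_num) (hp.trans (by norm_num)) (by norm_num) (show _ * _ * ((857 / 10000) : ℝ) ^ 2 ≤ _ by norm_num)
  rcases le_total b (38 / 25) with k2 | k2
  · have hp := P_le hW hr (by norm_num) (bl := (121 / 100)) (by norm_num) k1 (p := (277 / 625)) (by norm_num)
    exact neg_fin (g := (163 / 400)) hτ Tn_pos Tn_lt hS (by linarith) (by linarith) (show (0:ℝ) ≤ (381 / 5000) by norm_num) (by norm_num)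
      k1 k2 h.P0 (by norm_num) (hp.trans (by norm_num)) (by norm_num) (show _ * _ * ((857 / 10000) : ℝ) ^ 2 ≤ _ by norm_num)
  have hp := P_le hW hr (by norm_num) (bl := (38 / 25)) (by norm_num) k2 (p := (483 / 2000)) (by norm_num)
  exact neg_fin (g := (93 / 250)) hτ Tn_pos Tn_lt hS (by linarith) (by linarith) (show (0:ℝ) ≤ (381 / 5000) by norm_num) (by norm_num)
    k2 b2 h.P0 (by norm_num) (hp.trans (by norm_num)) (by norm_num) (show _ * _ * ((857 / 10000) : ℝ) ^ 2 ≤ _ by norm_num)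

theorem lvn7 (hτ : 0 < τ) (h : VD τ R b P) (t1 : (7 / 20) ≤ τ ^ 2)
    (t2 : τ ^ 2 ≤ (1 / 2)) (hR0 : 0 < R) (hR2 : R < π / 2) (hc : cos R ^ 2 ≤ (619 / 1000))
    (b1 : 1 ≤ b) (b2 : b ≤ 8 / 5) : lossJ τ (2 - b) (-P) Tn ≤ (3 / 125) := by
  have hS := sJ_le (S := (2541 / 5000)) hτ Tn_pos Tn_lt cos_Tn t2 (by norm_num) (by norm_num)
  have e2 := eta_ge (κ := (3951 / 5000)) (η := (-49 / 625)) hτ Tn_pos Tn_lt cos_Tn (by norm_num) (by norm_num) Tn_le (by norm_num)
    t1 (by linarith) (by norm_num)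
  have e1 := eta_le (κ := (7903 / 10000)) (η := (-61 / 1000)) hτ Tn_pos Tn_lt cos_Tn (by norm_num) (by norm_num) le_Tn t2
    (by norm_num)
  have hW := h.le_W (x := (2641 / 5000)) (T0 := (1569 / 2000)) (W := (2431 / 5000)) hR0 hR2 hc (by norm_num) t1 (by norm_num) (by norm_num) (by norm_num)
    (by norm_num) (by norm_num) (by norm_num) (by norm_num) (by norm_num)
  have hr := le_R (r1 := (6651 / 10000)) hR0 hc (by norm_num) (by norm_num) (by norm_num) (by norm_num)
  rcases le_total b (133 / 100) with k1 | k1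
  · have hp := P_le hW hr (by norm_num) (bl := 1) (by norm_num) b1 (p := (2431 / 5000)) (by norm_num)
    exact neg_fin (g := (2229 / 5000)) hτ Tn_pos Tn_lt hS (by linarith) (by linarith) (show (0:ℝ) ≤ (61 / 1000) by norm_num) (by norm_num)
      b1 k1 h.P0 (by norm_num) (hp.trans (by norm_num)) (by norm_num) (show _ * _ * ((49 / 625) : ℝ) ^ 2 ≤ _ by norm_num)
  have hp := P_le hW hr (by norm_num) (bl := (133 / 100)) (by norm_num) k1 (p := (667 / 2500)) (by norm_num)
  exact neg_fin (g := (689 / 2000)) hτ Tn_pos Tn_lt hS (by linarith) (by linarith) (show (0:ℝ) ≤ (61 / 1000) by norm_num) (by norm_num)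
    k1 b2 h.P0 (by norm_num) (hp.trans (by norm_num)) (by norm_num) (show _ * _ * ((49 / 625) : ℝ) ^ 2 ≤ _ by norm_num)

theorem lvn8 (hτ : 0 < τ) (h : VD τ R b P) (t1 : (1 / 2) ≤ τ ^ 2)
    (t2 : τ ^ 2 ≤ (3 / 5)) (hR0 : 0 < R) (hR2 : R < π / 2) (hc : cos R ^ 2 ≤ (591 / 1000))
    (b1 : 1 ≤ b) (b2 : b ≤ 8 / 5) : lossJ τ (2 - b) (-P) Tn ≤ (41 / 2000) := by
  have hS := sJ_le (S := (5479 / 10000)) hτ Tn_pos Tn_lt cos_Tn t2 (by norm_num) (by norm_num)
  have e2 := eta_ge (κ := (3951 / 5000)) (η := (-163 / 2500)) hτ Tn_pos Tn_lt cos_Tn (by norm_num) (by norm_num) Tn_le (by norm_num)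
    t1 (by linarith) (by norm_num)
  have e1 := eta_le (κ := (7903 / 10000)) (η := (-509 / 10000)) hτ Tn_pos Tn_lt cos_Tn (by norm_num) (by norm_num) le_Tn t2
    (by norm_num)
  have hW := h.le_W (x := (349 / 1000)) (T0 := (4159 / 5000)) (W := (3359 / 10000)) hR0 hR2 hc (by norm_num) t1 (by norm_num) (by norm_num) (by norm_num)
    (by norm_num) (by norm_num) (by norm_num) (by norm_num) (by norm_num)
  have hr := le_R (r1 := (6937 / 10000)) hR0 hc (by norm_num) (by norm_num) (by norm_num) (by norm_num)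
  rcases le_total b (157 / 100) with k1 | k1
  · have hp := P_le hW hr (by norm_num) (bl := 1) (by norm_num) b1 (p := (3359 / 10000)) (by norm_num)
    exact neg_fin (g := (3179 / 10000)) hτ Tn_pos Tn_lt hS (by linarith) (by linarith) (show (0:ℝ) ≤ (509 / 10000) by norm_num) (by norm_num)
      b1 k1 h.P0 (by norm_num) (hp.trans (by norm_num)) (by norm_num) (show _ * _ * ((163 / 2500) : ℝ) ^ 2 ≤ _ by norm_num)
  exact absurd (P_le hW hr (by norm_num) (bl := (157 / 100)) (by norm_num) k1 (p := (-59509 / 1000000)) (by norm_num)) (not_le.2 (lt_of_lt_of_le (by norm_num) h.P0))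

theorem lvn9 (hτ : 0 < τ) (h : VD τ R b P) (t1 : (3 / 5) ≤ τ ^ 2)
    (t2 : τ ^ 2 ≤ (13 / 20)) (hR0 : 0 < R) (hR2 : R < π / 2) (hc : cos R ^ 2 ≤ (143 / 250))
    (b1 : 1 ≤ b) (b2 : b ≤ 8 / 5) : lossJ τ (2 - b) (-P) Tn ≤ (19 / 1000) := by
  have hS := sJ_le (S := (5659 / 10000)) hτ Tn_pos Tn_lt cos_Tn t2 (by norm_num) (by norm_num)
  have e2 := eta_ge (κ := (3951 / 5000)) (η := (-71 / 1250)) hτ Tn_pos Tn_lt cos_Tn (by norm_num) (by norm_num) Tn_le (by norm_num)
    t1 (by linarith) (by norm_num)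
  have e1 := eta_le (κ := (7903 / 10000)) (η := (-229 / 5000)) hτ Tn_pos Tn_lt cos_Tn (by norm_num) (by norm_num) le_Tn t2
    (by norm_num)
  have hW := h.le_W (x := (2567 / 10000)) (T0 := (173 / 200)) (W := (2513 / 10000)) hR0 hR2 hc (by norm_num) t1 (by norm_num) (by norm_num) (by norm_num)
    (by norm_num) (by norm_num) (by norm_num) (by norm_num) (by norm_num)
  have hr := le_R (r1 := (713 / 1000)) hR0 hc (by norm_num) (by norm_num) (by norm_num) (by norm_num)
  have hp := P_le hW hr (by norm_num) (bl := 1) (by norm_num) b1 (p := (2513 / 10000)) (by norm_num)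
  exact neg_fin (g := (363 / 1250)) hτ Tn_pos Tn_lt hS (by linarith) (by linarith) (show (0:ℝ) ≤ (229 / 5000) by norm_num) (by norm_num)
    b1 b2 h.P0 (by norm_num) (hp.trans (by norm_num)) (by norm_num) (show _ * _ * ((71 / 1250) : ℝ) ^ 2 ≤ _ by norm_num)

theorem lvn10 (hτ : 0 < τ) (h : VD τ R b P) (t1 : (13 / 20) ≤ τ ^ 2)
    (t2 : τ ^ 2 ≤ 1) (hR0 : 0 < R) (hR2 : R < π / 2) (hc : cos R ^ 2 ≤ (563 / 1000))
    (b1 : 1 ≤ b) (b2 : b ≤ 8 / 5) : lossJ τ (2 - b) (-P) Tn ≤ (7 / 250) := by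
  have hS := sJ_le (S := (6669 / 10000)) hτ Tn_pos Tn_lt cos_Tn t2 (by norm_num) (by norm_num)
  have e2 := eta_ge (κ := (3951 / 5000)) (η := (-527 / 10000)) hτ Tn_pos Tn_lt cos_Tn (by norm_num) (by norm_num) Tn_le (by norm_num)
    t1 (by linarith) (by norm_num)
  have e1 := eta_le (κ := (7903 / 10000)) (η := (-13 / 1250)) hτ Tn_pos Tn_lt cos_Tn (by norm_num) (by norm_num) le_Tn t2
    (by norm_num)
  have hW := h.le_W (x := (2163 / 10000)) (T0 := (881 / 1000)) (W := (2131 / 10000)) hR0 hR2 hc (by norm_num) t1 (by norm_num) (by norm_num) (by norm_num)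
    (by norm_num) (by norm_num) (by norm_num) (by norm_num) (by norm_num)
  have hr := le_R (r1 := (7221 / 10000)) hR0 hc (by norm_num) (by norm_num) (by norm_num) (by norm_num)
  have hp := P_le hW hr (by norm_num) (bl := 1) (by norm_num) b1 (p := (2131 / 10000)) (by norm_num)
  exact neg_fin (g := (203 / 625)) hτ Tn_pos Tn_lt hS (by linarith) (by linarith) (show (0:ℝ) ≤ (13 / 1250) by norm_num) (by norm_num)
    b1 b2 h.P0 (by norm_num) (hp.trans (by norm_num)) (by norm_num) (show _ * _ * ((527 / 10000) : ℝ) ^ 2 ≤ _ by norm_num)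

end Pool.Agent.S3.Ls
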