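import Pool.Agent.S3.Ls.A1
import Pool.Agent.S3.Ls.A2
import Pool.Agent.S3.Ls.A3
import Pool.Agent.S3.Ls.A4

/-!
# The loss of an inner vertex of multiplicity two at the test points `Tp`, `Tn`

`Ed τ R ρ2 b P`: the data of a slot `(b, P)`, `0 ≤ P`, of a vertex of multiplicity two whose
modulus is at least `√ρ2`. `Lp22`, `Lp23`, `Ln` are the bounds of the loss.
-/

set_option autoImplicit false

namespace Pool.Agent.S3.Ls

open Real

/-- The bounds of the loss at `Tp`, neighbour of multiplicity two. -/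
def Lp22 (t l : ℝ) : Prop :=
  l ≤ 33 / 1000 ∧ (1 / 2 ≤ t → l ≤ 225 / 10000) ∧ (3 / 5 ≤ t → t ≤ 7 / 10 → l ≤ 21 / 1000) ∧
    (t < 1 / 2 → l ≤ 30 / 1000)

/-- The bounds of the loss at `Tp`, neighbour of multiplicity at least three. -/
def Lp23 (t l : ℝ) : Prop :=
  l ≤ 36 / 1000 ∧ (13 / 20 ≤ t → l ≤ 32 / 1000) ∧ (7 / 10 ≤ t → l ≤ 28 / 1000) ∧
    (7 / 10 ≤ t → t ≤ 3 / 4 → l ≤ 25 / 1000) ∧ (3 / 4 < t → l ≤ 24 / 1000)

/-- The bounds of the loss at `Tn`. -/
def Ln (t l : ℝ) : Prop :=
  l ≤ 28 / 1000 ∧ (t < 1 / 2 → l ≤ 24 / 1000) ∧ (1 / 2 ≤ t → t ≤ 13 / 20 → l ≤ 205 / 10000) ∧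
    (3 / 5 ≤ t → t ≤ 13 / 20 → l ≤ 19 / 1000)

theorem Lp22.to23 {t l : ℝ} (h : Lp22 t l) : Lp23 t l :=
  ⟨h.1.trans (by norm_num), fun k => (h.2.1 (by linarith)).trans (by norm_num),
    fun k => (h.2.1 (by linarith)).trans (by norm_num),
    fun k _ => (h.2.1 (by linarith)).trans (by norm_num),
    fun k => (h.2.1 (by linarith)).trans (by norm_num)⟩

/-- The data of a slot `(b, P)` with `0 ≤ P`. -/
structure Ed (τ R ρ2 b P : ℝ) : Prop where
  τ0 : 0 < τ
  τ1 : τ ^ 2 ≤ 1
  R0 : 0 < R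
  R2 : R < π / 2
  low : Low (τ ^ 2) (cos R ^ 2)
  b0 : 2 / 5 ≤ b
  b1 : b ≤ 8 / 5
  sl : SlD τ R ρ2 b P
  vd : 1 ≤ b → VD τ R b P

variable {τ R b P ρ2 : ℝ}

theorem Ed.cu (h : Ed τ R ρ2 b P) {tl cu : ℝ} (t0 : 0 ≤ tl) (h1 : tl ≤ τ ^ 2)
    (hcu : 1 / 2 ≤ cu) (num : 2 - 2 * cu + 2 * tl * cu < cu * (1 + tl) * (1 + 2 * tl * cu)) :
    cos R ^ 2 ≤ cu := h.low.le t0 h1 h.τ1 hcu num

theorem lp22a (h : Ed τ R (289 / 625) b P) (hb : b ≤ 1) : Lp22 (τ ^ 2) (lossJ τ b P Tp) := by
  rcases lt_or_ge (τ ^ 2) (1 / 10) with j1 | j1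
  · have hl := lpa0 h.τ0 h.sl (sq_nonneg τ) j1.le h.R0 h.R2
        (h.cu (by norm_num) (sq_nonneg τ) (by norm_num) (by norm_num)) h.b0 hb
    exact ⟨by linarith, fun k => by linarith, fun k k' => by linarith, fun k => by linarith⟩
  rcases lt_or_ge (τ ^ 2) (3 / 20) with j2 | j2
  · have hl := lpa1 h.τ0 h.sl j1 j2.le h.R0 h.R2
        (h.cu (by norm_num) j1 (by norm_num) (by norm_num)) h.b0 hb
    exact ⟨by linarith, fun k => by linarith, fun k k' => by linarith, fun k => by linarith⟩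
  rcases lt_or_ge (τ ^ 2) (1 / 5) with j3 | j3
  · have hl := lpa2 h.τ0 h.sl j2 j3.le h.R0 h.R2
        (h.cu (by norm_num) j2 (by norm_num) (by norm_num)) h.b0 hb
    exact ⟨by linarith, fun k => by linarith, fun k k' => by linarith, fun k => by linarith⟩
  rcases lt_or_ge (τ ^ 2) (1 / 4) with j4 | j4
  · have hl := lpa3 h.τ0 h.sl j3 j4.le h.R0 h.R2
        (h.cu (by norm_num) j3 (by norm_num) (by norm_num)) h.b0 hb
    exact ⟨by linarith, fun k => by linarith, fun k k' => by linarith, fun k => by linarith⟩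
  rcases lt_or_ge (τ ^ 2) (3 / 10) with j5 | j5
  · have hl := lpa4 h.τ0 h.sl j4 j5.le h.R0 h.R2
        (h.cu (by norm_num) j4 (by norm_num) (by norm_num)) h.b0 hb
    exact ⟨by linarith, fun k => by linarith, fun k k' => by linarith, fun k => by linarith⟩
  rcases lt_or_ge (τ ^ 2) (7 / 20) with j6 | j6
  · have hl := lpa5 h.τ0 h.sl j5 j6.le h.R0 h.R2
        (h.cu (by norm_num) j5 (by norm_num) (by norm_num)) h.b0 hb
    exact ⟨by linarith, fun k => by linarith, fun k k' => by linarith, fun k => by linarith⟩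
  rcases lt_or_ge (τ ^ 2) (2 / 5) with j7 | j7
  · have hl := lpa6 h.τ0 h.sl j6 j7.le h.R0 h.R2
        (h.cu (by norm_num) j6 (by norm_num) (by norm_num)) h.b0 hb
    exact ⟨by linarith, fun k => by linarith, fun k k' => by linarith, fun k => by linarith⟩
  rcases lt_or_ge (τ ^ 2) (1 / 2) with j8 | j8
  · have hl := lpa7 h.τ0 h.sl j7 j8.le h.R0 h.R2
        (h.cu (by norm_num) j7 (by norm_num) (by norm_num)) h.b0 hb
    exact ⟨by linarith, fun k => by linarith, fun k k' => by linarith, fun k => by linarith⟩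
  rcases lt_or_ge (τ ^ 2) (11 / 20) with j9 | j9
  · have hl := lpa8 h.τ0 h.sl j8 j9.le h.R0 h.R2
        (h.cu (by norm_num) j8 (by norm_num) (by norm_num)) h.b0 hb
    exact ⟨by linarith, fun k => by linarith, fun k k' => by linarith, fun k => by linarith⟩
  rcases lt_or_ge (τ ^ 2) (3 / 5) with j10 | j10
  · have hl := lpa9 h.τ0 h.sl j9 j10.le h.R0 h.R2
        (h.cu (by norm_num) j9 (by norm_num) (by norm_num)) h.b0 hb
    exact ⟨by linarith, fun k => by linarith, fun k k' => by linarith, fun k => by linarith⟩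
  rcases lt_or_ge (τ ^ 2) (13 / 20) with j11 | j11
  · have hl := lpa10 h.τ0 h.sl j10 j11.le h.R0 h.R2
        (h.cu (by norm_num) j10 (by norm_num) (by norm_num)) h.b0 hb
    exact ⟨by linarith, fun k => by linarith, fun k k' => by linarith, fun k => by linarith⟩
  rcases le_or_gt (τ ^ 2) (7 / 10) with j12 | j12
  · have hl := lpa11 h.τ0 h.sl j11 j12 h.R0 h.R2
        (h.cu (by norm_num) j11 (by norm_num) (by norm_num)) h.b0 hb
    exact ⟨by linarith, fun k => by linarith, fun k k' => by linarith, fun k => by linarith⟩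
  rcases lt_or_ge (τ ^ 2) (4 / 5) with j13 | j13
  · have hl := lpa12 h.τ0 h.sl j12.le j13.le h.R0 h.R2
        (h.cu (by norm_num) j12.le (by norm_num) (by norm_num)) h.b0 hb
    exact ⟨by linarith, fun k => by linarith, fun k k' => by linarith, fun k => by linarith⟩
  have hl := lpa13 h.τ0 h.sl j13 h.τ1 h.R0 h.R2
        (h.cu (by norm_num) j13 (by norm_num) (by norm_num)) h.b0 hb
  exact ⟨by linarith, fun k => by linarith, fun k k' => by linarith, fun k => by linarith⟩

theorem lp22b (h : Ed τ R ρ2 b P) (hb : 1 ≤ b) : Lp22 (τ ^ 2) (lossJ τ b P Tp) := by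
  rcases lt_or_ge (τ ^ 2) (1 / 10) with j1 | j1
  · have hl := lvp0 h.τ0 (h.vd hb) (sq_nonneg τ) j1.le h.R0 h.R2
        (h.cu (by norm_num) (sq_nonneg τ) (by norm_num) (by norm_num)) hb h.b1
    exact ⟨by linarith, fun k => by linarith, fun k k' => by linarith, fun k => by linarith⟩
  rcases lt_or_ge (τ ^ 2) (1 / 5) with j2 | j2
  · have hl := lvp1 h.τ0 (h.vd hb) j1 j2.le h.R0 h.R2
        (h.cu (by norm_num) j1 (by norm_num) (by norm_num)) hb h.b1
    exact ⟨by linarith, fun k => by linarith, fun k k' => by linarith, fun k => by linarith⟩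
  rcases lt_or_ge (τ ^ 2) (1 / 2) with j3 | j3
  · have hl := lvp2 h.τ0 (h.vd hb) j2 j3.le h.R0 h.R2
        (h.cu (by norm_num) j2 (by norm_num) (by norm_num)) hb h.b1
    exact ⟨by linarith, fun k => by linarith, fun k k' => by linarith, fun k => by linarith⟩
  rcases lt_or_ge (τ ^ 2) (3 / 5) with j4 | j4
  · have hl := lvp3 h.τ0 (h.vd hb) j3 j4.le h.R0 h.R2
        (h.cu (by norm_num) j3 (by norm_num) (by norm_num)) hb h.b1
    exact ⟨by linarith, fun k => by linarith, fun k k' => by linarith, fun k => by linarith⟩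
  rcases le_or_gt (τ ^ 2) (7 / 10) with j5 | j5
  · have hl := lvp4 h.τ0 (h.vd hb) j4 j5 h.R0 h.R2
        (h.cu (by norm_num) j4 (by norm_num) (by norm_num)) hb h.b1
    exact ⟨by linarith, fun k => by linarith, fun k k' => by linarith, fun k => by linarith⟩
  rcases lt_or_ge (τ ^ 2) (3 / 4) with j6 | j6
  · have hl := lvp5 h.τ0 (h.vd hb) j5.le j6.le h.R0 h.R2
        (h.cu (by norm_num) j5.le (by norm_num) (by norm_num)) hb h.b1
    exact ⟨by linarith, fun k => by linarith, fun k k' => by linarith, fun k => by linarith⟩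
  have hl := lvp6 h.τ0 (h.vd hb) j6 h.τ1 h.R0 h.R2
        (h.cu (by norm_num) j6 (by norm_num) (by norm_num)) hb h.b1
  exact ⟨by linarith, fun k => by linarith, fun k k' => by linarith, fun k => by linarith⟩

/-- **The loss at `Tp`, neighbour of multiplicity two.** -/
theorem lp22 (h : Ed τ R (289 / 625) b P) : Lp22 (τ ^ 2) (lossJ τ b P Tp) :=
  (le_total b 1).elim (lp22a h) (lp22b h)

theorem lp23a (h : Ed τ R (3969 / 10000) b P) (hb : b ≤ 1) :
    Lp23 (τ ^ 2) (lossJ τ b P Tp) := by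
  rcases lt_or_ge (τ ^ 2) (1 / 10) with j1 | j1
  · have hl := lpb0 h.τ0 h.sl (sq_nonneg τ) j1.le h.R0 h.R2
        (h.cu (by norm_num) (sq_nonneg τ) (by norm_num) (by norm_num)) h.b0 hb
    exact ⟨by linarith, fun k => by linarith, fun k => by linarith, fun k k' => by linarith,
      fun k => by linarith⟩
  rcases lt_or_ge (τ ^ 2) (3 / 20) with j2 | j2
  · have hl := lpb1 h.τ0 h.sl j1 j2.le h.R0 h.R2
        (h.cu (by norm_num) j1 (by norm_num) (by norm_num)) h.b0 hb
    exact ⟨by linarith, fun k => by linarith, fun k => by linarith, fun k k' => by linarith,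
      fun k => by linarith⟩
  rcases lt_or_ge (τ ^ 2) (1 / 5) with j3 | j3
  · have hl := lpb2 h.τ0 h.sl j2 j3.le h.R0 h.R2
        (h.cu (by norm_num) j2 (by norm_num) (by norm_num)) h.b0 hb
    exact ⟨by linarith, fun k => by linarith, fun k => by linarith, fun k k' => by linarith,
      fun k => by linarith⟩
  rcases lt_or_ge (τ ^ 2) (1 / 4) with j4 | j4
  · have hl := lpb3 h.τ0 h.sl j3 j4.le h.R0 h.R2
        (h.cu (by norm_num) j3 (by norm_num) (by norm_num)) h.b0 hb
    exact ⟨by linarith, fun k => by linarith, fun k => by linarith, fun k k' => by linarith,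
      fun k => by linarith⟩
  rcases lt_or_ge (τ ^ 2) (3 / 10) with j5 | j5
  · have hl := lpb4 h.τ0 h.sl j4 j5.le h.R0 h.R2
        (h.cu (by norm_num) j4 (by norm_num) (by norm_num)) h.b0 hb
    exact ⟨by linarith, fun k => by linarith, fun k => by linarith, fun k k' => by linarith,
      fun k => by linarith⟩
  rcases lt_or_ge (τ ^ 2) (7 / 20) with j6 | j6
  · have hl := lpb5 h.τ0 h.sl j5 j6.le h.R0 h.R2
        (h.cu (by norm_num) j5 (by norm_num) (by norm_num)) h.b0 hb
    exact ⟨by linarith, fun k => by linarith, fun k => by linarith, fun k k' => by linarith,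
      fun k => by linarith⟩
  rcases lt_or_ge (τ ^ 2) (2 / 5) with j7 | j7
  · have hl := lpb6 h.τ0 h.sl j6 j7.le h.R0 h.R2
        (h.cu (by norm_num) j6 (by norm_num) (by norm_num)) h.b0 hb
    exact ⟨by linarith, fun k => by linarith, fun k => by linarith, fun k k' => by linarith,
      fun k => by linarith⟩
  rcases lt_or_ge (τ ^ 2) (1 / 2) with j8 | j8
  · have hl := lpb7 h.τ0 h.sl j7 j8.le h.R0 h.R2
        (h.cu (by norm_num) j7 (by norm_num) (by norm_num)) h.b0 hb
    exact ⟨by linarith, fun k => by linarith, fun k => by linarith, fun k k' => by linarith,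
      fun k => by linarith⟩
  rcases lt_or_ge (τ ^ 2) (13 / 20) with j9 | j9
  · have hl := lpb8 h.τ0 h.sl j8 j9.le h.R0 h.R2
        (h.cu (by norm_num) j8 (by norm_num) (by norm_num)) h.b0 hb
    exact ⟨by linarith, fun k => by linarith, fun k => by linarith, fun k k' => by linarith,
      fun k => by linarith⟩
  rcases lt_or_ge (τ ^ 2) (7 / 10) with j10 | j10
  · have hl := lpb9 h.τ0 h.sl j9 j10.le h.R0 h.R2
        (h.cu (by norm_num) j9 (by norm_num) (by norm_num)) h.b0 hb
    exact ⟨by linarith, fun k => by linarith, fun k => by linarith, fun k k' => by linarith,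
      fun k => by linarith⟩
  rcases lt_or_ge (τ ^ 2) (29 / 40) with j11 | j11
  · have hl := lpb10 h.τ0 h.sl j10 j11.le h.R0 h.R2
        (h.cu (by norm_num) j10 (by norm_num) (by norm_num)) h.b0 hb
    exact ⟨by linarith, fun k => by linarith, fun k => by linarith, fun k k' => by linarith,
      fun k => by linarith⟩
  rcases le_or_gt (τ ^ 2) (3 / 4) with j12 | j12
  · have hl := lpb11 h.τ0 h.sl j11 j12 h.R0 h.R2
        (h.cu (by norm_num) j11 (by norm_num) (by norm_num)) h.b0 hb
    exact ⟨by linarith, fun k => by linarith, fun k => by linarith, fun k k' => by linarith,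
      fun k => by linarith⟩
  rcases lt_or_ge (τ ^ 2) (31 / 40) with j13 | j13
  · have hl := lpb12 h.τ0 h.sl j12.le j13.le h.R0 h.R2
        (h.cu (by norm_num) j12.le (by norm_num) (by norm_num)) h.b0 hb
    exact ⟨by linarith, fun k => by linarith, fun k => by linarith, fun k k' => by linarith,
      fun k => by linarith⟩
  rcases lt_or_ge (τ ^ 2) (4 / 5) with j14 | j14
  · have hl := lpb13 h.τ0 h.sl j13 j14.le h.R0 h.R2
        (h.cu (by norm_num) j13 (by norm_num) (by norm_num)) h.b0 hb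
    exact ⟨by linarith, fun k => by linarith, fun k => by linarith, fun k k' => by linarith,
      fun k => by linarith⟩
  rcases lt_or_ge (τ ^ 2) (17 / 20) with j15 | j15
  · have hl := lpb14 h.τ0 h.sl j14 j15.le h.R0 h.R2
        (h.cu (by norm_num) j14 (by norm_num) (by norm_num)) h.b0 hb
    exact ⟨by linarith, fun k => by linarith, fun k => by linarith, fun k k' => by linarith,
      fun k => by linarith⟩
  rcases lt_or_ge (τ ^ 2) (9 / 10) with j16 | j16
  · have hl := lpb15 h.τ0 h.sl j15 j16.le h.R0 h.R2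
        (h.cu (by norm_num) j15 (by norm_num) (by norm_num)) h.b0 hb
    exact ⟨by linarith, fun k => by linarith, fun k => by linarith, fun k k' => by linarith,
      fun k => by linarith⟩
  have hl := lpb16 h.τ0 h.sl j16 h.τ1 h.R0 h.R2
        (h.cu (by norm_num) j16 (by norm_num) (by norm_num)) h.b0 hb
  exact ⟨by linarith, fun k => by linarith, fun k => by linarith, fun k k' => by linarith,
      fun k => by linarith⟩

/-- **The loss at `Tp`.** -/
theorem lp23 (h : Ed τ R (3969 / 10000) b P) : Lp23 (τ ^ 2) (lossJ τ b P Tp) :=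
  (le_total b 1).elim (lp23a h) (fun k => (lp22b h k).to23)

theorem lna (h : Ed τ R (3969 / 10000) b P) (hb : b ≤ 1) :
    Ln (τ ^ 2) (lossJ τ (2 - b) (-P) Tn) := by
  rcases lt_or_ge (τ ^ 2) (1 / 5) with j1 | j1
  · have hl := lna0 h.τ0 h.sl (sq_nonneg τ) j1.le h.R0 h.R2
        (h.cu (by norm_num) (sq_nonneg τ) (by norm_num) (by norm_num)) h.b0 hb
    exact ⟨by linarith, fun k => by linarith, fun k k' => by linarith, fun k k' => by linarith⟩
  rcases lt_or_ge (τ ^ 2) (7 / 20) with j2 | j2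
  · have hl := lna1 h.τ0 h.sl j1 j2.le h.R0 h.R2
        (h.cu (by norm_num) j1 (by norm_num) (by norm_num)) h.b0 hb
    exact ⟨by linarith, fun k => by linarith, fun k k' => by linarith, fun k k' => by linarith⟩
  rcases lt_or_ge (τ ^ 2) (1 / 2) with j3 | j3
  · have hl := lna2 h.τ0 h.sl j2 j3.le h.R0 h.R2
        (h.cu (by norm_num) j2 (by norm_num) (by norm_num)) h.b0 hb
    exact ⟨by linarith, fun k => by linarith, fun k k' => by linarith, fun k k' => by linarith⟩
  rcases lt_or_ge (τ ^ 2) (3 / 5) with j4 | j4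
  · have hl := lna3 h.τ0 h.sl j3 j4.le h.R0 h.R2
        (h.cu (by norm_num) j3 (by norm_num) (by norm_num)) h.b0 hb
    exact ⟨by linarith, fun k => by linarith, fun k k' => by linarith, fun k k' => by linarith⟩
  rcases le_or_gt (τ ^ 2) (13 / 20) with j5 | j5
  · have hl := lna4 h.τ0 h.sl j4 j5 h.R0 h.R2
        (h.cu (by norm_num) j4 (by norm_num) (by norm_num)) h.b0 hb
    exact ⟨by linarith, fun k => by linarith, fun k k' => by linarith, fun k k' => by linarith⟩
  rcases lt_or_ge (τ ^ 2) (4 / 5) with j6 | j6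
  · have hl := lna5 h.τ0 h.sl j5.le j6.le h.R0 h.R2
        (h.cu (by norm_num) j5.le (by norm_num) (by norm_num)) h.b0 hb
    exact ⟨by linarith, fun k => by linarith, fun k k' => by linarith, fun k k' => by linarith⟩
  have hl := lna6 h.τ0 h.sl j6 h.τ1 h.R0 h.R2
        (h.cu (by norm_num) j6 (by norm_num) (by norm_num)) h.b0 hb
  exact ⟨by linarith, fun k => by linarith, fun k k' => by linarith, fun k k' => by linarith⟩

theorem lnb (h : Ed τ R ρ2 b P) (hb : 1 ≤ b) :
    Ln (τ ^ 2) (lossJ τ (2 - b) (-P) Tn) := by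
  rcases lt_or_ge (τ ^ 2) (1 / 20) with j1 | j1
  · have hl := lvn0 h.τ0 (h.vd hb) (sq_nonneg τ) j1.le h.R0 h.R2
        (h.cu (by norm_num) (sq_nonneg τ) (by norm_num) (by norm_num)) hb h.b1
    exact ⟨by linarith, fun k => by linarith, fun k k' => by linarith, fun k k' => by linarith⟩
  rcases lt_or_ge (τ ^ 2) (2 / 25) with j2 | j2
  · have hl := lvn1 h.τ0 (h.vd hb) j1 j2.le h.R0 h.R2
        (h.cu (by norm_num) j1 (by norm_num) (by norm_num)) hb h.b1
    exact ⟨by linarith, fun k => by linarith, fun k k' => by linarith, fun k k' => by linarith⟩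
  rcases lt_or_ge (τ ^ 2) (11 / 100) with j3 | j3
  · have hl := lvn2 h.τ0 (h.vd hb) j2 j3.le h.R0 h.R2
        (h.cu (by norm_num) j2 (by norm_num) (by norm_num)) hb h.b1
    exact ⟨by linarith, fun k => by linarith, fun k k' => by linarith, fun k k' => by linarith⟩
  rcases lt_or_ge (τ ^ 2) (3 / 20) with j4 | j4
  · have hl := lvn3 h.τ0 (h.vd hb) j3 j4.le h.R0 h.R2
        (h.cu (by norm_num) j3 (by norm_num) (by norm_num)) hb h.b1
    exact ⟨by linarith, fun k => by linarith, fun k k' => by linarith, fun k k' => by linarith⟩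
  rcases lt_or_ge (τ ^ 2) (1 / 5) with j5 | j5
  · have hl := lvn4 h.τ0 (h.vd hb) j4 j5.le h.R0 h.R2
        (h.cu (by norm_num) j4 (by norm_num) (by norm_num)) hb h.b1
    exact ⟨by linarith, fun k => by linarith, fun k k' => by linarith, fun k k' => by linarith⟩
  rcases lt_or_ge (τ ^ 2) (27 / 100) with j6 | j6
  · have hl := lvn5 h.τ0 (h.vd hb) j5 j6.le h.R0 h.R2
        (h.cu (by norm_num) j5 (by norm_num) (by norm_num)) hb h.b1
    exact ⟨by linarith, fun k => by linarith, fun k k' => by linarith, fun k k' => by linarith⟩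
  rcases lt_or_ge (τ ^ 2) (7 / 20) with j7 | j7
  · have hl := lvn6 h.τ0 (h.vd hb) j6 j7.le h.R0 h.R2
        (h.cu (by norm_num) j6 (by norm_num) (by norm_num)) hb h.b1
    exact ⟨by linarith, fun k => by linarith, fun k k' => by linarith, fun k k' => by linarith⟩
  rcases lt_or_ge (τ ^ 2) (1 / 2) with j8 | j8
  · have hl := lvn7 h.τ0 (h.vd hb) j7 j8.le h.R0 h.R2
        (h.cu (by norm_num) j7 (by norm_num) (by norm_num)) hb h.b1
    exact ⟨by linarith, fun k => by linarith, fun k k' => by linarith, fun k k' => by linarith⟩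
  rcases lt_or_ge (τ ^ 2) (3 / 5) with j9 | j9
  · have hl := lvn8 h.τ0 (h.vd hb) j8 j9.le h.R0 h.R2
        (h.cu (by norm_num) j8 (by norm_num) (by norm_num)) hb h.b1
    exact ⟨by linarith, fun k => by linarith, fun k k' => by linarith, fun k k' => by linarith⟩
  rcases le_or_gt (τ ^ 2) (13 / 20) with j10 | j10
  · have hl := lvn9 h.τ0 (h.vd hb) j9 j10 h.R0 h.R2
        (h.cu (by norm_num) j9 (by norm_num) (by norm_num)) hb h.b1
    exact ⟨by linarith, fun k => by linarith, fun k k' => by linarith, fun k k' => by linarith⟩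
  have hl := lvn10 h.τ0 (h.vd hb) j10.le h.τ1 h.R0 h.R2
        (h.cu (by norm_num) j10.le (by norm_num) (by norm_num)) hb h.b1
  exact ⟨by linarith, fun k => by linarith, fun k k' => by linarith, fun k k' => by linarith⟩

/-- **The loss at `Tn`.** -/
theorem ln (h : Ed τ R (3969 / 10000) b P) : Ln (τ ^ 2) (lossJ τ (2 - b) (-P) Tn) :=
  (le_total b 1).elim (lna h) (lnb h)

end Pool.Agent.S3.Ls
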