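import Pool.Agent.S3.Es10
import Pool.Agent.S3.LowA

/-!
# Bounds of the loss of an inner vertex of multiplicity two: general lemmas

A slot `(b, P)` of a vertex with `sinh I = τ cos R`, `D = |tan z|²`: if its modulus is at least
`ρ` and the other one is at most `1`, then (a) and (A) of `SlD` hold. `pieceA`, `piecea` bound `P`
on a piece `bl ≤ b ≤ bu`; `pos_fin`, `neg_fin` turn the bound of `P` into a bound of the loss.
-/

set_option autoImplicit false

namespace Pool.Agent.S3.Ls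

open Real

theorem fJ_ge' {J : ℝ} (hJ : 0 ≤ J) :
    sinh J * (1 + sinh J ^ 2 / 3 - 2 * sinh J ^ 4 / 15) ≤ J * cosh J := by
  have g : ∀ x : ℝ, 0 ≤ x → sinh x * cosh x * (1 - 2 * sinh x ^ 2 / 3) ≤ x := by
    intro x hx
    have h := LowA_pos (b := x)
      (f := fun x => x - sinh x * cosh x * (1 - 2 * sinh x ^ 2 / 3))
      (f' := fun x => 8 * sinh x ^ 4 / 3)
      (fun x _ _ => by
        have k := Real.hasDerivAt_sinh x
        have k' := Real.hasDerivAt_cosh x
        have h1 := (hasDerivAt_id' x).sub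
          ((k.mul k').mul ((((k.pow 2).const_mul 2).div_const 3).const_sub 1))
        refine h1.congr_deriv ?_
        have c2 := Real.cosh_sq x
        simp only [Nat.cast_ofNat, Pi.pow_apply, Pi.mul_apply]
        have : cosh x ^ 2 = sinh x ^ 2 + 1 := c2
        ring_nf
        rw [this]
        ring)
      (by simp) (fun x hx _ => by positivity) hx le_rfl
    linarith
  have h := LowA_pos (b := J)
    (f := fun x => x * cosh x - sinh x * (1 + sinh x ^ 2 / 3 - 2 * sinh x ^ 4 / 15))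
    (f' := fun x => sinh x * (x - sinh x * cosh x * (1 - 2 * sinh x ^ 2 / 3)))
    (fun x _ _ => by
      have k := Real.hasDerivAt_sinh x
      have h1 := ((hasDerivAt_id' x).mul (Real.hasDerivAt_cosh x)).sub
        (k.mul ((((k.pow 2).div_const 3).const_add 1).sub (((k.pow 4).const_mul 2).div_const 15)))
      refine h1.congr_deriv ?_
      simp only [Nat.cast_ofNat, Pi.pow_apply, Pi.sub_apply]
      ring)
    (by simp) (fun x hx _ => mul_nonneg (sinh_nonneg_iff.2 hx) (by linarith [g x hx])) hJ le_rfl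
  linarith

/-- `|tan z|²` for `sinh I = √t cos R`. -/
noncomputable def DD (t R : ℝ) : ℝ := 1 + (1 / cos R ^ 2 - 2) / (1 + t)

/-- The data of a slot: modulus at least `√ρ2`, the other modulus at most `1`. -/
structure SlD (τ R ρ2 b P : ℝ) : Prop where
  P0 : 0 ≤ P
  P1 : P + b * R ≤ π / 2
  a : ρ2 * DD (τ ^ 2) R ≤ cos (P + b * R) ^ 2 + sinh (b * hJ τ R) ^ 2
  A : sin (2 * R) * sin (2 * (P - (1 - b) * R)) +
    sinh (2 * hJ τ R) * sinh (2 * (1 - b) * hJ τ R) ≤ DD (τ ^ 2) R * (1 - ρ2)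

/-- Bounds for `R ≤ r0`. -/
structure RA (τ R r0 al Il El Du : ℝ) : Prop where
  R0 : 0 < R
  R1 : R ≤ r0
  R2 : R < π / 2
  al0 : 0 ≤ al
  a : al ≤ sin (2 * R)
  Il0 : 0 ≤ Il
  I : Il ≤ hJ τ R
  El0 : 0 ≤ El
  E : El ≤ sinh (2 * hJ τ R)
  D : DD (τ ^ 2) R ≤ Du

/-- Bounds for `r0 ≤ R`. -/
structure Ra (τ R r0 Iu Dl : ℝ) : Prop where
  R1 : r0 ≤ R
  R2 : R < π / 2
  r0 : 0 ≤ r0
  I0 : 0 ≤ hJ τ R
  I : hJ τ R ≤ Iu
  D : Dl ≤ DD (τ ^ 2) R

section

variable {τ R r0 al Il El Du Iu Dl ρ2 b P bl bu p F c s T S η η' g lam : ℝ}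

theorem sin_quint {x : ℝ} (hx : 0 ≤ x) : sin x ≤ x - x ^ 3 / 6 + x ^ 5 / 120 := by
  have c4 : ∀ y : ℝ, 0 ≤ y → cos y ≤ 1 - y ^ 2 / 2 + y ^ 4 / 24 := fun y hy => by
    have h := LowA_pos (b := y)
      (f := fun x => 1 - x ^ 2 / 2 + x ^ 4 / 24 - cos x)
      (f' := fun x => sin x - (x - x ^ 3 / 6))
      (fun x _ _ => by
        have h1 := (((((hasDerivAt_id' x).pow 2).div_const 2).const_sub 1).add
          (((hasDerivAt_id' x).pow 4).div_const 24)).sub (Real.hasDerivAt_cos x)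
        refine h1.congr_deriv ?_
        simp only [Nat.cast_ofNat]
        ring)
      (by simp) (fun x hx _ => by linarith [Real.sin_ge_sub_cube hx]) hy le_rfl
    linarith
  have h := LowA_pos (b := x)
    (f := fun x => x - x ^ 3 / 6 + x ^ 5 / 120 - sin x)
    (f' := fun x => 1 - x ^ 2 / 2 + x ^ 4 / 24 - cos x)
    (fun x _ _ => by
      have h1 := (((hasDerivAt_id' x).sub (((hasDerivAt_id' x).pow 3).div_const 6)).add
        (((hasDerivAt_id' x).pow 5).div_const 120)).sub (Real.hasDerivAt_sin x)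
      refine h1.congr_deriv ?_
      simp only [Nat.cast_ofNat]
      ring)
    (by simp) (fun x hx _ => by linarith [c4 x hx]) hx le_rfl
  linarith

theorem cos_sext {x : ℝ} (hx : 0 ≤ x) : 1 - x ^ 2 / 2 + x ^ 4 / 24 - x ^ 6 / 720 ≤ cos x := by
  have h := LowA_pos (b := x)
    (f := fun x => cos x - (1 - x ^ 2 / 2 + x ^ 4 / 24 - x ^ 6 / 720))
    (f' := fun x => x - x ^ 3 / 6 + x ^ 5 / 120 - sin x)
    (fun x _ _ => by
      have h1 := (Real.hasDerivAt_cos x).sub (((((hasDerivAt_id' x).pow 2).div_const 2).const_sub 1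
        |>.add (((hasDerivAt_id' x).pow 4).div_const 24)).sub
        (((hasDerivAt_id' x).pow 6).div_const 720))
      refine h1.congr_deriv ?_
      simp only [Nat.cast_ofNat]
      ring)
    (by simp) (fun x hx _ => by linarith [sin_quint hx]) hx le_rfl
  linarith

theorem cos_oct {x : ℝ} (hx : 0 ≤ x) :
    cos x ≤ 1 - x ^ 2 / 2 + x ^ 4 / 24 - x ^ 6 / 720 + x ^ 8 / 40320 := by
  have s7 : ∀ y : ℝ, 0 ≤ y → y - y ^ 3 / 6 + y ^ 5 / 120 - y ^ 7 / 5040 ≤ sin y := fun y hy => by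
    have h := LowA_pos (b := y)
      (f := fun x => sin x - (x - x ^ 3 / 6 + x ^ 5 / 120 - x ^ 7 / 5040))
      (f' := fun x => cos x - (1 - x ^ 2 / 2 + x ^ 4 / 24 - x ^ 6 / 720))
      (fun x _ _ => by
        have h1 := (Real.hasDerivAt_sin x).sub (((hasDerivAt_id' x).sub
          (((hasDerivAt_id' x).pow 3).div_const 6) |>.add
          (((hasDerivAt_id' x).pow 5).div_const 120)).sub
          (((hasDerivAt_id' x).pow 7).div_const 5040))
        refine h1.congr_deriv ?_
        simp only [Nat.cast_ofNat]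
        ring)
      (by simp) (fun x hx _ => by linarith [cos_sext hx]) hy le_rfl
    linarith
  have h := LowA_pos (b := x)
    (f := fun x => 1 - x ^ 2 / 2 + x ^ 4 / 24 - x ^ 6 / 720 + x ^ 8 / 40320 - cos x)
    (f' := fun x => sin x - (x - x ^ 3 / 6 + x ^ 5 / 120 - x ^ 7 / 5040))
    (fun x _ _ => by
      have h1 := (((((hasDerivAt_id' x).pow 2).div_const 2).const_sub 1 |>.add
        (((hasDerivAt_id' x).pow 4).div_const 24)).sub
        (((hasDerivAt_id' x).pow 6).div_const 720) |>.add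
        (((hasDerivAt_id' x).pow 8).div_const 40320)).sub (Real.hasDerivAt_cos x)
      refine h1.congr_deriv ?_
      simp only [Nat.cast_ofNat]
      ring)
    (by simp) (fun x hx _ => by linarith [s7 x hx]) hx le_rfl
  linarith

theorem sinh_cubic {x : ℝ} (hx : 0 ≤ x) : x + x ^ 3 / 6 ≤ sinh x := by
  have c : ∀ y : ℝ, 0 ≤ y → 1 + y ^ 2 / 2 ≤ cosh y := fun y hy => by
    have h := LowA_pos (b := y)
      (f := fun x => cosh x - (1 + x ^ 2 / 2))
      (f' := fun x => sinh x - x)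
      (fun x _ _ => by
        have h1 := (Real.hasDerivAt_cosh x).sub
          ((((hasDerivAt_id' x).pow 2).div_const 2).const_add 1)
        refine h1.congr_deriv ?_
        simp only [Nat.cast_ofNat]
        ring)
      (by simp) (fun x hx _ => by linarith [Real.self_le_sinh_iff.2 hx]) hy le_rfl
    linarith
  have h := LowA_pos (b := x)
    (f := fun x => sinh x - (x + x ^ 3 / 6))
    (f' := fun x => cosh x - (1 + x ^ 2 / 2))
    (fun x _ _ => by
      have h1 := (Real.hasDerivAt_sinh x).sub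
        ((hasDerivAt_id' x).add (((hasDerivAt_id' x).pow 3).div_const 6))
      refine h1.congr_deriv ?_
      simp only [Nat.cast_ofNat]
      ring)
    (by simp) (fun x hx _ => by linarith [c x hx]) hx le_rfl
  linarith

/-- `sinh x ≤ x + x³/6 + x⁵/100` for `0 ≤ x ≤ 1`. -/
theorem sinh_upper {x : ℝ} (hx : 0 ≤ x) (h1 : x ≤ 1) : sinh x ≤ x + x ^ 3 / 6 + x ^ 5 / 100 := by
  -- third and second derivatives
  have a1 : ∀ y : ℝ, 0 ≤ y → y ≤ 1 → sinh y ≤ 6 / 5 * y := by
    intro y hy hy1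
    have k1 : ∀ z : ℝ, 0 ≤ z → z ≤ 1 → cosh z ≤ 8 / 5 := by
      intro z hz hz1
      have : cosh z ≤ cosh 1 := by
        rw [Real.cosh_le_cosh, abs_of_nonneg hz, abs_of_pos one_pos]; exact hz1
      refine this.trans ?_
      rw [Real.cosh_eq]
      have e1 := Real.exp_one_lt_d9
      have e2 : Real.exp (-1) ≤ 37 / 100 := by
        rw [Real.exp_neg, inv_le_comm₀ (Real.exp_pos 1) (by norm_num)]
        have := Real.exp_one_gt_d9
        linarith
      linarith
    -- convexity on [0, 1]: sinh y ≤ y sinh 1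
    have cv : ConvexOn ℝ (Set.Ici 0) sinh := by
      apply convexOn_of_deriv2_nonneg (convex_Ici 0) Real.continuous_sinh.continuousOn
        (Real.differentiable_sinh.differentiableOn)
      · simp only [Real.deriv_sinh]
        exact Real.differentiable_cosh.differentiableOn
      · intro z hz
        rw [interior_Ici] at hz
        have : deriv^[2] sinh z = sinh z := by simp [Real.deriv_sinh, Real.deriv_cosh]
        rw [this]
        exact (Real.sinh_pos_iff.2 hz).le
    have k2 := cv.2 (Set.mem_Ici.2 le_rfl) (Set.mem_Ici.2 zero_le_one)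
      (show 0 ≤ 1 - y by linarith) hy (by ring)
    simp only [smul_eq_mul, mul_zero, mul_one, zero_add, Real.sinh_zero] at k2
    have k3 : sinh 1 ≤ 6 / 5 := by
      rw [Real.sinh_eq]
      have e1 := Real.exp_one_lt_d9
      have e2 : 36 / 100 ≤ Real.exp (-1) := by
        rw [Real.exp_neg, le_inv_comm₀ (by norm_num) (Real.exp_pos 1)]
        have := Real.exp_one_lt_d9
        linarith
      linarith
    nlinarith
  have a2 : ∀ y : ℝ, 0 ≤ y → y ≤ 1 → cosh y ≤ 1 + 3 / 5 * y ^ 2 := by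
    intro y hy hy1
    have h := LowA_pos (b := y)
      (f := fun x => 1 + 3 / 5 * x ^ 2 - cosh x)
      (f' := fun x => 6 / 5 * x - sinh x)
      (fun x _ _ => by
        have h1 := ((((hasDerivAt_id' x).pow 2).const_mul (3 / 5)).const_add 1).sub
          (Real.hasDerivAt_cosh x)
        refine h1.congr_deriv ?_
        simp only [Nat.cast_ofNat]
        ring)
      (by simp) (fun x hx hx1 => by linarith [a1 x hx (hx1.trans hy1)]) hy le_rfl
    linarith
  have a3 : ∀ y : ℝ, 0 ≤ y → y ≤ 1 → sinh y ≤ y + 1 / 5 * y ^ 3 := by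
    intro y hy hy1
    have h := LowA_pos (b := y)
      (f := fun x => x + 1 / 5 * x ^ 3 - sinh x)
      (f' := fun x => 1 + 3 / 5 * x ^ 2 - cosh x)
      (fun x _ _ => by
        have h1 := ((hasDerivAt_id' x).add (((hasDerivAt_id' x).pow 3).const_mul (1 / 5))).sub
          (Real.hasDerivAt_sinh x)
        refine h1.congr_deriv ?_
        simp only [Nat.cast_ofNat]
        ring)
      (by simp) (fun x hx hx1 => by linarith [a2 x hx (hx1.trans hy1)]) hy le_rfl
    linarith
  have a4 : ∀ y : ℝ, 0 ≤ y → y ≤ 1 → cosh y ≤ 1 + y ^ 2 / 2 + y ^ 4 / 20 := by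
    intro y hy hy1
    have h := LowA_pos (b := y)
      (f := fun x => 1 + x ^ 2 / 2 + x ^ 4 / 20 - cosh x)
      (f' := fun x => x + 1 / 5 * x ^ 3 - sinh x)
      (fun x _ _ => by
        have h1 := ((((hasDerivAt_id' x).pow 2).div_const 2).const_add 1 |>.add
          (((hasDerivAt_id' x).pow 4).div_const 20)).sub (Real.hasDerivAt_cosh x)
        refine h1.congr_deriv ?_
        simp only [Nat.cast_ofNat]
        ring)
      (by simp) (fun x hx hx1 => by linarith [a3 x hx (hx1.trans hy1)]) hy le_rfl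
    linarith
  have h := LowA_pos (b := x)
    (f := fun x => x + x ^ 3 / 6 + x ^ 5 / 100 - sinh x)
    (f' := fun x => 1 + x ^ 2 / 2 + x ^ 4 / 20 - cosh x)
    (fun x _ _ => by
      have h1 := (((hasDerivAt_id' x).add (((hasDerivAt_id' x).pow 3).div_const 6)).add
        (((hasDerivAt_id' x).pow 5).div_const 100)).sub (Real.hasDerivAt_sinh x)
      refine h1.congr_deriv ?_
      simp only [Nat.cast_ofNat]
      ring)
    (by simp) (fun x hx hx1 => by linarith [a4 x hx (hx1.trans h1)]) hx le_rfl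
  linarith

/-- A piece for `R ≤ r0`. -/
theorem pieceA (h : SlD τ R ρ2 b P) (g : RA τ R r0 al Il El Du) (hρ : ρ2 ≤ 1) (hb : bl ≤ b)
    (hb' : b ≤ bu) (hbu : bu ≤ 1)
    (hF : (2 * (p - (1 - bl) * r0) ≤ 0 ∧ F ≤ 2 * (p - (1 - bl) * r0)) ∨
      (0 ≤ 2 * (p - (1 - bl) * r0) ∧ 2 * (p - (1 - bl) * r0) ≤ 3 / 2 ∧
        F ≤ al * (2 * (p - (1 - bl) * r0) - (2 * (p - (1 - bl) * r0)) ^ 3 / 6) ∧ F ≤ al ^ 2))
    (num : Du * (1 - ρ2) < F + El * (2 * (1 - bu) * Il + (2 * (1 - bu) * Il) ^ 3 / 6)) :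
    P ≤ p := by
  by_contra hc
  push Not at hc
  have hpi := pi_gt_three
  have hR0 := g.R0
  set Z := 2 * (p - (1 - bl) * r0) with hZ
  have z1 : Z ≤ 2 * (P - (1 - b) * R) := by
    have : (1 - b) * R ≤ (1 - bl) * r0 := by
      have h1 : (1 - b) * R ≤ (1 - b) * r0 := mul_le_mul_of_nonneg_left g.R1 (by linarith)
      have h2 : (1 - b) * r0 ≤ (1 - bl) * r0 :=
        mul_le_mul_of_nonneg_right (by linarith) (hR0.le.trans g.R1)
      linarith
    linarith
  have z2 : 2 * (P - (1 - b) * R) ≤ π - 2 * R := by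
    have := h.P1
    linarith
  have s2R : 0 < sin (2 * R) := sin_pos_of_pos_of_lt_pi (by linarith) (by linarith [g.R2])
  have first : F ≤ sin (2 * R) * sin (2 * (P - (1 - b) * R)) := by
    set ζ := 2 * (P - (1 - b) * R) with hζ
    rcases hF with ⟨f1, f2⟩ | ⟨f1, f2, f3, f4⟩
    · rcases le_total 0 ζ with k | k
      · have : 0 ≤ sin ζ := sin_nonneg_of_nonneg_of_le_pi k (by linarith)
        have := mul_nonneg s2R.le this
        linarith
      · have e1 : ζ ≤ sin ζ := by
          have := sin_le (x := -ζ) (by linarith)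
          rw [sin_neg] at this
          linarith
        have e2 := sin_le_one (2 * R)
        have : sin (2 * R) * ζ ≤ sin (2 * R) * sin ζ := mul_le_mul_of_nonneg_left e1 s2R.le
        nlinarith
    · have ζ0 : 0 ≤ ζ := f1.trans z1
      rcases le_total ζ (π / 2) with k | k
      · have e1 : sin Z ≤ sin ζ :=
          sin_le_sin_of_le_of_le_pi_div_two (by linarith) k z1
        have e2 := Real.sin_ge_sub_cube f1
        have e3 : 0 ≤ Z - Z ^ 3 / 6 := by
          have : Z ^ 2 ≤ (3 / 2) ^ 2 := pow_le_pow_left₀ f1 f2 2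
          have : Z - Z ^ 3 / 6 = Z * (1 - Z ^ 2 / 6) := by ring
          rw [this]
          exact mul_nonneg f1 (by linarith)
        calc F ≤ al * (Z - Z ^ 3 / 6) := f3
          _ ≤ sin (2 * R) * sin ζ :=
            mul_le_mul g.a (by linarith) e3 s2R.le
      · have e1 : al ≤ sin ζ := by
          have : sin (2 * R) ≤ sin ζ := by
            rw [← sin_pi_sub ζ]
            exact sin_le_sin_of_le_of_le_pi_div_two (by linarith) (by linarith) (by linarith)
          exact g.a.trans this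
        calc F ≤ al ^ 2 := f4
          _ = al * al := by ring
          _ ≤ sin (2 * R) * sin ζ := mul_le_mul g.a e1 g.al0 s2R.le
  have second : El * (2 * (1 - bu) * Il + (2 * (1 - bu) * Il) ^ 3 / 6) ≤
      sinh (2 * hJ τ R) * sinh (2 * (1 - b) * hJ τ R) := by
    have w0 : 0 ≤ 2 * (1 - bu) * Il := mul_nonneg (by linarith) g.Il0
    have w1 : 2 * (1 - bu) * Il ≤ 2 * (1 - b) * hJ τ R :=
      mul_le_mul (by linarith) g.I g.Il0 (by linarith)
    have e1 := sinh_cubic w0
    have e2 : sinh (2 * (1 - bu) * Il) ≤ sinh (2 * (1 - b) * hJ τ R) := sinh_le_sinh.2 w1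
    have e3 : 0 ≤ 2 * (1 - bu) * Il + (2 * (1 - bu) * Il) ^ 3 / 6 := by positivity
    exact mul_le_mul g.E (e1.trans e2) e3 (g.El0.trans g.E)
  have third : DD (τ ^ 2) R * (1 - ρ2) ≤ Du * (1 - ρ2) :=
    mul_le_mul_of_nonneg_right g.D (by linarith)
  have := h.A
  linarith

/-- A piece for `r0 ≤ R`. -/
theorem piecea (h : SlD τ R ρ2 b P) (g : Ra τ R r0 Iu Dl) (hρ : 0 ≤ ρ2) (hbl : 0 ≤ bl)
    (hb : bl ≤ b) (hb' : b ≤ bu) (hp : 0 ≤ p + bl * r0) (hc0 : 0 ≤ c) (hIu : bu * Iu ≤ 1)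
    (hc : 8 / 5 ≤ p + bl * r0 ∨ 1 - (p + bl * r0) ^ 2 / 2 + (p + bl * r0) ^ 4 / 24 -
      (p + bl * r0) ^ 6 / 720 + (p + bl * r0) ^ 8 / 40320 ≤ c)
    (hs : bu * Iu + (bu * Iu) ^ 3 / 6 + (bu * Iu) ^ 5 / 100 ≤ s)
    (num : c ^ 2 + s ^ 2 < ρ2 * Dl) : P ≤ p := by
  by_contra hcc
  push Not at hcc
  have hpi := pi_gt_three
  have hpi2 := pi_lt_d2
  have b0 : 0 ≤ b := hbl.trans hb
  have y1 : p + bl * r0 < P + b * R := by
    have : bl * r0 ≤ b * R := mul_le_mul hb g.R1 g.r0 b0
    linarith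
  have y2 := h.P1
  have cpos : 0 ≤ cos (P + b * R) := cos_nonneg_of_mem_Icc ⟨by linarith, y2⟩
  have first : cos (P + b * R) ^ 2 ≤ c ^ 2 := by
    apply pow_le_pow_left₀ cpos
    rcases hc with k | k
    · linarith
    · have e1 : cos (P + b * R) ≤ cos (p + bl * r0) :=
        cos_le_cos_of_nonneg_of_le_pi hp (by linarith) y1.le
      have e2 := cos_oct hp
      linarith
  have second : sinh (b * hJ τ R) ^ 2 ≤ s ^ 2 := by
    have w0 : 0 ≤ b * hJ τ R := mul_nonneg b0 g.I0
    have w1 : b * hJ τ R ≤ bu * Iu := mul_le_mul hb' g.I g.I0 (b0.trans hb')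
    have e1 : sinh (b * hJ τ R) ≤ sinh (bu * Iu) := sinh_le_sinh.2 w1
    have e2 := sinh_upper (w0.trans w1) hIu
    exact pow_le_pow_left₀ (sinh_nonneg_iff.2 w0) (by linarith) 2
  have third : ρ2 * Dl ≤ ρ2 * DD (τ ^ 2) R := mul_le_mul_of_nonneg_left g.D hρ
  have := h.a
  linarith

/-- From the bound of `P` to the bound of the loss, `P ≥ 0`. -/
theorem pos_fin (hτ : 0 < τ) (hT : 0 < T) (hT1 : T < π / 2) (hS : sJ τ T ≤ S)
    (hη : η ≤ hJ τ T / sJ τ T - T) (hη' : hJ τ T / sJ τ T - T ≤ η') (hη0 : 0 ≤ η)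
    (hbl : 0 < bl) (hb : bl ≤ b) (hb' : b ≤ bu) (hP0 : 0 ≤ P) (hg : 0 ≤ g)
    (hP : P ≤ g + bl * η) (n1 : S * g ^ 2 ≤ 6283 / 1000 * lam * bl)
    (n2 : S * bu * η' ^ 2 ≤ 6283 / 1000 * lam) : lossJ τ b P T ≤ lam := by
  have hpi := pi_gt_d4
  have s0 := sJ_pos hτ hT hT1
  have b0 : 0 < b := hbl.trans_le hb
  set r := hJ τ T / sJ τ T - T with hr
  have e : lossJ τ b P T = sJ τ T * (P - b * r) ^ 2 / (2 * π * b) := by
    have : P / b + T - hJ τ T / sJ τ T = (P - b * r) / b := by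
      rw [hr]; field_simp; ring
    rw [lossJ, this]
    field_simp
  have lam0 : 0 ≤ lam := by
    by_contra hc
    push Not at hc
    have : 0 ≤ S * bu * η' ^ 2 := by
      have : 0 ≤ bu := b0.le.trans hb'
      have : 0 ≤ S := s0.le.trans hS
      positivity
    nlinarith
  rw [e, div_le_iff₀ (by positivity)]
  have r0 : 0 ≤ r := hη0.trans hη
  have S0 : 0 ≤ S := s0.le.trans hS
  have x1 : P - b * r ≤ g := by
    have : bl * η ≤ b * r := mul_le_mul hb hη hη0 b0.le
    linarith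
  have x2 : -(b * η') ≤ P - b * r := by
    have : b * r ≤ b * η' := mul_le_mul_of_nonneg_left hη' b0.le
    linarith
  have key : sJ τ T * (P - b * r) ^ 2 ≤ 6283 / 1000 * lam * b := by
    rcases le_total 0 (P - b * r) with k | k
    · have k1 : (P - b * r) ^ 2 ≤ g ^ 2 := pow_le_pow_left₀ k x1 2
      calc sJ τ T * (P - b * r) ^ 2 ≤ S * g ^ 2 := mul_le_mul hS k1 (sq_nonneg _) S0
        _ ≤ 6283 / 1000 * lam * bl := n1
        _ ≤ 6283 / 1000 * lam * b := by
          apply mul_le_mul_of_nonneg_left hb (by positivity)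
    · have k1 : (P - b * r) ^ 2 ≤ (b * η') ^ 2 := by
        apply sq_le_sq'
        · linarith
        · have : 0 ≤ b * η' := by linarith
          linarith
      calc sJ τ T * (P - b * r) ^ 2 ≤ S * (b * η') ^ 2 := mul_le_mul hS k1 (sq_nonneg _) S0
        _ = b * (S * b * η' ^ 2) := by ring
        _ ≤ b * (S * bu * η' ^ 2) := by
          apply mul_le_mul_of_nonneg_left _ b0.le
          exact mul_le_mul_of_nonneg_right (mul_le_mul_of_nonneg_left hb' S0) (sq_nonneg _)
        _ ≤ b * (6283 / 1000 * lam) := mul_le_mul_of_nonneg_left n2 b0.le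
        _ = 6283 / 1000 * lam * b := by ring
  refine key.trans ?_
  have : 6283 / 1000 * (lam * b) ≤ 2 * π * (lam * b) :=
    mul_le_mul_of_nonneg_right (by linarith) (by positivity)
  linarith

/-- From the bound of `P` to the bound of the loss of the other slot, `P ≥ 0`. -/
theorem neg_fin (hτ : 0 < τ) (hT : 0 < T) (hT1 : T < π / 2) (hS : sJ τ T ≤ S)
    (hη : η ≤ T - hJ τ T / sJ τ T) (hη' : T - hJ τ T / sJ τ T ≤ η') (hη0 : 0 ≤ η)
    (hbu : bu < 2) (hb : bl ≤ b) (hb' : b ≤ bu) (hP0 : 0 ≤ P) (hg : 0 ≤ g)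
    (hP : P ≤ g + (2 - bu) * η) (n1 : S * g ^ 2 ≤ 6283 / 1000 * lam * (2 - bu))
    (n2 : S * (2 - bl) * η' ^ 2 ≤ 6283 / 1000 * lam) : lossJ τ (2 - b) (-P) T ≤ lam := by
  have hpi := pi_gt_d4
  have s0 := sJ_pos hτ hT hT1
  have b0 : 0 < 2 - b := by linarith
  set r := T - hJ τ T / sJ τ T with hr
  have e : lossJ τ (2 - b) (-P) T = sJ τ T * (P - (2 - b) * r) ^ 2 / (2 * π * (2 - b)) := by
    have : -P / (2 - b) + T - hJ τ T / sJ τ T = -(P - (2 - b) * r) / (2 - b) := by
      rw [hr]; field_simp; ring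
    rw [lossJ, this]
    field_simp
  have r0 : 0 ≤ r := hη0.trans hη
  have S0 : 0 ≤ S := s0.le.trans hS
  have lam0 : 0 ≤ lam := by
    by_contra hc
    push Not at hc
    have : 0 ≤ S * (2 - bl) * η' ^ 2 := by
      have : 0 ≤ 2 - bl := by linarith
      positivity
    nlinarith
  rw [e, div_le_iff₀ (by positivity)]
  have x1 : P - (2 - b) * r ≤ g := by
    have : (2 - bu) * η ≤ (2 - b) * r := mul_le_mul (by linarith) hη hη0 b0.le
    linarith
  have x2 : -((2 - b) * η') ≤ P - (2 - b) * r := by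
    have : (2 - b) * r ≤ (2 - b) * η' := mul_le_mul_of_nonneg_left hη' b0.le
    linarith
  have key : sJ τ T * (P - (2 - b) * r) ^ 2 ≤ 6283 / 1000 * lam * (2 - b) := by
    rcases le_total 0 (P - (2 - b) * r) with k | k
    · have k1 : (P - (2 - b) * r) ^ 2 ≤ g ^ 2 := pow_le_pow_left₀ k x1 2
      calc sJ τ T * (P - (2 - b) * r) ^ 2 ≤ S * g ^ 2 := mul_le_mul hS k1 (sq_nonneg _) S0
        _ ≤ 6283 / 1000 * lam * (2 - bu) := n1
        _ ≤ 6283 / 1000 * lam * (2 - b) := by
          apply mul_le_mul_of_nonneg_left (by linarith) (by positivity)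
    · have k1 : (P - (2 - b) * r) ^ 2 ≤ ((2 - b) * η') ^ 2 := by
        apply sq_le_sq'
        · linarith
        · have : 0 ≤ (2 - b) * η' := by linarith
          linarith
      calc sJ τ T * (P - (2 - b) * r) ^ 2 ≤ S * ((2 - b) * η') ^ 2 :=
            mul_le_mul hS k1 (sq_nonneg _) S0
        _ = (2 - b) * (S * (2 - b) * η' ^ 2) := by ring
        _ ≤ (2 - b) * (S * (2 - bl) * η' ^ 2) := by
          apply mul_le_mul_of_nonneg_left _ b0.le
          exact mul_le_mul_of_nonneg_right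
            (mul_le_mul_of_nonneg_left (by linarith) S0) (sq_nonneg _)
        _ ≤ (2 - b) * (6283 / 1000 * lam) := mul_le_mul_of_nonneg_left n2 b0.le
        _ = 6283 / 1000 * lam * (2 - b) := by ring
  refine key.trans ?_
  have : 6283 / 1000 * (lam * (2 - b)) ≤ 2 * π * (lam * (2 - b)) :=
    mul_le_mul_of_nonneg_right (by linarith) (by positivity)
  linarith

end

end Pool.Agent.S3.Ls
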