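import Pool.Agent.S3.E.OGeo
import Pool.Agent.S3.E.SlC
import Pool.Agent.S3.Ls.Gen

/-!
# The exact relations at an inner vertex of multiplicity two

`SlD` for the slots of `Vx 2`.
-/

set_option autoImplicit false

namespace Pool.Agent.S3.E

open Real

/-- `|sinh q|²` of a slot. -/
theorem Slot.modsq {R I ρ β p r : ℝ} (hs : Slot R I ρ β p r) (h : 0 < R) (h' : R < π / 2) :
    sinh p ^ 2 + sin r ^ 2 = ρ ^ 2 * (s2 R I / k2 R I) := by
  rw [← tt_sq h h']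
  have e1 := hs.e1
  have e2 := hs.e2
  have c1 := Real.cosh_sq p
  have c2 := Real.sin_sq_add_cos_sq r
  have c3 := Real.sin_sq_add_cos_sq (al R I + β)
  have k : (sinh p * cos r) ^ 2 + (cosh p * sin r) ^ 2 = ρ ^ 2 * tt R I ^ 2 := by
    rw [e1, e2]
    calc (ρ * tt R I * cos (al R I + β)) ^ 2 + (ρ * tt R I * sin (al R I + β)) ^ 2 =
        ρ ^ 2 * tt R I ^ 2 * (sin (al R I + β) ^ 2 + cos (al R I + β) ^ 2) := by ring
      _ = _ := by rw [c3, mul_one]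
  rw [← k]
  have : (cosh p * sin r) ^ 2 = (sinh p ^ 2 + 1) * sin r ^ 2 := by rw [mul_pow, c1]
  rw [this]
  have : (sinh p * cos r) ^ 2 = sinh p ^ 2 * (1 - sin r ^ 2) := by
    rw [mul_pow]; congr 1; linarith
  rw [this]
  ring

/-- The exact relation between the two moduli. -/
theorem Vx.relA {R I ρ₁ β₁ p₁ r₁ ρ₂ β₂ p₂ r₂ : ℝ} (h : Vx 2 R I ρ₁ β₁ p₁ r₁ ρ₂ β₂ p₂ r₂) :
    sin (2 * R) * sin (r₂ - r₁) + sinh (2 * I) * sinh (p₂ - p₁) =
      (ρ₂ ^ 2 - ρ₁ ^ 2) * (s2 R I / k2 R I) := by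
  have a := h.sl₁.modsq h.R0 h.R1
  have b := h.sl₂.modsq h.R0 h.R1
  have hR : 2 * R = π - (r₁ + r₂) := by linarith [h.hR]
  have hI : 2 * I = p₁ + p₂ := by linarith [h.hI]
  rw [hR, hI, sin_pi_sub]
  have e1 : sin (r₁ + r₂) * sin (r₂ - r₁) = sin r₂ ^ 2 - sin r₁ ^ 2 := by
    rw [sin_add, sin_sub]
    have c1 := Real.sin_sq_add_cos_sq r₁
    have c2 := Real.sin_sq_add_cos_sq r₂
    have : cos r₁ ^ 2 = 1 - sin r₁ ^ 2 := by linarith
    have : cos r₂ ^ 2 = 1 - sin r₂ ^ 2 := by linarith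
    calc (sin r₁ * cos r₂ + cos r₁ * sin r₂) * (sin r₂ * cos r₁ - cos r₂ * sin r₁) =
        sin r₂ ^ 2 * cos r₁ ^ 2 - sin r₁ ^ 2 * cos r₂ ^ 2 := by ring
      _ = _ := by rw [‹cos r₁ ^ 2 = _›, ‹cos r₂ ^ 2 = _›]; ring
  have e2 : sinh (p₁ + p₂) * sinh (p₂ - p₁) = sinh p₂ ^ 2 - sinh p₁ ^ 2 := by
    rw [sinh_add, sinh_sub]
    have c1 := Real.cosh_sq p₁
    have c2 := Real.cosh_sq p₂
    calc (sinh p₁ * cosh p₂ + cosh p₁ * sinh p₂) * (sinh p₂ * cosh p₁ - cosh p₂ * sinh p₁) =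
        sinh p₂ ^ 2 * cosh p₁ ^ 2 - sinh p₁ ^ 2 * cosh p₂ ^ 2 := by ring
      _ = _ := by rw [c1, c2]; ring
  rw [e1, e2]
  linarith

section

variable {R I : ℝ}

theorem k2_eq' (R I : ℝ) : k2 R I = cos R ^ 2 + sinh I ^ 2 := by
  rw [k2, cc, gg, Real.cosh_two_mul, Real.cos_two_mul, Real.cosh_sq]; ring

theorem s2_eq' (R I : ℝ) : s2 R I = sin R ^ 2 + sinh I ^ 2 := by
  rw [s2, cc, gg, Real.cosh_two_mul, Real.cos_two_mul', Real.cosh_sq]
  have := Real.sin_sq_add_cos_sq R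
  have h : cos R ^ 2 = 1 - sin R ^ 2 := by linarith
  rw [h]; ring

theorem tan_th (h : 0 < R) (h' : R < π / 2) (hI : 0 < I) : tan (th R I) * cos R = sinh I := by
  have hc : 0 < cos R := cos_pos_of_mem_Ioo ⟨by linarith, h'⟩
  have hs := Real.sinh_pos_iff.2 hI
  have e := cos_two_th h h' hI
  have t0 := th_pos h h' hI
  have t1 := th_lt h h' hI
  have ct : 0 < cos (th R I) := cos_pos_of_mem_Ioo ⟨by linarith, t1⟩
  have st : 0 < sin (th R I) := sin_pos_of_pos_of_lt_pi t0 (by linarith)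
  have k0 := k2_pos (I := I) h h'
  have e1 : sin (th R I) ^ 2 * k2 R I = sinh I ^ 2 := by
    have e2 : cos (2 * th R I) = 1 - 2 * sin (th R I) ^ 2 := by
      rw [Real.cos_two_mul']; have := Real.sin_sq_add_cos_sq (th R I); linarith
    rw [e2, eq_div_iff k0.ne'] at e
    rw [s2_eq', k2_eq'] at e
    rw [k2_eq']
    have := Real.sin_sq_add_cos_sq R
    nlinarith
  have e2 : cos (th R I) ^ 2 * k2 R I = cos R ^ 2 := by
    have := Real.sin_sq_add_cos_sq (th R I)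
    have : cos (th R I) ^ 2 = 1 - sin (th R I) ^ 2 := by linarith
    rw [this, sub_mul, e1, k2_eq']; ring
  have e3 : (sin (th R I) * cos R) ^ 2 = (sinh I * cos (th R I)) ^ 2 := by
    have : (sin (th R I) * cos R) ^ 2 * k2 R I = (sinh I * cos (th R I)) ^ 2 * k2 R I := by
      calc (sin (th R I) * cos R) ^ 2 * k2 R I = (sin (th R I) ^ 2 * k2 R I) * cos R ^ 2 := by ring
        _ = sinh I ^ 2 * (cos (th R I) ^ 2 * k2 R I) := by rw [e1, e2]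
        _ = _ := by ring
    exact mul_right_cancel₀ k0.ne' this
  have e4 := (pow_left_inj₀ (by positivity) (by positivity) two_ne_zero).1 e3
  rw [tan_eq_sin_div_cos, div_mul_eq_mul_div, e4, mul_div_assoc, div_self ct.ne', mul_one]

theorem hJ_th (h : 0 < R) (h' : R < π / 2) (hI : 0 < I) : hJ (tan (th R I)) R = I := by
  rw [hJ, tan_th h h' hI, Real.arsinh_sinh]

theorem DD_th (h : 0 < R) (h' : R < π / 2) (hI : 0 < I) :
    Ls.DD (tan (th R I) ^ 2) R = s2 R I / k2 R I := by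
  have hc : 0 < cos R := cos_pos_of_mem_Ioo ⟨by linarith, h'⟩
  have e := tan_th h h' hI
  have e1 : tan (th R I) = sinh I / cos R := by rw [eq_div_iff hc.ne', e]
  have := Real.sin_sq_add_cos_sq R
  have hs : sin R ^ 2 = 1 - cos R ^ 2 := by linarith
  rw [Ls.DD, e1, s2_eq', k2_eq', hs]
  field_simp
  ring

/-- **The data of the first slot.** -/
theorem Vx.slD {ρ₁ β₁ p₁ r₁ ρ₂ β₂ p₂ r₂ ρ2 : ℝ} (h : Vx 2 R I ρ₁ β₁ p₁ r₁ ρ₂ β₂ p₂ r₂)
    (h1 : ρ2 ≤ ρ₁ ^ 2) (h2 : ρ₂ ≤ 1) (hP : 0 ≤ π / 2 - r₁ - p₁ / I * R) :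
    Ls.SlD (tan (th R I)) R ρ2 (p₁ / I) (π / 2 - r₁ - p₁ / I * R) := by
  have hI := h.I0
  have a := h.sl₁.modsq h.R0 h.R1
  have b := h.relA
  have e1 := hJ_th h.R0 h.R1 hI
  have e2 := DD_th h.R0 h.R1 hI
  have D0 : 0 < s2 R I / k2 R I := div_pos (s2_pos h.R0 h.R1) (k2_pos h.R0 h.R1)
  refine ⟨hP, by linarith [h.sl₁.r0], ?_, ?_⟩
  · rw [e1, e2]
    have : π / 2 - r₁ - p₁ / I * R + p₁ / I * R = π / 2 - r₁ := by ring
    rw [this, cos_pi_div_two_sub, div_mul_cancel₀ _ hI.ne']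
    have := mul_le_mul_of_nonneg_right h1 D0.le
    linarith
  · rw [e1, e2]
    have f1 : 2 * (π / 2 - r₁ - p₁ / I * R - (1 - p₁ / I) * R) = r₂ - r₁ := by
      have := h.hR
      linarith [this, show p₁ / I * R + (1 - p₁ / I) * R = R by ring]
    have f2 : 2 * (1 - p₁ / I) * I = p₂ - p₁ := by
      have := h.hI
      have : p₁ / I * I = p₁ := div_mul_cancel₀ _ hI.ne'
      linarith [this, show 2 * (1 - p₁ / I) * I = 2 * I - 2 * (p₁ / I * I) by ring]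
    rw [f1, f2, b, mul_comm]
    apply mul_le_mul_of_nonneg_left _ D0.le
    have : ρ₂ ^ 2 ≤ 1 := pow_le_one₀ h.sl₂.ρ0 h2
    linarith

/-- The phases: the bound of `r` of a slot with `I ≤ p`. -/
theorem Vx.relV {ρ₁ β₁ p₁ r₁ ρ₂ β₂ p₂ r₂ : ℝ} (h : Vx 2 R I ρ₁ β₁ p₁ r₁ ρ₂ β₂ p₂ r₂)
    (hp : I ≤ p₁) : arctan (tan (th R I) ^ 2 * (cos R / sin R)) ≤ r₁ := by
  have k := h.sl₁.arctan_le h.R0 h.R1 h.I0
  refine le_trans ?_ k
  apply Real.arctan_mono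
  have hc : 0 < cos R := cos_pos_of_mem_Ioo ⟨by linarith [h.R0, pi_pos], h.R1⟩
  have hs : 0 < sin R := sin_pos_of_pos_of_lt_pi h.R0 (by linarith [h.R1, pi_pos])
  have e := tan_th h.R0 h.R1 h.I0
  have e1 : tan (th R I) = sinh I / cos R := by rw [eq_div_iff hc.ne', e]
  have t0 : 0 < tan (al R I) := by
    rw [tan_al]
    exact div_pos (sinh_two_pos h.I0) (sin_two_pos h.R0 h.R1)
  have tm : tanh I ≤ tanh p₁ := tanh_mono' hp
  have : tan (th R I) ^ 2 * (cos R / sin R) = tan (al R I) * tanh I := by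
    have cp := Real.cosh_pos I
    rw [tan_al, Real.sinh_two_mul, Real.sin_two_mul, e1, Real.tanh_eq_sinh_div_cosh]
    field_simp
  rw [this]
  exact mul_le_mul_of_nonneg_left tm t0.le

end

end Pool.Agent.S3.E
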