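import Pool.Agent.S3.Cl.PbO
import Pool.Agent.S3.Es17
import Pool.Agent.S3.Ls.Ed
import Pool.Agent.S3.Ls.Rel

/-!
# The loss of an inner vertex of multiplicity two, both neighbours open
-/

set_option autoImplicit false

namespace Pool.Agent.S3.E

open Real

/-- **The lower bound of `R`.** -/
theorem Vx.low {R I ρ₁ β₁ p₁ r₁ ρ₂ β₂ p₂ r₂ : ℝ} (h : Vx 2 R I ρ₁ β₁ p₁ r₁ ρ₂ β₂ p₂ r₂)
    (h1 : ρ₁ ≤ 1) (h2 : ρ₂ ≤ 1) : Ls.Low (tan (th R I) ^ 2) (cos R ^ 2) := by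
  intro hc
  have a := h.sl₁.modsq h.R0 h.R1
  have b := h.sl₂.modsq h.R0 h.R1
  have e2 := DD_th h.R0 h.R1 h.I0
  rw [← e2] at a b
  have D0 : 0 < Ls.DD (tan (th R I) ^ 2) R := by
    rw [e2]; exact div_pos (s2_pos h.R0 h.R1) (k2_pos h.R0 h.R1)
  have hcR : 0 < cos R := cos_pos_of_mem_Ioo ⟨by linarith [h.R0, pi_pos], h.R1⟩
  have t1 : tan (th R I) ^ 2 * cos R ^ 2 = sinh I ^ 2 := by
    rw [← mul_pow, tan_th h.R0 h.R1 h.I0]
  set D := Ls.DD (tan (th R I) ^ 2) R with hD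
  have q1 : ρ₁ ^ 2 * D ≤ D := by
    have : ρ₁ ^ 2 ≤ 1 := pow_le_one₀ h.sl₁.ρ0 h1
    nlinarith
  have q2 : ρ₂ ^ 2 * D ≤ D := by
    have : ρ₂ ^ 2 ≤ 1 := pow_le_one₀ h.sl₂.ρ0 h2
    nlinarith
  have s1 : 1 ≤ sin r₁ ^ 2 + sin r₂ ^ 2 := by
    have e : sin r₁ ^ 2 + sin r₂ ^ 2 = 1 + cos (2 * R) * cos (r₁ - r₂) := by
      have : 2 * R = π - (r₁ + r₂) := by linarith [h.hR]
      rw [this, cos_pi_sub, cos_add, cos_sub]
      have c1 := Real.sin_sq_add_cos_sq r₁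
      have c2 := Real.sin_sq_add_cos_sq r₂
      have d1 : cos r₁ ^ 2 = 1 - sin r₁ ^ 2 := by linarith
      have d2 : cos r₂ ^ 2 = 1 - sin r₂ ^ 2 := by linarith
      have : -(cos r₁ * cos r₂ - sin r₁ * sin r₂) * (cos r₁ * cos r₂ + sin r₁ * sin r₂) =
          sin r₁ ^ 2 * sin r₂ ^ 2 - cos r₁ ^ 2 * cos r₂ ^ 2 := by ring
      rw [this, d1, d2]; ring
    have e1 : 0 ≤ cos (2 * R) := by rw [Real.cos_two_mul]; linarith
    have e2 : 0 ≤ cos (r₁ - r₂) := cos_nonneg_of_mem_Icc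
      ⟨by linarith [h.sl₁.r0, h.sl₂.r1], by linarith [h.sl₂.r0, h.sl₁.r1]⟩
    rw [e]
    linarith [mul_nonneg e1 e2]
  have s2 : 2 * sinh I ^ 2 ≤ sinh p₁ ^ 2 + sinh p₂ ^ 2 := by
    have e1 : cosh (2 * p₁) + cosh (2 * p₂) = 2 * cosh (p₁ + p₂) * cosh (p₁ - p₂) := by
      have A := Real.cosh_add (p₁ + p₂) (p₁ - p₂)
      have B := Real.cosh_sub (p₁ + p₂) (p₁ - p₂)
      rw [show p₁ + p₂ + (p₁ - p₂) = 2 * p₁ by ring] at A
      rw [show p₁ + p₂ - (p₁ - p₂) = 2 * p₂ by ring] at B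
      linarith
    have e2 : cosh (2 * I) ≤ cosh (p₁ + p₂) * cosh (p₁ - p₂) := by
      have : 2 * I = p₁ + p₂ := h.hI
      rw [this]
      exact le_mul_of_one_le_right (Real.cosh_pos _).le (Real.one_le_cosh _)
    have f1 : cosh (2 * p₁) = 1 + 2 * sinh p₁ ^ 2 := by
      rw [Real.cosh_two_mul, Real.cosh_sq]; ring
    have f2 : cosh (2 * p₂) = 1 + 2 * sinh p₂ ^ 2 := by
      rw [Real.cosh_two_mul, Real.cosh_sq]; ring
    have f3 : cosh (2 * I) = 1 + 2 * sinh I ^ 2 := by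
      rw [Real.cosh_two_mul, Real.cosh_sq]; ring
    linarith
  have key : 1 + 2 * (tan (th R I) ^ 2 * cos R ^ 2) ≤ 2 * D := by
    rw [t1]; linarith
  have hDe : D * (cos R ^ 2 * (1 + tan (th R I) ^ 2)) =
      1 - cos R ^ 2 + tan (th R I) ^ 2 * cos R ^ 2 := by
    rw [hD, Ls.DD]
    have : (0 : ℝ) < 1 + tan (th R I) ^ 2 := by positivity
    field_simp
    ring
  have hp : 0 ≤ cos R ^ 2 * (1 + tan (th R I) ^ 2) := by positivity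
  have := mul_le_mul_of_nonneg_right key hp
  linarith

theorem Vx.ed {R I ρ₁ β₁ p₁ r₁ ρ₂ β₂ p₂ r₂ ρ2 : ℝ} (h : Vx 2 R I ρ₁ β₁ p₁ r₁ ρ₂ β₂ p₂ r₂)
    (hρ : ρ2 ≤ ρ₁ ^ 2) (h1 : ρ₁ ≤ 1) (h2 : ρ₂ ≤ 1) (t1 : tan (th R I) ^ 2 ≤ 1)
    (b0 : 2 / 5 ≤ p₁ / I) (b1 : p₁ / I ≤ 8 / 5) (hP : 0 ≤ π / 2 - r₁ - p₁ / I * R) :
    Ls.Ed (tan (th R I)) R ρ2 (p₁ / I) (π / 2 - r₁ - p₁ / I * R) where
  τ0 := Real.tan_pos_of_pos_of_lt_pi_div_two (th_pos h.R0 h.R1 h.I0) (th_lt h.R0 h.R1 h.I0)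
  τ1 := t1
  R0 := h.R0
  R2 := h.R1
  low := h.low h1 h2
  b0 := b0
  b1 := b1
  sl := h.slD hρ h2 hP
  vd := fun hb => ⟨hP, by
    have := h.relV (by rwa [le_div_iff₀ h.I0, one_mul] at hb)
    linarith⟩

namespace Zr

variable {ι : Type*} [Finite ι] {a : ι → ℝ} {nl nr : ι → Option ι} {z : ι → ℂ}

theorem vx_pair (h : Zr a nl nr 1 z) {i j k : ι}
    (hij : (nl i = some j ∧ nr i = some k) ∨ (nl i = some k ∧ nr i = some j)) :
    Vx (a i) (z i).re (z i).im ‖Complex.cos (z j)‖ (be 1 z (some j)) (qe (z i) (z j)).re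
      (qe (z i) (z j)).im ‖Complex.cos (z k)‖ (be 1 z (some k)) (qe (z i) (z k)).re
      (qe (z i) (z k)).im := by
  have hv := h.vx i
  have r1 : ∀ l : ι, ro 1 z (some l) = ‖Complex.cos (z l)‖ := fun l => Real.rpow_one _
  rcases hij with ⟨e, e'⟩ | ⟨e, e'⟩
  · rw [h.qe_eq_ash (Or.inl e), h.qe_eq_ash (Or.inr e'), ash_re, ash_im, ash_re, ash_im, ← r1 j,
      ← r1 k, ← e, ← e']
    exact hv
  · rw [h.qe_eq_ash (Or.inr e'), h.qe_eq_ash (Or.inl e), ash_re, ash_im, ash_re, ash_im, ← r1 j,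
      ← r1 k, ← e, ← e']
    exact hv.swap

/-- The phase excess of `i` at the edge to `j`. -/
noncomputable def Pz (z w : ℂ) : ℝ := π / 2 - (qe z w).im - bw z w * z.re

theorem Pe_eq (h : Zr a nl nr 1 z) (i j : ι) :
    Pe (th (z i).re (z i).im) (th (z j).re (z j).im) (xx (z i).re (z i).im)
      (xx (z j).re (z j).im) (bw (z i) (z j)) = Pz (z i) (z j) := by
  rw [Pe, Cl.pi_gdv_re h i, Pz]
  rfl

theorem bw_add (h : Zr a nl nr 1 z) {i j k : ι} (hi : a i = 2)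
    (hij : (nl i = some j ∧ nr i = some k) ∨ (nl i = some k ∧ nr i = some j)) :
    bw (z i) (z j) + bw (z i) (z k) = 2 := by
  have hv := h.vx_pair hij
  have hI := hv.hI
  rw [bw, bw, ← add_div, ← hI, hi]
  exact mul_div_cancel_right₀ _ (h.pos i).2.2.ne'

theorem Pz_add (h : Zr a nl nr 1 z) {i j k : ι} (hi : a i = 2)
    (hij : (nl i = some j ∧ nr i = some k) ∨ (nl i = some k ∧ nr i = some j)) :
    Pz (z i) (z j) + Pz (z i) (z k) = 0 := by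
  have hv := h.vx_pair hij
  have hR := hv.hR
  have hb := h.bw_add hi hij
  have : bw (z i) (z k) = 2 - bw (z i) (z j) := by linarith
  rw [Pz, Pz, this]
  rw [hi] at hR
  linarith [show (2 - bw (z i) (z j)) * (z i).re = 2 * (z i).re - bw (z i) (z j) * (z i).re by ring]

end Zr

end Pool.Agent.S3.E
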