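import Pool.Agent.S3.E.J5
import Pool.Agent.S3.E.OTwoS
import Pool.Agent.S3.Ls.Zr

/-!
# The loss of an inner vertex of multiplicity two, in every case
-/

set_option autoImplicit false

namespace Pool.Agent.S3.Ls

open Real

/-- The bounds of the loss at the test points `Tp` (`0 ≤ P`) and `Tn` (`P ≤ 0`). -/
structure DP (L : ℝ → ℝ → Prop) (τ b P : ℝ) : Prop where
  p : 0 ≤ P → L (τ ^ 2) (lossJ τ b P Tp)
  n : P ≤ 0 → Ln (τ ^ 2) (lossJ τ b P Tn)

theorem DP.to23 {τ b P : ℝ} (h : DP Lp22 τ b P) : DP Lp23 τ b P :=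
  ⟨fun k => (h.p k).to23, h.n⟩

/-- The loss from an interval of `P / b`. -/
theorem loss_le_of {τ b P T S M B lam : ℝ} (hτ : 0 < τ) (hT : 0 < T) (hT1 : T < π / 2)
    (hS : sJ τ T ≤ S) (hb : 0 < b) (hB : b ≤ B) (h1 : P / b - (hJ τ T / sJ τ T - T) ≤ M)
    (h2 : -M ≤ P / b - (hJ τ T / sJ τ T - T)) (n : B * S * M ^ 2 ≤ 6283 / 1000 * lam) :
    lossJ τ b P T ≤ lam := by
  have hpi := pi_gt_d4
  have s0 := sJ_pos hτ hT hT1
  have e : P / b + T - hJ τ T / sJ τ T = P / b - (hJ τ T / sJ τ T - T) := by ring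
  rw [lossJ, e]
  set X := P / b - (hJ τ T / sJ τ T - T)
  have x1 : X ^ 2 ≤ M ^ 2 := sq_le_sq' h2 h1
  have S0 : 0 ≤ S := s0.le.trans hS
  have B0 : 0 ≤ B := hb.le.trans hB
  have y1 : b * sJ τ T * X ^ 2 ≤ B * S * M ^ 2 :=
    mul_le_mul (mul_le_mul hB hS s0.le B0) x1 (sq_nonneg _) (mul_nonneg B0 S0)
  have lam0 : 0 ≤ lam := by
    have : 0 ≤ B * S * M ^ 2 := mul_nonneg (mul_nonneg B0 S0) (sq_nonneg _)
    nlinarith
  rw [div_mul_eq_mul_div, div_le_iff₀ (by positivity)]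
  have : 6283 / 1000 * lam ≤ lam * (2 * π) := by nlinarith
  linarith

/-- Next to a closed end. -/
theorem dp_closed {τ b P : ℝ} (hτ : 0 < τ) (ht : τ ^ 2 ≤ 63 / 100) (hb : 0 < b)
    (hb1 : b ≤ 167 / 100) (p1 : P / b ≤ 9 / 20) (p2 : -(9 / 25) ≤ P / b) : DP Lp22 τ b P := by
  constructor
  · intro hP
    have hS := sJ_le (S := 4783 / 10000) hτ Tp_pos Tp_lt cos_Tp ht (by norm_num) (by norm_num)
    have e1 := eta_ge (κ := 10375 / 10000) (η := 27 / 100) hτ Tp_pos Tp_lt cos_Tp (by norm_num)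
      (by norm_num) Tp_le (tl := 0) le_rfl (sq_nonneg τ) (by linarith) (by norm_num)
    have e2 := eta_le (κ := 10376 / 10000) (η := 3836 / 10000) hτ Tp_pos Tp_lt cos_Tp
      (by norm_num) (by norm_num) le_Tp ht (by norm_num)
    have hl := loss_le_of (P := P) (lam := 19 / 1000) (M := 3836 / 10000) hτ Tp_pos Tp_lt hS hb hb1
      (by linarith) (by have := div_nonneg hP hb.le; linarith) (by norm_num)
    exact ⟨by linarith, fun _ => by linarith, fun _ _ => by linarith, fun _ => by linarith⟩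
  · intro hP
    have hS := sJ_le (S := 5588 / 10000) hτ Tn_pos Tn_lt cos_Tn ht (by norm_num) (by norm_num)
    have e1 := eta_ge (κ := 7902 / 10000) (η := -(112 / 1000)) hτ Tn_pos Tn_lt cos_Tn
      (by norm_num) (by norm_num) Tn_le (tl := 0) le_rfl (sq_nonneg τ) (by linarith) (by norm_num)
    have e2 := eta_le (κ := 7903 / 10000) (η := -(478 / 10000)) hτ Tn_pos Tn_lt cos_Tn
      (by norm_num) (by norm_num) le_Tn ht (by norm_num)
    have hP' : P / b ≤ 0 := div_nonpos_of_nonpos_of_nonneg hP hb.le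
    have hl := loss_le_of (P := P) (lam := 19 / 1000) (M := 3122 / 10000) hτ Tn_pos Tn_lt hS hb hb1
      (by linarith) (by linarith) (by norm_num)
    exact ⟨by linarith, fun _ => by linarith, fun _ _ => by linarith, fun _ _ => by linarith⟩

end Pool.Agent.S3.Ls

namespace Pool.Agent.S3.E

open Real

/-- An open vertex. -/
def Op {ι : Type*} (a : ι → ℝ) (nl nr : ι → Option ι) (j : ι) : Prop :=
  3 ≤ a j ∨ (a j = 2 ∧ In2 nl nr j)

namespace Zr

variable {ι : Type*} [Finite ι] {a : ι → ℝ} {nl nr : ι → Option ι} {z : ι → ℂ}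

theorem ed_open (h : Zr a nl nr 1 z) (h3 : ∀ i, 3 ≤ a i → a i = 3 ∨ 4 ≤ a i) {i j k : ι}
    (hi : a i = 2) (hij : (nl i = some j ∧ nr i = some k) ∨ (nl i = some k ∧ nr i = some j))
    (hj : Op a nl nr j) (hk : Op a nl nr k) {ρ : ℝ} (hρ0 : 0 ≤ ρ)
    (hρ : ρ ≤ ‖Complex.cos (z j)‖) (hP : 0 ≤ Pz (z i) (z j)) :
    Ls.Ed (tan (th (z i).re (z i).im)) (z i).re (ρ ^ 2) (bw (z i) (z j)) (Pz (z i) (z j)) := by
  have hin : In2 nl nr i := by
    rcases hij with ⟨h1, h2⟩ | ⟨h1, h2⟩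
    · exact ⟨_, _, h1, h2⟩
    · exact ⟨_, _, h1, h2⟩
  have hj1 : nl i = some j ∨ nr i = some j := by
    rcases hij with ⟨h1, h2⟩ | ⟨h1, h2⟩
    · exact Or.inl h1
    · exact Or.inr h2
  have hk1 : nl i = some k ∨ nr i = some k := by
    rcases hij with ⟨h1, h2⟩ | ⟨h1, h2⟩
    · exact Or.inr h2
    · exact Or.inl h1
  have hv := h.vx_pair hij
  rw [hi] at hv
  have b1 := h.bw_ge h3 hi hin hj1 hj
  have b2 := h.bw_ge h3 hi hin hk1 hk
  have bs := h.bw_add hi hij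
  have n1 : ∀ l, ‖Complex.cos (z l)‖ ≤ 1 := fun l => by
    have := h.ro_le_one (some l)
    rwa [show ro 1 z (some l) = ‖Complex.cos (z l)‖ from Real.rpow_one _] at this
  have tl : tan (th (z i).re (z i).im) ^ 2 ≤ 1 := by
    obtain ⟨l, r, e1, e2⟩ := hin
    have t1 := h.two_tan_lt hi e1 e2
    have t0 := Real.tan_pos_of_pos_of_lt_pi_div_two (th_pos hv.R0 hv.R1 hv.I0)
      (th_lt hv.R0 hv.R1 hv.I0)
    exact pow_le_one₀ t0.le t1.le
  exact hv.ed (pow_le_pow_left₀ hρ0 hρ 2) (n1 j) (n1 k) tl b1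
    (by show bw (z i) (z j) ≤ 8 / 5; linarith) hP

/-- **Both neighbours open.** -/
theorem dp23 (h : Zr a nl nr 1 z) (h3 : ∀ i, 3 ≤ a i → a i = 3 ∨ 4 ≤ a i) {i j k : ι}
    (hi : a i = 2) (hij : (nl i = some j ∧ nr i = some k) ∨ (nl i = some k ∧ nr i = some j))
    (hj : Op a nl nr j) (hk : Op a nl nr k) :
    Ls.DP Ls.Lp23 (tan (th (z i).re (z i).im)) (bw (z i) (z j)) (Pz (z i) (z j)) := by
  have hin : In2 nl nr i := by
    rcases hij with ⟨h1, h2⟩ | ⟨h1, h2⟩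
    · exact ⟨_, _, h1, h2⟩
    · exact ⟨_, _, h1, h2⟩
  have hj1 : nl i = some j ∨ nr i = some j := by
    rcases hij with ⟨h1, h2⟩ | ⟨h1, h2⟩
    · exact Or.inl h1
    · exact Or.inr h2
  have hk1 : nl i = some k ∨ nr i = some k := by
    rcases hij with ⟨h1, h2⟩ | ⟨h1, h2⟩
    · exact Or.inr h2
    · exact Or.inl h1
  constructor
  · intro hP
    have e := h.ed_open h3 hi hij hj hk (ρ := 63 / 100) (by norm_num) (h.nb63 h3 hi hin hj1 hj) hP
    norm_num at e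
    exact Ls.lp23 e
  · intro hP
    have hs := h.Pz_add hi hij
    have bs := h.bw_add hi hij
    have e := h.ed_open h3 hi hij.symm hk hj (ρ := 63 / 100) (by norm_num)
      (h.nb63 h3 hi hin hk1 hk) (by linarith)
    norm_num at e
    have q := Ls.ln e
    rw [show 2 - bw (z i) (z k) = bw (z i) (z j) by linarith,
      show -Pz (z i) (z k) = Pz (z i) (z j) by linarith] at q
    exact q

/-- **Both neighbours open**, the neighbour `j` with `17 / 25 ≤ |cos z|`. -/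
theorem dp22 (h : Zr a nl nr 1 z) (h3 : ∀ i, 3 ≤ a i → a i = 3 ∨ 4 ≤ a i) {i j k : ι}
    (hi : a i = 2) (hij : (nl i = some j ∧ nr i = some k) ∨ (nl i = some k ∧ nr i = some j))
    (hj : Op a nl nr j) (hk : Op a nl nr k) (hρ : 17 / 25 ≤ ‖Complex.cos (z j)‖) :
    Ls.DP Ls.Lp22 (tan (th (z i).re (z i).im)) (bw (z i) (z j)) (Pz (z i) (z j)) := by
  refine ⟨fun hP => ?_, (h.dp23 h3 hi hij hj hk).n⟩
  have e := h.ed_open h3 hi hij hj hk (ρ := 17 / 25) (by norm_num) hρ hP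
  norm_num at e
  exact Ls.lp22 e

/-- **One neighbour a closed end.** -/
theorem dp22_end2 (h : Zr a nl nr 1 z) {i j k : ι} (hj : Zr.IsEnd2 a nl nr j i) (ha : a i = 2)
    (hk : nl i = some k ∨ nr i = some k) (hkj : k ≠ j)
    (ho : (a k = 2 ∧ In2 nl nr k) ∨ a k = 3 ∨ 4 ≤ a k) :
    Ls.DP Ls.Lp22 (tan (th (z i).re (z i).im)) (bw (z i) (z k)) (Pz (z i) (z k)) := by
  obtain ⟨p1, b1, p2, -, t1⟩ := Cl.n1_end2 h hj ha hk hkj ho
  have e := Pe_eq h i k
  rw [Pe] at e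
  rw [e] at p1 p2
  exact Ls.dp_closed (Real.tan_pos_of_pos_of_lt_pi_div_two (h.th_pos_i i)
    (th_lt (h.pos i).1 (h.pos i).2.1 (h.pos i).2.2)) t1 (h.bw_pos hk) b1 p1 p2

end Zr

end Pool.Agent.S3.E
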