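import Pool.Agent.S3.Ls.Tp

/-!
# Bounds of the loss of an inner vertex of multiplicity two: P at Tp, neighbour of multiplicity two (generated)
-/

set_option autoImplicit false

namespace Pool.Agent.S3.Ls

open Real

variable {τ R b P : ℝ}

theorem lpa0 (hτ : 0 < τ) (h : SlD τ R (289 / 625) b P) (t1 : 0 ≤ τ ^ 2)
    (t2 : τ ^ 2 ≤ (1 / 10)) (hR0 : 0 < R) (hR2 : R < π / 2) (hc : cos R ^ 2 ≤ (667 / 1000))
    (b1 : (2 / 5) ≤ b) (b2 : b ≤ 1) : lossJ τ b P Tp ≤ (3 / 100) := by
  have hS := sJ_le (S := (107 / 500)) hτ Tp_pos Tp_lt cos_Tp t2 (by norm_num) (by norm_num)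
  have e1 := eta_ge (κ := (83 / 80)) (η := (169 / 625)) hτ Tp_pos Tp_lt cos_Tp (by norm_num) (by norm_num) Tp_le (by norm_num)
    t1 (by linarith) (by norm_num)
  have e2 := eta_le (κ := (1297 / 1250)) (η := (1443 / 5000)) hτ Tp_pos Tp_lt cos_Tp (by norm_num) (by norm_num) le_Tp t2
    (by norm_num)
  have gA : R ≤ (147 / 200) → RA τ R (147 / 200) (377 / 400) 0 0 (8339 / 10000) := fun hR =>
    RA.of (cl := (37091 / 50000)) hτ hR0 hR (by norm_num) t1 t2 (by norm_num) hc
      (by norm_num) (by norm_num) (by norm_num) (by norm_num) (by norm_num) (by norm_num)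
      (by norm_num) (by norm_num) (by norm_num) (by norm_num) (by norm_num) (by norm_num)
  have ga : (147 / 200) ≤ R → Ra τ R (147 / 200) (93 / 400) (8171 / 10000) := fun hR =>
    Ra.of (cu := (9273 / 12500)) hτ hR hR2 (by norm_num) t1 t2
      (by norm_num) (by norm_num) (by norm_num) (by norm_num) (by norm_num)
  have hp : P ≤ (877 / 1250) := by
    rcases le_total R (147 / 200) with hR | hR
    · exact (pieceA (p := (877 / 1250)) (F := (46899 / 100000)) h (gA hR) (by norm_num) b1 b2 (by norm_num)
        (Or.inr ⟨by norm_num, by norm_num, by norm_num, by norm_num⟩) (by norm_num)).trans (by norm_num)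
    · exact piecea (c := (68 / 125)) (s := (23461 / 100000)) h (ga hR) (by norm_num) (by norm_num) b1 b2 (by norm_num)
        (by norm_num) (by norm_num) (Or.inr (by norm_num)) (by norm_num) (by norm_num)
  exact pos_fin (g := (1187 / 2000)) hτ Tp_pos Tp_lt hS e1 e2 (by norm_num) (by norm_num) b1 b2 h.P0 (by norm_num)
    (hp.trans (by norm_num)) (by norm_num) (by norm_num)

theorem lpa1 (hτ : 0 < τ) (h : SlD τ R (289 / 625) b P) (t1 : (1 / 10) ≤ τ ^ 2)
    (t2 : τ ^ 2 ≤ (3 / 20)) (hR0 : 0 < R) (hR2 : R < π / 2) (hc : cos R ^ 2 ≤ (657 / 1000))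
    (b1 : (2 / 5) ≤ b) (b2 : b ≤ 1) : lossJ τ b P Tp ≤ (3 / 100) := by
  have hS := sJ_le (S := (2589 / 10000)) hτ Tp_pos Tp_lt cos_Tp t2 (by norm_num) (by norm_num)
  have e1 := eta_ge (κ := (83 / 80)) (η := (36 / 125)) hτ Tp_pos Tp_lt cos_Tp (by norm_num) (by norm_num) Tp_le (by norm_num)
    t1 (by linarith) (by norm_num)
  have e2 := eta_le (κ := (1297 / 1250)) (η := (186 / 625)) hτ Tp_pos Tp_lt cos_Tp (by norm_num) (by norm_num) le_Tp t2
    (by norm_num)
  have gA : R ≤ (147 / 200) → RA τ R (147 / 200) (4747 / 5000) (581 / 2500) (4819 / 10000) (8411 / 10000) := fun hR =>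
    RA.of (cl := (37091 / 50000)) hτ hR0 hR (by norm_num) t1 t2 (by norm_num) hc
      (by norm_num) (by norm_num) (by norm_num) (by norm_num) (by norm_num) (by norm_num)
      (by norm_num) (by norm_num) (by norm_num) (by norm_num) (by norm_num) (by norm_num)
  have ga : (147 / 200) ≤ R → Ra τ R (147 / 200) (709 / 2500) (8337 / 10000) := fun hR =>
    Ra.of (cu := (9273 / 12500)) hτ hR hR2 (by norm_num) t1 t2
      (by norm_num) (by norm_num) (by norm_num) (by norm_num) (by norm_num)
  rcases le_total b (73 / 100) with k1 | k1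
  · have hp : P ≤ (1637 / 2500) := by
      rcases le_total R (147 / 200) with hR | hR
      · exact (pieceA (p := (1637 / 2500)) (F := (39359 / 100000)) h (gA hR) (by norm_num) b1 k1 (by norm_num)
          (Or.inr ⟨by norm_num, by norm_num, by norm_num, by norm_num⟩) (by norm_num)).trans (by norm_num)
      · exact piecea (c := (29133 / 50000)) (s := (5213 / 25000)) h (ga hR) (by norm_num) (by norm_num) b1 k1 (by norm_num)
          (by norm_num) (by norm_num) (Or.inr (by norm_num)) (by norm_num) (by norm_num)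
    exact pos_fin (g := (1349 / 2500)) hτ Tp_pos Tp_lt hS e1 e2 (by norm_num) (by norm_num) b1 k1 h.P0 (by norm_num)
      (hp.trans (by norm_num)) (by norm_num) (by norm_num)
  have hp : P ≤ (587 / 625) := by
    rcases le_total R (147 / 200) with hR | hR
    · exact (pieceA (p := (587 / 625)) (F := (89201 / 100000)) h (gA hR) (by norm_num) k1 b2 (by norm_num)
        (Or.inr ⟨by norm_num, by norm_num, by norm_num, by norm_num⟩) (by norm_num)).trans (by norm_num)
    · exact piecea (c := (2373 / 25000)) (s := (14371 / 50000)) h (ga hR) (by norm_num) (by norm_num) k1 b2 (by norm_num)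
        (by norm_num) (by norm_num) (Or.inr (by norm_num)) (by norm_num) (by norm_num)
  exact pos_fin (g := (729 / 1000)) hτ Tp_pos Tp_lt hS e1 e2 (by norm_num) (by norm_num) k1 b2 h.P0 (by norm_num)
    (hp.trans (by norm_num)) (by norm_num) (by norm_num)

theorem lpa2 (hτ : 0 < τ) (h : SlD τ R (289 / 625) b P) (t1 : (3 / 20) ≤ τ ^ 2)
    (t2 : τ ^ 2 ≤ (1 / 5)) (hR0 : 0 < R) (hR2 : R < π / 2) (hc : cos R ^ 2 ≤ (651 / 1000))
    (b1 : (2 / 5) ≤ b) (b2 : b ≤ 1) : lossJ τ b P Tp ≤ (3 / 100) := by
  have hS := sJ_le (S := (591 / 2000)) hτ Tp_pos Tp_lt cos_Tp t2 (by norm_num) (by norm_num)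
  have e1 := eta_ge (κ := (83 / 80)) (η := (593 / 2000)) hτ Tp_pos Tp_lt cos_Tp (by norm_num) (by norm_num) Tp_le (by norm_num)
    t1 (by linarith) (by norm_num)
  have e2 := eta_le (κ := (1297 / 1250)) (η := (613 / 2000)) hτ Tp_pos Tp_lt cos_Tp (by norm_num) (by norm_num) le_Tp t2
    (by norm_num)
  have gA : R ≤ (3 / 4) → RA τ R (3 / 4) (9533 / 10000) (2797 / 10000) (589 / 1000) (89 / 100) := fun hR =>
    RA.of (cl := (4573 / 6250)) hτ hR0 hR (by norm_num) t1 t2 (by norm_num) hc
      (by norm_num) (by norm_num) (by norm_num) (by norm_num) (by norm_num) (by norm_num)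
      (by norm_num) (by norm_num) (by norm_num) (by norm_num) (by norm_num) (by norm_num)
  have ga : (3 / 4) ≤ R → Ra τ R (3 / 4) (3217 / 10000) (8851 / 10000) := fun hR =>
    Ra.of (cu := (73169 / 100000)) hτ hR hR2 (by norm_num) t1 t2
      (by norm_num) (by norm_num) (by norm_num) (by norm_num) (by norm_num)
  rcases le_total b (53 / 100) with k1 | k1
  · have hp : P ≤ (6237 / 10000) := by
      rcases le_total R (3 / 4) with hR | hR
      · exact (pieceA (p := (6237 / 10000)) (F := (32451 / 100000)) h (gA hR) (by norm_num) b1 k1 (by norm_num)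
          (Or.inr ⟨by norm_num, by norm_num, by norm_num, by norm_num⟩) (by norm_num)).trans (by norm_num)
      · exact piecea (c := (1884 / 3125)) (s := (17133 / 100000)) h (ga hR) (by norm_num) (by norm_num) b1 k1 (by norm_num)
          (by norm_num) (by norm_num) (Or.inr (by norm_num)) (by norm_num) (by norm_num)
    exact pos_fin (g := (5051 / 10000)) hτ Tp_pos Tp_lt hS e1 e2 (by norm_num) (by norm_num) b1 k1 h.P0 (by norm_num)
      (hp.trans (by norm_num)) (by norm_num) (by norm_num)
  have hp : P ≤ (1477 / 2000) := by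
    rcases le_total R (3 / 4) with hR | hR
    · exact (pieceA (p := (1477 / 2000)) (F := (16571 / 25000)) h (gA hR) (by norm_num) k1 b2 (by norm_num)
        (Or.inr ⟨by norm_num, by norm_num, by norm_num, by norm_num⟩) (by norm_num)).trans (by norm_num)
    · exact piecea (c := (42123 / 100000)) (s := (32729 / 100000)) h (ga hR) (by norm_num) (by norm_num) k1 b2 (by norm_num)
        (by norm_num) (by norm_num) (Or.inr (by norm_num)) (by norm_num) (by norm_num)
  exact pos_fin (g := (2907 / 5000)) hτ Tp_pos Tp_lt hS e1 e2 (by norm_num) (by norm_num) k1 b2 h.P0 (by norm_num)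
    (hp.trans (by norm_num)) (by norm_num) (by norm_num)

theorem lpa3 (hτ : 0 < τ) (h : SlD τ R (289 / 625) b P) (t1 : (1 / 5) ≤ τ ^ 2)
    (t2 : τ ^ 2 ≤ (1 / 4)) (hR0 : 0 < R) (hR2 : R < π / 2) (hc : cos R ^ 2 ≤ (161 / 250))
    (b1 : (2 / 5) ≤ b) (b2 : b ≤ 1) : lossJ τ b P Tp ≤ (3 / 100) := by
  have hS := sJ_le (S := (653 / 2000)) hτ Tp_pos Tp_lt cos_Tp t2 (by norm_num) (by norm_num)
  have e1 := eta_ge (κ := (83 / 80)) (η := (381 / 1250)) hτ Tp_pos Tp_lt cos_Tp (by norm_num) (by norm_num) Tp_le (by norm_num)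
    t1 (by linarith) (by norm_num)
  have e2 := eta_le (κ := (1297 / 1250)) (η := (631 / 2000)) hτ Tp_pos Tp_lt cos_Tp (by norm_num) (by norm_num) le_Tp t2
    (by norm_num)
  have gA : R ≤ (151 / 200) → RA τ R (151 / 200) (1197 / 1250) (3201 / 10000) (137 / 200) (1817 / 2000) := fun hR =>
    RA.of (cl := (36413 / 50000)) hτ hR0 hR (by norm_num) t1 t2 (by norm_num) hc
      (by norm_num) (by norm_num) (by norm_num) (by norm_num) (by norm_num) (by norm_num)
      (by norm_num) (by norm_num) (by norm_num) (by norm_num) (by norm_num) (by norm_num)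
  have ga : (151 / 200) ≤ R → Ra τ R (151 / 200) (1783 / 5000) (2261 / 2500) := fun hR =>
    Ra.of (cu := (18207 / 25000)) hτ hR hR2 (by norm_num) t1 t2
      (by norm_num) (by norm_num) (by norm_num) (by norm_num) (by norm_num)
  rcases le_total b (13 / 25) with k1 | k1
  · have hp : P ≤ (753 / 1250) := by
      rcases le_total R (151 / 200) with hR | hR
      · exact (pieceA (p := (753 / 1250)) (F := (28187 / 100000)) h (gA hR) (by norm_num) b1 k1 (by norm_num)
          (Or.inr ⟨by norm_num, by norm_num, by norm_num, by norm_num⟩) (by norm_num)).trans (by norm_num)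
      · exact piecea (c := (7727 / 12500)) (s := (373 / 2000)) h (ga hR) (by norm_num) (by norm_num) b1 k1 (by norm_num)
          (by norm_num) (by norm_num) (Or.inr (by norm_num)) (by norm_num) (by norm_num)
    exact pos_fin (g := (961 / 2000)) hτ Tp_pos Tp_lt hS e1 e2 (by norm_num) (by norm_num) b1 k1 h.P0 (by norm_num)
      (hp.trans (by norm_num)) (by norm_num) (by norm_num)
  have hp : P ≤ (7063 / 10000) := by
    rcases le_total R (151 / 200) with hR | hR
    · exact (pieceA (p := (7063 / 10000)) (F := (6067 / 10000)) h (gA hR) (by norm_num) k1 b2 (by norm_num)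
        (Or.inr ⟨by norm_num, by norm_num, by norm_num, by norm_num⟩) (by norm_num)).trans (by norm_num)
    · exact piecea (c := (22729 / 50000)) (s := (18211 / 50000)) h (ga hR) (by norm_num) (by norm_num) k1 b2 (by norm_num)
        (by norm_num) (by norm_num) (Or.inr (by norm_num)) (by norm_num) (by norm_num)
  exact pos_fin (g := (5479 / 10000)) hτ Tp_pos Tp_lt hS e1 e2 (by norm_num) (by norm_num) k1 b2 h.P0 (by norm_num)
    (hp.trans (by norm_num)) (by norm_num) (by norm_num)

theorem lpa4 (hτ : 0 < τ) (h : SlD τ R (289 / 625) b P) (t1 : (1 / 4) ≤ τ ^ 2)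
    (t2 : τ ^ 2 ≤ (3 / 10)) (hR0 : 0 < R) (hR2 : R < π / 2) (hc : cos R ^ 2 ≤ (159 / 250))
    (b1 : (2 / 5) ≤ b) (b2 : b ≤ 1) : lossJ τ b P Tp ≤ (3 / 100) := by
  have hS := sJ_le (S := (3537 / 10000)) hτ Tp_pos Tp_lt cos_Tp t2 (by norm_num) (by norm_num)
  have e1 := eta_ge (κ := (83 / 80)) (η := (3129 / 10000)) hτ Tp_pos Tp_lt cos_Tp (by norm_num) (by norm_num) Tp_le (by norm_num)
    t1 (by linarith) (by norm_num)
  have e2 := eta_le (κ := (1297 / 1250)) (η := (649 / 2000)) hτ Tp_pos Tp_lt cos_Tp (by norm_num) (by norm_num) le_Tp t2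
    (by norm_num)
  have gA : R ≤ (153 / 200) → RA τ R (153 / 200) (4811 / 5000) (883 / 2500) (1917 / 2500) (4699 / 5000) := fun hR =>
    RA.of (cl := (72137 / 100000)) hτ hR0 hR (by norm_num) t1 t2 (by norm_num) hc
      (by norm_num) (by norm_num) (by norm_num) (by norm_num) (by norm_num) (by norm_num)
      (by norm_num) (by norm_num) (by norm_num) (by norm_num) (by norm_num) (by norm_num)
  have ga : (153 / 200) ≤ R → Ra τ R (153 / 200) (241 / 625) (2343 / 2500) := fun hR =>
    Ra.of (cu := (72139 / 100000)) hτ hR hR2 (by norm_num) t1 t2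
      (by norm_num) (by norm_num) (by norm_num) (by norm_num) (by norm_num)
  rcases le_total b (51 / 100) with k1 | k1
  · have hp : P ≤ (5867 / 10000) := by
      rcases le_total R (153 / 200) with hR | hR
      · exact (pieceA (p := (5867 / 10000)) (F := (24307 / 100000)) h (gA hR) (by norm_num) b1 k1 (by norm_num)
          (Or.inr ⟨by norm_num, by norm_num, by norm_num, by norm_num⟩) (by norm_num)).trans (by norm_num)
      · exact piecea (c := (15683 / 25000)) (s := (19793 / 100000)) h (ga hR) (by norm_num) (by norm_num) b1 k1 (by norm_num)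
          (by norm_num) (by norm_num) (Or.inr (by norm_num)) (by norm_num) (by norm_num)
    exact pos_fin (g := (577 / 1250)) hτ Tp_pos Tp_lt hS e1 e2 (by norm_num) (by norm_num) b1 k1 h.P0 (by norm_num)
      (hp.trans (by norm_num)) (by norm_num) (by norm_num)
  have hp : P ≤ (851 / 1250) := by
    rcases le_total R (153 / 200) with hR | hR
    · exact (pieceA (p := (851 / 1250)) (F := (27601 / 50000)) h (gA hR) (by norm_num) k1 b2 (by norm_num)
        (Or.inr ⟨by norm_num, by norm_num, by norm_num, by norm_num⟩) (by norm_num)).trans (by norm_num)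
    · exact piecea (c := (4793 / 10000)) (s := (1581 / 4000)) h (ga hR) (by norm_num) (by norm_num) k1 b2 (by norm_num)
        (by norm_num) (by norm_num) (Or.inr (by norm_num)) (by norm_num) (by norm_num)
  exact pos_fin (g := (5213 / 10000)) hτ Tp_pos Tp_lt hS e1 e2 (by norm_num) (by norm_num) k1 b2 h.P0 (by norm_num)
    (hp.trans (by norm_num)) (by norm_num) (by norm_num)

theorem lpa5 (hτ : 0 < τ) (h : SlD τ R (289 / 625) b P) (t1 : (3 / 10) ≤ τ ^ 2)
    (t2 : τ ^ 2 ≤ (7 / 20)) (hR0 : 0 < R) (hR2 : R < π / 2) (hc : cos R ^ 2 ≤ (157 / 250))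
    (b1 : (2 / 5) ≤ b) (b2 : b ≤ 1) : lossJ τ b P Tp ≤ (3 / 100) := by
  have hS := sJ_le (S := (1889 / 5000)) hτ Tp_pos Tp_lt cos_Tp t2 (by norm_num) (by norm_num)
  have e1 := eta_ge (κ := (83 / 80)) (η := (3209 / 10000)) hτ Tp_pos Tp_lt cos_Tp (by norm_num) (by norm_num) Tp_le (by norm_num)
    t1 (by linarith) (by norm_num)
  have e2 := eta_le (κ := (1297 / 1250)) (η := (1667 / 5000)) hτ Tp_pos Tp_lt cos_Tp (by norm_num) (by norm_num) le_Tp t2
    (by norm_num)
  have gA : R ≤ (31 / 40) → RA τ R (31 / 40) (4833 / 5000) (3819 / 10000) (8403 / 10000) (9699 / 10000) := fun hR =>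
    RA.of (cl := (71441 / 100000)) hτ hR0 hR (by norm_num) t1 t2 (by norm_num) hc
      (by norm_num) (by norm_num) (by norm_num) (by norm_num) (by norm_num) (by norm_num)
      (by norm_num) (by norm_num) (by norm_num) (by norm_num) (by norm_num) (by norm_num)
  have ga : (31 / 40) ≤ R → Ra τ R (31 / 40) (4111 / 10000) (4843 / 5000) := fun hR =>
    Ra.of (cu := (71443 / 100000)) hτ hR hR2 (by norm_num) t1 t2
      (by norm_num) (by norm_num) (by norm_num) (by norm_num) (by norm_num)
  rcases le_total b (13 / 25) with k1 | k1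
  · have hp : P ≤ (23 / 40) := by
      rcases le_total R (31 / 40) with hR | hR
      · exact (pieceA (p := (23 / 40)) (F := (21093 / 100000)) h (gA hR) (by norm_num) b1 k1 (by norm_num)
          (Or.inr ⟨by norm_num, by norm_num, by norm_num, by norm_num⟩) (by norm_num)).trans (by norm_num)
      · exact piecea (c := (63329 / 100000)) (s := (21541 / 100000)) h (ga hR) (by norm_num) (by norm_num) b1 k1 (by norm_num)
          (by norm_num) (by norm_num) (Or.inr (by norm_num)) (by norm_num) (by norm_num)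
    exact pos_fin (g := (4467 / 10000)) hτ Tp_pos Tp_lt hS e1 e2 (by norm_num) (by norm_num) b1 k1 h.P0 (by norm_num)
      (hp.trans (by norm_num)) (by norm_num) (by norm_num)
  have hp : P ≤ (6761 / 10000) := by
    rcases le_total R (31 / 40) with hR | hR
    · exact (pieceA (p := (6761 / 10000)) (F := (13791 / 25000)) h (gA hR) (by norm_num) k1 b2 (by norm_num)
        (Or.inr ⟨by norm_num, by norm_num, by norm_num, by norm_num⟩) (by norm_num)).trans (by norm_num)
    · exact piecea (c := (47213 / 100000)) (s := (1057 / 2500)) h (ga hR) (by norm_num) (by norm_num) k1 b2 (by norm_num)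
        (by norm_num) (by norm_num) (Or.inr (by norm_num)) (by norm_num) (by norm_num)
  exact pos_fin (g := (5093 / 10000)) hτ Tp_pos Tp_lt hS e1 e2 (by norm_num) (by norm_num) k1 b2 h.P0 (by norm_num)
    (hp.trans (by norm_num)) (by norm_num) (by norm_num)

theorem lpa6 (hτ : 0 < τ) (h : SlD τ R (289 / 625) b P) (t1 : (7 / 20) ≤ τ ^ 2)
    (t2 : τ ^ 2 ≤ (2 / 5)) (hR0 : 0 < R) (hR2 : R < π / 2) (hc : cos R ^ 2 ≤ (619 / 1000))
    (b1 : (2 / 5) ≤ b) (b2 : b ≤ 1) : lossJ τ b P Tp ≤ (3 / 100) := by
  have hS := sJ_le (S := (799 / 2000)) hτ Tp_pos Tp_lt cos_Tp t2 (by norm_num) (by norm_num)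
  have e1 := eta_ge (κ := (83 / 80)) (η := (1643 / 5000)) hτ Tp_pos Tp_lt cos_Tp (by norm_num) (by norm_num) Tp_le (by norm_num)
    t1 (by linarith) (by norm_num)
  have e2 := eta_le (κ := (1297 / 1250)) (η := (214 / 625)) hτ Tp_pos Tp_lt cos_Tp (by norm_num) (by norm_num) le_Tp t2
    (by norm_num)
  have gA : R ≤ (157 / 200) → RA τ R (157 / 200) (607 / 625) (4071 / 10000) (9073 / 10000) (9989 / 10000) := fun hR =>
    RA.of (cl := (35369 / 50000)) hτ hR0 hR (by norm_num) t1 t2 (by norm_num) hc
      (by norm_num) (by norm_num) (by norm_num) (by norm_num) (by norm_num) (by norm_num)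
      (by norm_num) (by norm_num) (by norm_num) (by norm_num) (by norm_num) (by norm_num)
  have ga : (157 / 200) ≤ R → Ra τ R (157 / 200) (2169 / 5000) (2497 / 2500) := fun hR =>
    Ra.of (cu := (70739 / 100000)) hτ hR hR2 (by norm_num) t1 t2
      (by norm_num) (by norm_num) (by norm_num) (by norm_num) (by norm_num)
  rcases le_total b (53 / 100) with k1 | k1
  · have hp : P ≤ (2829 / 5000) := by
      rcases le_total R (157 / 200) with hR | hR
      · exact (pieceA (p := (2829 / 5000)) (F := (18303 / 100000)) h (gA hR) (by norm_num) b1 k1 (by norm_num)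
          (Or.inr ⟨by norm_num, by norm_num, by norm_num, by norm_num⟩) (by norm_num)).trans (by norm_num)
      · exact piecea (c := (63731 / 100000)) (s := (4639 / 20000)) h (ga hR) (by norm_num) (by norm_num) b1 k1 (by norm_num)
          (by norm_num) (by norm_num) (Or.inr (by norm_num)) (by norm_num) (by norm_num)
    exact pos_fin (g := (543 / 1250)) hτ Tp_pos Tp_lt hS e1 e2 (by norm_num) (by norm_num) b1 k1 h.P0 (by norm_num)
      (hp.trans (by norm_num)) (by norm_num) (by norm_num)
  have hp : P ≤ (6741 / 10000) := by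
    rcases le_total R (157 / 200) with hR | hR
    · exact (pieceA (p := (6741 / 10000)) (F := (6949 / 12500)) h (gA hR) (by norm_num) k1 b2 (by norm_num)
        (Or.inr ⟨by norm_num, by norm_num, by norm_num, by norm_num⟩) (by norm_num)).trans (by norm_num)
    · exact piecea (c := (11559 / 25000)) (s := (11189 / 25000)) h (ga hR) (by norm_num) (by norm_num) k1 b2 (by norm_num)
        (by norm_num) (by norm_num) (Or.inr (by norm_num)) (by norm_num) (by norm_num)
  exact pos_fin (g := (1 / 2)) hτ Tp_pos Tp_lt hS e1 e2 (by norm_num) (by norm_num) k1 b2 h.P0 (by norm_num)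
    (hp.trans (by norm_num)) (by norm_num) (by norm_num)

theorem lpa7 (hτ : 0 < τ) (h : SlD τ R (289 / 625) b P) (t1 : (2 / 5) ≤ τ ^ 2)
    (t2 : τ ^ 2 ≤ (1 / 2)) (hR0 : 0 < R) (hR2 : R < π / 2) (hc : cos R ^ 2 ≤ (61 / 100))
    (b1 : (2 / 5) ≤ b) (b2 : b ≤ 1) : lossJ τ b P Tp ≤ (3 / 100) := by
  have hS := sJ_le (S := (2187 / 5000)) hτ Tp_pos Tp_lt cos_Tp t2 (by norm_num) (by norm_num)
  have e1 := eta_ge (κ := (83 / 80)) (η := (1681 / 5000)) hτ Tp_pos Tp_lt cos_Tp (by norm_num) (by norm_num) Tp_le (by norm_num)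
    t1 (by linarith) (by norm_num)
  have e2 := eta_le (κ := (1297 / 1250)) (η := (3603 / 10000)) hτ Tp_pos Tp_lt cos_Tp (by norm_num) (by norm_num) le_Tp t2
    (by norm_num)
  have gA : R ≤ (161 / 200) → RA τ R (161 / 200) (4877 / 5000) (4253 / 10000) (2393 / 2500) (1323 / 1250) := fun hR =>
    RA.of (cl := (6931 / 10000)) hτ hR0 hR (by norm_num) t1 t2 (by norm_num) hc
      (by norm_num) (by norm_num) (by norm_num) (by norm_num) (by norm_num) (by norm_num)
      (by norm_num) (by norm_num) (by norm_num) (by norm_num) (by norm_num) (by norm_num)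
  have ga : (161 / 200) ≤ R → Ra τ R (161 / 200) (2363 / 5000) (10543 / 10000) := fun hR =>
    Ra.of (cu := (2166 / 3125)) hτ hR hR2 (by norm_num) t1 t2
      (by norm_num) (by norm_num) (by norm_num) (by norm_num) (by norm_num)
  rcases le_total b (47 / 100) with k1 | k1
  · have hp : P ≤ (1099 / 2000) := by
      rcases le_total R (161 / 200) with hR | hR
      · exact (pieceA (p := (1099 / 2000)) (F := (6467 / 50000)) h (gA hR) (by norm_num) b1 k1 (by norm_num)
          (Or.inr ⟨by norm_num, by norm_num, by norm_num, by norm_num⟩) (by norm_num)).trans (by norm_num)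
      · exact piecea (c := (4023 / 6250)) (s := (5599 / 25000)) h (ga hR) (by norm_num) (by norm_num) b1 k1 (by norm_num)
          (by norm_num) (by norm_num) (Or.inr (by norm_num)) (by norm_num) (by norm_num)
    exact pos_fin (g := (4151 / 10000)) hτ Tp_pos Tp_lt hS e1 e2 (by norm_num) (by norm_num) b1 k1 h.P0 (by norm_num)
      (hp.trans (by norm_num)) (by norm_num) (by norm_num)
  rcases le_total b (18 / 25) with k2 | k2
  · have hp : P ≤ (76 / 125) := by
      rcases le_total R (161 / 200) with hR | hR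
      · exact (pieceA (p := (76 / 125)) (F := (17301 / 50000)) h (gA hR) (by norm_num) k1 k2 (by norm_num)
          (Or.inr ⟨by norm_num, by norm_num, by norm_num, by norm_num⟩) (by norm_num)).trans (by norm_num)
      · exact piecea (c := (27587 / 50000)) (s := (34689 / 100000)) h (ga hR) (by norm_num) (by norm_num) k1 k2 (by norm_num)
          (by norm_num) (by norm_num) (Or.inr (by norm_num)) (by norm_num) (by norm_num)
    exact pos_fin (g := (9 / 20)) hτ Tp_pos Tp_lt hS e1 e2 (by norm_num) (by norm_num) k1 k2 h.P0 (by norm_num)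
      (hp.trans (by norm_num)) (by norm_num) (by norm_num)
  have hp : P ≤ (799 / 1000) := by
    rcases le_total R (161 / 200) with hR | hR
    · exact (pieceA (p := (799 / 1000)) (F := (87353 / 100000)) h (gA hR) (by norm_num) k2 b2 (by norm_num)
        (Or.inr ⟨by norm_num, by norm_num, by norm_num, by norm_num⟩) (by norm_num)).trans (by norm_num)
    · exact piecea (c := (19103 / 100000)) (s := (49043 / 100000)) h (ga hR) (by norm_num) (by norm_num) k2 b2 (by norm_num)
        (by norm_num) (by norm_num) (Or.inr (by norm_num)) (by norm_num) (by norm_num)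
  exact pos_fin (g := (557 / 1000)) hτ Tp_pos Tp_lt hS e1 e2 (by norm_num) (by norm_num) k2 b2 h.P0 (by norm_num)
    (hp.trans (by norm_num)) (by norm_num) (by norm_num)

theorem lpa8 (hτ : 0 < τ) (h : SlD τ R (289 / 625) b P) (t1 : (1 / 2) ≤ τ ^ 2)
    (t2 : τ ^ 2 ≤ (11 / 20)) (hR0 : 0 < R) (hR2 : R < π / 2) (hc : cos R ^ 2 ≤ (591 / 1000))
    (b1 : (2 / 5) ≤ b) (b2 : b ≤ 1) : lossJ τ b P Tp ≤ (9 / 400) := by
  have hS := sJ_le (S := (227 / 500)) hτ Tp_pos Tp_lt cos_Tp t2 (by norm_num) (by norm_num)
  have e1 := eta_ge (κ := (83 / 80)) (η := (877 / 2500)) hτ Tp_pos Tp_lt cos_Tp (by norm_num) (by norm_num) Tp_le (by norm_num)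
    t1 (by linarith) (by norm_num)
  have e2 := eta_le (κ := (1297 / 1250)) (η := (3693 / 10000)) hτ Tp_pos Tp_lt cos_Tp (by norm_num) (by norm_num) le_Tp t2
    (by norm_num)
  have gA : R ≤ (41 / 50) → RA τ R (41 / 50) (1229 / 1250) (4653 / 10000) (10711 / 10000) (10991 / 10000) := fun hR =>
    RA.of (cl := (68221 / 100000)) hτ hR0 hR (by norm_num) t1 t2 (by norm_num) hc
      (by norm_num) (by norm_num) (by norm_num) (by norm_num) (by norm_num) (by norm_num)
      (by norm_num) (by norm_num) (by norm_num) (by norm_num) (by norm_num) (by norm_num)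
  have ga : (41 / 50) ≤ R → Ra τ R (41 / 50) (1217 / 2500) (5479 / 5000) := fun hR =>
    Ra.of (cu := (68223 / 100000)) hτ hR hR2 (by norm_num) t1 t2
      (by norm_num) (by norm_num) (by norm_num) (by norm_num) (by norm_num)
  rcases le_total b (41 / 100) with k1 | k1
  · have hp : P ≤ (1233 / 2500) := by
      rcases le_total R (41 / 50) with hR | hR
      · exact (pieceA (p := (1233 / 2500)) (F := (47 / 20000)) h (gA hR) (by norm_num) b1 k1 (by norm_num)
          (Or.inr ⟨by norm_num, by norm_num, by norm_num, by norm_num⟩) (by norm_num)).trans (by norm_num)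
      · exact piecea (c := (13627 / 20000)) (s := (5023 / 25000)) h (ga hR) (by norm_num) (by norm_num) b1 k1 (by norm_num)
          (by norm_num) (by norm_num) (Or.inr (by norm_num)) (by norm_num) (by norm_num)
    exact pos_fin (g := (3529 / 10000)) hτ Tp_pos Tp_lt hS e1 e2 (by norm_num) (by norm_num) b1 k1 h.P0 (by norm_num)
      (hp.trans (by norm_num)) (by norm_num) (by norm_num)
  rcases le_total b (23 / 50) with k2 | k2
  · have hp : P ≤ (5011 / 10000) := by
      rcases le_total R (41 / 50) with hR | hR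
      · exact (pieceA (p := (5011 / 10000)) (F := (3401 / 100000)) h (gA hR) (by norm_num) k1 k2 (by norm_num)
          (Or.inr ⟨by norm_num, by norm_num, by norm_num, by norm_num⟩) (by norm_num)).trans (by norm_num)
      · exact piecea (c := (16737 / 25000)) (s := (22581 / 100000)) h (ga hR) (by norm_num) (by norm_num) k1 k2 (by norm_num)
          (by norm_num) (by norm_num) (Or.inr (by norm_num)) (by norm_num) (by norm_num)
    exact pos_fin (g := (3573 / 10000)) hτ Tp_pos Tp_lt hS e1 e2 (by norm_num) (by norm_num) k1 k2 h.P0 (by norm_num)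
      (hp.trans (by norm_num)) (by norm_num) (by norm_num)
  rcases le_total b (3 / 5) with k3 | k3
  · have hp : P ≤ (5397 / 10000) := by
      rcases le_total R (41 / 50) with hR | hR
      · exact (pieceA (p := (5397 / 10000)) (F := (3787 / 20000)) h (gA hR) (by norm_num) k2 k3 (by norm_num)
          (Or.inr ⟨by norm_num, by norm_num, by norm_num, by norm_num⟩) (by norm_num)).trans (by norm_num)
      · exact piecea (c := (60829 / 100000)) (s := (14813 / 50000)) h (ga hR) (by norm_num) (by norm_num) k2 k3 (by norm_num)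
          (by norm_num) (by norm_num) (Or.inr (by norm_num)) (by norm_num) (by norm_num)
    exact pos_fin (g := (473 / 1250)) hτ Tp_pos Tp_lt hS e1 e2 (by norm_num) (by norm_num) k2 k3 h.P0 (by norm_num)
      (hp.trans (by norm_num)) (by norm_num) (by norm_num)
  rcases le_total b (49 / 50) with k4 | k4
  · have hp : P ≤ (3213 / 5000) := by
      rcases le_total R (41 / 50) with hR | hR
      · exact (pieceA (p := (3213 / 5000)) (F := (57781 / 100000)) h (gA hR) (by norm_num) k3 k4 (by norm_num)
          (Or.inr ⟨by norm_num, by norm_num, by norm_num, by norm_num⟩) (by norm_num)).trans (by norm_num)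
      · exact piecea (c := (169 / 400)) (s := (49541 / 100000)) h (ga hR) (by norm_num) (by norm_num) k3 k4 (by norm_num)
          (by norm_num) (by norm_num) (Or.inr (by norm_num)) (by norm_num) (by norm_num)
    exact pos_fin (g := (2161 / 5000)) hτ Tp_pos Tp_lt hS e1 e2 (by norm_num) (by norm_num) k3 k4 h.P0 (by norm_num)
      (hp.trans (by norm_num)) (by norm_num) (by norm_num)
  have hp : P ≤ (8961 / 10000) := by
    rcases le_total R (41 / 50) with hR | hR
    · exact (pieceA (p := (479 / 625)) (F := (3687 / 4000)) h (gA hR) (by norm_num) k4 b2 (by norm_num)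
        (Or.inr ⟨by norm_num, by norm_num, by norm_num, by norm_num⟩) (by norm_num)).trans (by norm_num)
    · exact piecea (c := 0) (s := (5063 / 10000)) h (ga hR) (by norm_num) (by norm_num) k4 b2 (by norm_num)
        (by norm_num) (by norm_num) (Or.inl (by norm_num)) (by norm_num) (by norm_num)
  exact pos_fin (g := (1381 / 2500)) hτ Tp_pos Tp_lt hS e1 e2 (by norm_num) (by norm_num) k4 b2 h.P0 (by norm_num)
    (hp.trans (by norm_num)) (by norm_num) (by norm_num)

theorem lpa9 (hτ : 0 < τ) (h : SlD τ R (289 / 625) b P) (t1 : (11 / 20) ≤ τ ^ 2)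
    (t2 : τ ^ 2 ≤ (3 / 5)) (hR0 : 0 < R) (hR2 : R < π / 2) (hc : cos R ^ 2 ≤ (291 / 500))
    (b1 : (2 / 5) ≤ b) (b2 : b ≤ 1) : lossJ τ b P Tp ≤ (9 / 400) := by
  have hS := sJ_le (S := (939 / 2000)) hτ Tp_pos Tp_lt cos_Tp t2 (by norm_num) (by norm_num)
  have e1 := eta_ge (κ := (83 / 80)) (η := (1789 / 5000)) hτ Tp_pos Tp_lt cos_Tp (by norm_num) (by norm_num) Tp_le (by norm_num)
    t1 (by linarith) (by norm_num)
  have e2 := eta_le (κ := (1297 / 1250)) (η := (1891 / 5000)) hτ Tp_pos Tp_lt cos_Tp (by norm_num) (by norm_num) le_Tp t2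
    (by norm_num)
  have gA : R ≤ (83 / 100) → RA τ R (83 / 100) (1233 / 1250) (301 / 625) (11193 / 10000) (11263 / 10000) := fun hR =>
    RA.of (cl := (67487 / 100000)) hτ hR0 hR (by norm_num) t1 t2 (by norm_num) hc
      (by norm_num) (by norm_num) (by norm_num) (by norm_num) (by norm_num) (by norm_num)
      (by norm_num) (by norm_num) (by norm_num) (by norm_num) (by norm_num) (by norm_num)
  have ga : (83 / 100) ≤ R → Ra τ R (83 / 100) (2509 / 5000) (5611 / 5000) := fun hR =>
    Ra.of (cu := (2109 / 3125)) hτ hR hR2 (by norm_num) t1 t2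
      (by norm_num) (by norm_num) (by norm_num) (by norm_num) (by norm_num)
  rcases le_total b (11 / 25) with k1 | k1
  · have hp : P ≤ (4901 / 10000) := by
      rcases le_total R (83 / 100) with hR | hR
      · exact (pieceA (p := (4901 / 10000)) (F := (-79 / 5000)) h (gA hR) (by norm_num) b1 k1 (by norm_num)
          (Or.inl ⟨by norm_num, by norm_num⟩) (by norm_num)).trans (by norm_num)
      · exact piecea (c := (68069 / 100000)) (s := (1113 / 5000)) h (ga hR) (by norm_num) (by norm_num) b1 k1 (by norm_num)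
          (by norm_num) (by norm_num) (Or.inr (by norm_num)) (by norm_num) (by norm_num)
    exact pos_fin (g := (347 / 1000)) hτ Tp_pos Tp_lt hS e1 e2 (by norm_num) (by norm_num) b1 k1 h.P0 (by norm_num)
      (hp.trans (by norm_num)) (by norm_num) (by norm_num)
  rcases le_total b (11 / 20) with k2 | k2
  · have hp : P ≤ (5213 / 10000) := by
      rcases le_total R (83 / 100) with hR | hR
      · exact (pieceA (p := (5213 / 10000)) (F := (5561 / 50000)) h (gA hR) (by norm_num) k1 k2 (by norm_num)
          (Or.inr ⟨by norm_num, by norm_num, by norm_num, by norm_num⟩) (by norm_num)).trans (by norm_num)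
      · exact piecea (c := (63213 / 100000)) (s := (27951 / 100000)) h (ga hR) (by norm_num) (by norm_num) k1 k2 (by norm_num)
          (by norm_num) (by norm_num) (Or.inr (by norm_num)) (by norm_num) (by norm_num)
    exact pos_fin (g := (3639 / 10000)) hτ Tp_pos Tp_lt hS e1 e2 (by norm_num) (by norm_num) k1 k2 h.P0 (by norm_num)
      (hp.trans (by norm_num)) (by norm_num) (by norm_num)
  rcases le_total b (21 / 25) with k3 | k3
  · have hp : P ≤ (1509 / 2500) := by
      rcases le_total R (83 / 100) with hR | hR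
      · exact (pieceA (p := (1509 / 2500)) (F := (43791 / 100000)) h (gA hR) (by norm_num) k2 k3 (by norm_num)
          (Or.inr ⟨by norm_num, by norm_num, by norm_num, by norm_num⟩) (by norm_num)).trans (by norm_num)
      · exact piecea (c := (48879 / 100000)) (s := (43413 / 100000)) h (ga hR) (by norm_num) (by norm_num) k2 k3 (by norm_num)
          (by norm_num) (by norm_num) (Or.inr (by norm_num)) (by norm_num) (by norm_num)
    exact pos_fin (g := (4069 / 10000)) hτ Tp_pos Tp_lt hS e1 e2 (by norm_num) (by norm_num) k2 k3 h.P0 (by norm_num)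
      (hp.trans (by norm_num)) (by norm_num) (by norm_num)
  have hp : P ≤ (4017 / 5000) := by
    rcases le_total R (83 / 100) with hR | hR
    · exact (pieceA (p := (4017 / 5000)) (F := (92633 / 100000)) h (gA hR) (by norm_num) k3 b2 (by norm_num)
        (Or.inr ⟨by norm_num, by norm_num, by norm_num, by norm_num⟩) (by norm_num)).trans (by norm_num)
    · exact piecea (c := (877 / 12500)) (s := (26159 / 50000)) h (ga hR) (by norm_num) (by norm_num) k3 b2 (by norm_num)
        (by norm_num) (by norm_num) (Or.inr (by norm_num)) (by norm_num) (by norm_num)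
  exact pos_fin (g := (5029 / 10000)) hτ Tp_pos Tp_lt hS e1 e2 (by norm_num) (by norm_num) k3 b2 h.P0 (by norm_num)
    (hp.trans (by norm_num)) (by norm_num) (by norm_num)

theorem lpa10 (hτ : 0 < τ) (h : SlD τ R (289 / 625) b P) (t1 : (3 / 5) ≤ τ ^ 2)
    (t2 : τ ^ 2 ≤ (13 / 20)) (hR0 : 0 < R) (hR2 : R < π / 2) (hc : cos R ^ 2 ≤ (143 / 250))
    (b1 : (2 / 5) ≤ b) (b2 : b ≤ 1) : lossJ τ b P Tp ≤ (21 / 1000) := by
  have hS := sJ_le (S := (4839 / 10000)) hτ Tp_pos Tp_lt cos_Tp t2 (by norm_num) (by norm_num)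
  have e1 := eta_ge (κ := (83 / 80)) (η := (1823 / 5000)) hτ Tp_pos Tp_lt cos_Tp (by norm_num) (by norm_num) Tp_le (by norm_num)
    t1 (by linarith) (by norm_num)
  have e2 := eta_le (κ := (1297 / 1250)) (η := (242 / 625)) hτ Tp_pos Tp_lt cos_Tp (by norm_num) (by norm_num) le_Tp t2
    (by norm_num)
  have gA : R ≤ (21 / 25) → RA τ R (21 / 25) (1979 / 2000) (4963 / 10000) (291 / 250) (1153 / 1000) := fun hR =>
    RA.of (cl := (13349 / 20000)) hτ hR0 hR (by norm_num) t1 t2 (by norm_num) hc
      (by norm_num) (by norm_num) (by norm_num) (by norm_num) (by norm_num) (by norm_num)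
      (by norm_num) (by norm_num) (by norm_num) (by norm_num) (by norm_num) (by norm_num)
  have ga : (21 / 25) ≤ R → Ra τ R (21 / 25) (2577 / 5000) (5741 / 5000) := fun hR =>
    Ra.of (cu := (66747 / 100000)) hτ hR hR2 (by norm_num) t1 t2
      (by norm_num) (by norm_num) (by norm_num) (by norm_num) (by norm_num)
  rcases le_total b (11 / 25) with k1 | k1
  · have hp : P ≤ (119 / 250) := by
      rcases le_total R (21 / 25) with hR | hR
      · exact (pieceA (p := (119 / 250)) (F := (-7 / 125)) h (gA hR) (by norm_num) b1 k1 (by norm_num)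
          (Or.inl ⟨by norm_num, by norm_num⟩) (by norm_num)).trans (by norm_num)
      · exact piecea (c := (13761 / 20000)) (s := (22873 / 100000)) h (ga hR) (by norm_num) (by norm_num) b1 k1 (by norm_num)
          (by norm_num) (by norm_num) (Or.inr (by norm_num)) (by norm_num) (by norm_num)
    exact pos_fin (g := (1651 / 5000)) hτ Tp_pos Tp_lt hS e1 e2 (by norm_num) (by norm_num) b1 k1 h.P0 (by norm_num)
      (hp.trans (by norm_num)) (by norm_num) (by norm_num)
  rcases le_total b (27 / 50) with k2 | k2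
  · have hp : P ≤ (5067 / 10000) := by
      rcases le_total R (21 / 25) with hR | hR
      · exact (pieceA (p := (5067 / 10000)) (F := (7177 / 100000)) h (gA hR) (by norm_num) k1 k2 (by norm_num)
          (Or.inr ⟨by norm_num, by norm_num, by norm_num, by norm_num⟩) (by norm_num)).trans (by norm_num)
      · exact piecea (c := (16 / 25)) (s := (28193 / 100000)) h (ga hR) (by norm_num) (by norm_num) k1 k2 (by norm_num)
          (by norm_num) (by norm_num) (Or.inr (by norm_num)) (by norm_num) (by norm_num)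
    exact pos_fin (g := (3463 / 10000)) hτ Tp_pos Tp_lt hS e1 e2 (by norm_num) (by norm_num) k1 k2 h.P0 (by norm_num)
      (hp.trans (by norm_num)) (by norm_num) (by norm_num)
  rcases le_total b (39 / 50) with k3 | k3
  · have hp : P ≤ (1161 / 2000) := by
      rcases le_total R (21 / 25) with hR | hR
      · exact (pieceA (p := (1161 / 2000)) (F := (37447 / 100000)) h (gA hR) (by norm_num) k2 k3 (by norm_num)
          (Or.inr ⟨by norm_num, by norm_num, by norm_num, by norm_num⟩) (by norm_num)).trans (by norm_num)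
      · exact piecea (c := (5113 / 10000)) (s := (8259 / 20000)) h (ga hR) (by norm_num) (by norm_num) k2 k3 (by norm_num)
          (by norm_num) (by norm_num) (Or.inr (by norm_num)) (by norm_num) (by norm_num)
    exact pos_fin (g := (3837 / 10000)) hτ Tp_pos Tp_lt hS e1 e2 (by norm_num) (by norm_num) k2 k3 h.P0 (by norm_num)
      (hp.trans (by norm_num)) (by norm_num) (by norm_num)
  have hp : P ≤ (3727 / 5000) := by
    rcases le_total R (21 / 25) with hR | hR
    · exact (pieceA (p := (3727 / 5000)) (F := (43849 / 50000)) h (gA hR) (by norm_num) k3 b2 (by norm_num)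
        (Or.inr ⟨by norm_num, by norm_num, by norm_num, by norm_num⟩) (by norm_num)).trans (by norm_num)
    · exact piecea (c := (16939 / 100000)) (s := (53859 / 100000)) h (ga hR) (by norm_num) (by norm_num) k3 b2 (by norm_num)
        (by norm_num) (by norm_num) (Or.inr (by norm_num)) (by norm_num) (by norm_num)
  exact pos_fin (g := (4611 / 10000)) hτ Tp_pos Tp_lt hS e1 e2 (by norm_num) (by norm_num) k3 b2 h.P0 (by norm_num)
    (hp.trans (by norm_num)) (by norm_num) (by norm_num)

theorem lpa11 (hτ : 0 < τ) (h : SlD τ R (289 / 625) b P) (t1 : (13 / 20) ≤ τ ^ 2)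
    (t2 : τ ^ 2 ≤ (7 / 10)) (hR0 : 0 < R) (hR2 : R < π / 2) (hc : cos R ^ 2 ≤ (563 / 1000))
    (b1 : (2 / 5) ≤ b) (b2 : b ≤ 1) : lossJ τ b P Tp ≤ (21 / 1000) := by
  have hS := sJ_le (S := (2487 / 5000)) hτ Tp_pos Tp_lt cos_Tp t2 (by norm_num) (by norm_num)
  have e1 := eta_ge (κ := (83 / 80)) (η := (3713 / 10000)) hτ Tp_pos Tp_lt cos_Tp (by norm_num) (by norm_num) Tp_le (by norm_num)
    t1 (by linarith) (by norm_num)
  have e2 := eta_le (κ := (1297 / 1250)) (η := (1981 / 5000)) hτ Tp_pos Tp_lt cos_Tp (by norm_num) (by norm_num) le_Tp t2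
    (by norm_num)
  have gA : R ≤ (17 / 20) → RA τ R (17 / 20) (2479 / 2500) (637 / 1250) (6027 / 5000) (5897 / 5000) := fun hR =>
    RA.of (cl := (65997 / 100000)) hτ hR0 hR (by norm_num) t1 t2 (by norm_num) hc
      (by norm_num) (by norm_num) (by norm_num) (by norm_num) (by norm_num) (by norm_num)
      (by norm_num) (by norm_num) (by norm_num) (by norm_num) (by norm_num) (by norm_num)
  have ga : (17 / 20) ≤ R → Ra τ R (17 / 20) (5277 / 10000) (11739 / 10000) := fun hR =>
    Ra.of (cu := (65999 / 100000)) hτ hR hR2 (by norm_num) t1 t2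
      (by norm_num) (by norm_num) (by norm_num) (by norm_num) (by norm_num)
  rcases le_total b (9 / 20) with k1 | k1
  · have hp : P ≤ (2371 / 5000) := by
      rcases le_total R (17 / 20) with hR | hR
      · exact (pieceA (p := (2371 / 5000)) (F := (-179 / 2500)) h (gA hR) (by norm_num) b1 k1 (by norm_num)
          (Or.inl ⟨by norm_num, by norm_num⟩) (by norm_num)).trans (by norm_num)
      · exact piecea (c := (34323 / 50000)) (s := (23971 / 100000)) h (ga hR) (by norm_num) (by norm_num) b1 k1 (by norm_num)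
          (by norm_num) (by norm_num) (Or.inr (by norm_num)) (by norm_num) (by norm_num)
    exact pos_fin (g := (3257 / 10000)) hτ Tp_pos Tp_lt hS e1 e2 (by norm_num) (by norm_num) b1 k1 h.P0 (by norm_num)
      (hp.trans (by norm_num)) (by norm_num) (by norm_num)
  rcases le_total b (14 / 25) with k2 | k2
  · have hp : P ≤ (1281 / 2500) := by
      rcases le_total R (17 / 20) with hR | hR
      · exact (pieceA (p := (1281 / 2500)) (F := (2223 / 25000)) h (gA hR) (by norm_num) k1 k2 (by norm_num)
          (Or.inr ⟨by norm_num, by norm_num, by norm_num, by norm_num⟩) (by norm_num)).trans (by norm_num)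
      · exact piecea (c := (391 / 625)) (s := (937 / 3125)) h (ga hR) (by norm_num) (by norm_num) k1 k2 (by norm_num)
          (by norm_num) (by norm_num) (Or.inr (by norm_num)) (by norm_num) (by norm_num)
    exact pos_fin (g := (1727 / 5000)) hτ Tp_pos Tp_lt hS e1 e2 (by norm_num) (by norm_num) k1 k2 h.P0 (by norm_num)
      (hp.trans (by norm_num)) (by norm_num) (by norm_num)
  rcases le_total b (41 / 50) with k3 | k3
  · have hp : P ≤ (5933 / 10000) := by
      rcases le_total R (17 / 20) with hR | hR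
      · exact (pieceA (p := (5933 / 10000)) (F := (42097 / 100000)) h (gA hR) (by norm_num) k2 k3 (by norm_num)
          (Or.inr ⟨by norm_num, by norm_num, by norm_num, by norm_num⟩) (by norm_num)).trans (by norm_num)
      · exact piecea (c := (24037 / 50000)) (s := (44637 / 100000)) h (ga hR) (by norm_num) (by norm_num) k2 k3 (by norm_num)
          (by norm_num) (by norm_num) (Or.inr (by norm_num)) (by norm_num) (by norm_num)
    exact pos_fin (g := (1927 / 5000)) hτ Tp_pos Tp_lt hS e1 e2 (by norm_num) (by norm_num) k2 k3 h.P0 (by norm_num)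
      (hp.trans (by norm_num)) (by norm_num) (by norm_num)
  have hp : P ≤ (7707 / 10000) := by
    rcases le_total R (17 / 20) with hR | hR
    · exact (pieceA (p := (7707 / 10000)) (F := (91341 / 100000)) h (gA hR) (by norm_num) k3 b2 (by norm_num)
        (Or.inr ⟨by norm_num, by norm_num, by norm_num, by norm_num⟩) (by norm_num)).trans (by norm_num)
    · exact piecea (c := (10293 / 100000)) (s := (55261 / 100000)) h (ga hR) (by norm_num) (by norm_num) k3 b2 (by norm_num)
        (by norm_num) (by norm_num) (Or.inr (by norm_num)) (by norm_num) (by norm_num)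
  exact pos_fin (g := (4663 / 10000)) hτ Tp_pos Tp_lt hS e1 e2 (by norm_num) (by norm_num) k3 b2 h.P0 (by norm_num)
    (hp.trans (by norm_num)) (by norm_num) (by norm_num)

theorem lpa12 (hτ : 0 < τ) (h : SlD τ R (289 / 625) b P) (t1 : (7 / 10) ≤ τ ^ 2)
    (t2 : τ ^ 2 ≤ (4 / 5)) (hR0 : 0 < R) (hR2 : R < π / 2) (hc : cos R ^ 2 ≤ (277 / 500))
    (b1 : (2 / 5) ≤ b) (b2 : b ≤ 1) : lossJ τ b P Tp ≤ (9 / 400) := by
  have hS := sJ_le (S := (5219 / 10000)) hτ Tp_pos Tp_lt cos_Tp t2 (by norm_num) (by norm_num)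
  have e1 := eta_ge (κ := (83 / 80)) (η := (3777 / 10000)) hτ Tp_pos Tp_lt cos_Tp (by norm_num) (by norm_num) Tp_le (by norm_num)
    t1 (by linarith) (by norm_num)
  have e2 := eta_le (κ := (1297 / 1250)) (η := (4141 / 10000)) hτ Tp_pos Tp_lt cos_Tp (by norm_num) (by norm_num) le_Tp t2
    (by norm_num)
  have gA : R ≤ (171 / 200) → RA τ R (171 / 200) (9903 / 10000) (1049 / 2000) (6263 / 5000) (1487 / 1250) := fun hR =>
    RA.of (cl := (65621 / 100000)) hτ hR0 hR (by norm_num) t1 t2 (by norm_num) hc
      (by norm_num) (by norm_num) (by norm_num) (by norm_num) (by norm_num) (by norm_num)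
      (by norm_num) (by norm_num) (by norm_num) (by norm_num) (by norm_num) (by norm_num)
  have ga : (171 / 200) ≤ R → Ra τ R (171 / 200) (279 / 500) (1179 / 1000) := fun hR =>
    Ra.of (cu := (32811 / 50000)) hτ hR hR2 (by norm_num) t1 t2
      (by norm_num) (by norm_num) (by norm_num) (by norm_num) (by norm_num)
  rcases le_total b (12 / 25) with k1 | k1
  · have hp : P ≤ (4801 / 10000) := by
      rcases le_total R (171 / 200) with hR | hR
      · exact (pieceA (p := (4801 / 10000)) (F := (-329 / 5000)) h (gA hR) (by norm_num) b1 k1 (by norm_num)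
          (Or.inl ⟨by norm_num, by norm_num⟩) (by norm_num)).trans (by norm_num)
      · exact piecea (c := (68069 / 100000)) (s := (13553 / 50000)) h (ga hR) (by norm_num) (by norm_num) b1 k1 (by norm_num)
          (by norm_num) (by norm_num) (Or.inr (by norm_num)) (by norm_num) (by norm_num)
    exact pos_fin (g := (3291 / 10000)) hτ Tp_pos Tp_lt hS e1 e2 (by norm_num) (by norm_num) b1 k1 h.P0 (by norm_num)
      (hp.trans (by norm_num)) (by norm_num) (by norm_num)
  rcases le_total b (33 / 50) with k2 | k2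
  · have hp : P ≤ (5417 / 10000) := by
      rcases le_total R (171 / 200) with hR | hR
      · exact (pieceA (p := (5417 / 10000)) (F := (1911 / 10000)) h (gA hR) (by norm_num) k1 k2 (by norm_num)
          (Or.inr ⟨by norm_num, by norm_num, by norm_num, by norm_num⟩) (by norm_num)).trans (by norm_num)
      · exact piecea (c := (28999 / 50000)) (s := (9417 / 25000)) h (ga hR) (by norm_num) (by norm_num) k1 k2 (by norm_num)
          (by norm_num) (by norm_num) (Or.inr (by norm_num)) (by norm_num) (by norm_num)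
    exact pos_fin (g := (721 / 2000)) hτ Tp_pos Tp_lt hS e1 e2 (by norm_num) (by norm_num) k1 k2 h.P0 (by norm_num)
      (hp.trans (by norm_num)) (by norm_num) (by norm_num)
  have hp : P ≤ (84 / 125) := by
    rcases le_total R (171 / 200) with hR | hR
    · exact (pieceA (p := (84 / 125)) (F := (341 / 500)) h (gA hR) (by norm_num) k2 b2 (by norm_num)
        (Or.inr ⟨by norm_num, by norm_num, by norm_num, by norm_num⟩) (by norm_num)).trans (by norm_num)
    · exact piecea (c := (3283 / 10000)) (s := (47 / 80)) h (ga hR) (by norm_num) (by norm_num) k2 b2 (by norm_num)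
        (by norm_num) (by norm_num) (Or.inr (by norm_num)) (by norm_num) (by norm_num)
  exact pos_fin (g := (1057 / 2500)) hτ Tp_pos Tp_lt hS e1 e2 (by norm_num) (by norm_num) k2 b2 h.P0 (by norm_num)
    (hp.trans (by norm_num)) (by norm_num) (by norm_num)

theorem lpa13 (hτ : 0 < τ) (h : SlD τ R (289 / 625) b P) (t1 : (4 / 5) ≤ τ ^ 2)
    (t2 : τ ^ 2 ≤ 1) (hR0 : 0 < R) (hR2 : R < π / 2) (hc : cos R ^ 2 ≤ (107 / 200))
    (b1 : (2 / 5) ≤ b) (b2 : b ≤ 1) : lossJ τ b P Tp ≤ (9 / 400) := by
  have hS := sJ_le (S := (352 / 625)) hτ Tp_pos Tp_lt cos_Tp t2 (by norm_num) (by norm_num)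
  have e1 := eta_ge (κ := (83 / 80)) (η := (3901 / 10000)) hτ Tp_pos Tp_lt cos_Tp (by norm_num) (by norm_num) Tp_le (by norm_num)
    t1 (by linarith) (by norm_num)
  have e2 := eta_le (κ := (1297 / 1250)) (η := (9 / 20)) hτ Tp_pos Tp_lt cos_Tp (by norm_num) (by norm_num) le_Tp t2
    (by norm_num)
  have gA : R ≤ (87 / 100) → RA τ R (87 / 100) (9857 / 10000) (5487 / 10000) (2663 / 2000) (12251 / 10000) := fun hR =>
    RA.of (cl := (64481 / 100000)) hτ hR0 hR (by norm_num) t1 t2 (by norm_num) hc
      (by norm_num) (by norm_num) (by norm_num) (by norm_num) (by norm_num) (by norm_num)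
      (by norm_num) (by norm_num) (by norm_num) (by norm_num) (by norm_num) (by norm_num)
  have ga : (87 / 100) ≤ R → Ra τ R (87 / 100) (243 / 400) (1503 / 1250) := fun hR =>
    Ra.of (cu := (64483 / 100000)) hτ hR hR2 (by norm_num) t1 t2
      (by norm_num) (by norm_num) (by norm_num) (by norm_num) (by norm_num)
  rcases le_total b (12 / 25) with k1 | k1
  · have hp : P ≤ (591 / 1250) := by
      rcases le_total R (87 / 100) with hR | hR
      · exact (pieceA (p := (591 / 1250)) (F := (-123 / 1250)) h (gA hR) (by norm_num) b1 k1 (by norm_num)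
          (Or.inl ⟨by norm_num, by norm_num⟩) (by norm_num)).trans (by norm_num)
      · exact piecea (c := (17041 / 25000)) (s := (3697 / 12500)) h (ga hR) (by norm_num) (by norm_num) b1 k1 (by norm_num)
          (by norm_num) (by norm_num) (Or.inr (by norm_num)) (by norm_num) (by norm_num)
    exact pos_fin (g := (198 / 625)) hτ Tp_pos Tp_lt hS e1 e2 (by norm_num) (by norm_num) b1 k1 h.P0 (by norm_num)
      (hp.trans (by norm_num)) (by norm_num) (by norm_num)
  rcases le_total b (33 / 50) with k2 | k2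
  · have hp : P ≤ (5343 / 10000) := by
      rcases le_total R (87 / 100) with hR | hR
      · exact (pieceA (p := (5343 / 10000)) (F := (16073 / 100000)) h (gA hR) (by norm_num) k1 k2 (by norm_num)
          (Or.inr ⟨by norm_num, by norm_num, by norm_num, by norm_num⟩) (by norm_num)).trans (by norm_num)
      · exact piecea (c := (29007 / 50000)) (s := (2059 / 5000)) h (ga hR) (by norm_num) (by norm_num) k1 k2 (by norm_num)
          (by norm_num) (by norm_num) (Or.inr (by norm_num)) (by norm_num) (by norm_num)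
    exact pos_fin (g := (3471 / 10000)) hτ Tp_pos Tp_lt hS e1 e2 (by norm_num) (by norm_num) k1 k2 h.P0 (by norm_num)
      (hp.trans (by norm_num)) (by norm_num) (by norm_num)
  have hp : P ≤ (1661 / 2500) := by
    rcases le_total R (87 / 100) with hR | hR
    · exact (pieceA (p := (1661 / 2500)) (F := (66083 / 100000)) h (gA hR) (by norm_num) k2 b2 (by norm_num)
        (Or.inr ⟨by norm_num, by norm_num, by norm_num, by norm_num⟩) (by norm_num)).trans (by norm_num)
    · exact piecea (c := (32613 / 100000)) (s := (6457 / 10000)) h (ga hR) (by norm_num) (by norm_num) k2 b2 (by norm_num)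
        (by norm_num) (by norm_num) (Or.inr (by norm_num)) (by norm_num) (by norm_num)
  exact pos_fin (g := (407 / 1000)) hτ Tp_pos Tp_lt hS e1 e2 (by norm_num) (by norm_num) k2 b2 h.P0 (by norm_num)
    (hp.trans (by norm_num)) (by norm_num) (by norm_num)

end Pool.Agent.S3.Ls
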