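import Pool.Agent.S3.Ls.Tp

/-!
# Slots with `b ≥ 1`

`P + b R ≤ π/2 - arctan (t cot R)` and the lower bound of `R` give `P + (b - 1) R ≤ W`.
-/

set_option autoImplicit false

namespace Pool.Agent.S3.Ls

open Real

/-- The data of a slot with `b ≥ 1`. -/
structure VD (τ R b P : ℝ) : Prop where
  P0 : 0 ≤ P
  V : P + b * R + arctan (τ ^ 2 * (cos R / sin R)) ≤ π / 2

variable {τ R b P x W T0 tl cu r1 bl p : ℝ}

theorem VD.le_W (h : VD τ R b P) (hR0 : 0 < R) (hR2 : R < π / 2) (hc : cos R ^ 2 ≤ cu)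
    (htl : 0 ≤ tl) (t1 : tl ≤ τ ^ 2) (x0 : 0 ≤ x) (hT0 : 0 ≤ T0) (hcu : cu * (1 + T0 ^ 2) ≤ 1)
    (n1 : (1 - tl) * T0 ≤ x * (T0 ^ 2 + tl)) (n2 : 1 - tl ≤ 2 * x * T0) (W0 : 0 ≤ W)
    (W1 : W ≤ 3 / 2)
    (n3 : x * (1 - W ^ 2 / 2 + W ^ 4 / 24 - W ^ 6 / 720 + W ^ 8 / 40320) ≤ W - W ^ 3 / 6) :
    P + (b - 1) * R ≤ W := by
  have hpi := pi_gt_three
  have hs : 0 < sin R := sin_pos_of_pos_of_lt_pi hR0 (by linarith)
  have hcR : 0 < cos R := cos_pos_of_mem_Ioo ⟨by linarith, hR2⟩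
  set φ := arctan (τ ^ 2 * (cos R / sin R)) with hφ
  have t0 : 0 ≤ τ ^ 2 := sq_nonneg τ
  have φ0 : 0 ≤ φ := by rw [hφ, Real.arctan_nonneg]; positivity
  have φ1 : φ < π / 2 := arctan_lt_pi_div_two _
  have cφ : 0 < cos φ := cos_pos_of_mem_Ioo ⟨by linarith, φ1⟩
  have tφ : sin φ * sin R = τ ^ 2 * cos R * cos φ := by
    have : tan φ = τ ^ 2 * (cos R / sin R) := Real.tan_arctan _
    rw [tan_eq_sin_div_cos, div_eq_iff cφ.ne'] at this
    rw [this]; field_simp
  -- `T0 cos R ≤ sin R`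
  have hT : T0 * cos R ≤ sin R := by
    refine sqle ?_ hs.le
    have e := Real.sin_sq_add_cos_sq R
    have : cos R ^ 2 * (1 + T0 ^ 2) ≤ 1 :=
      (mul_le_mul_of_nonneg_right hc (by positivity)).trans hcu
    nlinarith
  -- `(1 - t) sin R cos R ≤ x (sin² R + t cos² R)`
  have key : (1 - τ ^ 2) * (sin R * cos R) ≤ x * (sin R ^ 2 + τ ^ 2 * cos R ^ 2) := by
    have k1 : (1 - tl) * (sin R * cos R) ≤ x * (sin R ^ 2 + tl * cos R ^ 2) := by
      set D := sin R - T0 * cos R with hD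
      have D0 : 0 ≤ D := by linarith
      have e : sin R = T0 * cos R + D := by linarith
      rw [e]
      have a1 : (1 - tl) * T0 * cos R ^ 2 ≤ x * (T0 ^ 2 + tl) * cos R ^ 2 :=
        mul_le_mul_of_nonneg_right n1 (sq_nonneg _)
      have a2 : (1 - tl) * (D * cos R) ≤ 2 * x * T0 * (D * cos R) :=
        mul_le_mul_of_nonneg_right n2 (by positivity)
      have a3 : 0 ≤ x * D ^ 2 := by positivity
      nlinarith
    have k2 : (1 - τ ^ 2) * (sin R * cos R) ≤ (1 - tl) * (sin R * cos R) :=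
      mul_le_mul_of_nonneg_right (by linarith) (by positivity)
    have k3 : x * (sin R ^ 2 + tl * cos R ^ 2) ≤ x * (sin R ^ 2 + τ ^ 2 * cos R ^ 2) := by
      apply mul_le_mul_of_nonneg_left _ x0
      have := mul_le_mul_of_nonneg_right t1 (sq_nonneg (cos R))
      linarith
    linarith
  have c1 : cos (R + φ) ≤ x * sin (R + φ) := by
    rw [cos_add, sin_add]
    have e1 : (cos R * cos φ - sin R * sin φ) * sin R = (1 - τ ^ 2) * (sin R * cos R) * cos φ := by
      calc (cos R * cos φ - sin R * sin φ) * sin R =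
          cos R * cos φ * sin R - sin R * (sin φ * sin R) := by ring
        _ = _ := by rw [tφ]; ring
    have e2 : (sin R * cos φ + cos R * sin φ) * sin R =
        (sin R ^ 2 + τ ^ 2 * cos R ^ 2) * cos φ := by
      calc (sin R * cos φ + cos R * sin φ) * sin R =
          sin R ^ 2 * cos φ + cos R * (sin φ * sin R) := by ring
        _ = _ := by rw [tφ]; ring
    have : (cos R * cos φ - sin R * sin φ) * sin R ≤
        (x * (sin R * cos φ + cos R * sin φ)) * sin R := by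
      rw [e1, mul_assoc x, e2]
      have := mul_le_mul_of_nonneg_right key cφ.le
      linarith
    exact le_of_mul_le_mul_right this hs
  have sW : x * cos W ≤ sin W := by
    have := Real.sin_ge_sub_cube W0
    have := mul_le_mul_of_nonneg_left (cos_oct W0) x0
    linarith
  have cW : 0 ≤ cos W := cos_nonneg_of_mem_Icc ⟨by linarith, by linarith⟩
  have sR : 0 ≤ sin (R + φ) := sin_nonneg_of_nonneg_of_le_pi (by linarith) (by linarith)
  have c2 : cos (R + φ + W) ≤ 0 := by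
    rw [cos_add]
    have a1 : cos (R + φ) * cos W ≤ x * sin (R + φ) * cos W := mul_le_mul_of_nonneg_right c1 cW
    have a2 : x * cos W * sin (R + φ) ≤ sin W * sin (R + φ) := mul_le_mul_of_nonneg_right sW sR
    linarith
  have c3 : π / 2 ≤ R + φ + W := by
    by_contra hc
    push Not at hc
    have := cos_pos_of_mem_Ioo (x := R + φ + W) ⟨by linarith, hc⟩
    linarith
  have := h.V
  linarith [show P + (b - 1) * R = P + b * R - R by ring]

theorem le_R (hR0 : 0 < R) (hc : cos R ^ 2 ≤ cu) (r0 : 0 ≤ r1) (r2 : r1 ≤ 3 / 2)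
    (n0 : 0 ≤ 1 - r1 ^ 2 / 2 + r1 ^ 4 / 24 - r1 ^ 6 / 720)
    (n : cu < (1 - r1 ^ 2 / 2 + r1 ^ 4 / 24 - r1 ^ 6 / 720) ^ 2) : r1 ≤ R := by
  by_contra hcc
  push Not at hcc
  have k := (cos_sext r0).trans
    (cos_le_cos_of_nonneg_of_le_pi hR0.le (by linarith [pi_gt_three]) hcc.le)
  have := pow_le_pow_left₀ n0 k 2
  linarith

/-- The bound of `P` on a piece. -/
theorem P_le (h : P + (b - 1) * R ≤ W) (hR : r1 ≤ R) (r0 : 0 ≤ r1) (hbl : 1 ≤ bl) (hb : bl ≤ b)
    (n : W - (bl - 1) * r1 ≤ p) : P ≤ p := by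
  have : (bl - 1) * r1 ≤ (b - 1) * R := mul_le_mul (by linarith) hR r0 (by linarith)
  linarith

end Pool.Agent.S3.Ls
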