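import Pool.Agent.S3.Es15
import Pool.Agent.S3.Ls.Gen

/-!
# Bounds of the loss of an inner vertex of multiplicity two: ranges and test points

`RA.of`, `Ra.of`: the data on a box of `t = τ²` from rational numbers; `eta_ge`, `eta_le`, `sJ_le`:
the constants of a test point `T` with `cos T = q`.
-/

set_option autoImplicit false

namespace Pool.Agent.S3.Ls

open Real

theorem sqle {a b : ℝ} (h : a ^ 2 ≤ b ^ 2) (hb : 0 ≤ b) : a ≤ b := by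
  by_contra hc
  push Not at hc
  nlinarith

/-- The lower bound of `R` (from `cosh 2I ≤ 2D`), `c = cos² R`. -/
def Low (t c : ℝ) : Prop := 1 / 2 ≤ c → c * (1 + t) * (1 + 2 * t * c) ≤ 2 - 2 * c + 2 * t * c

theorem Low.le {t c tl cu : ℝ} (h : Low t c) (t0 : 0 ≤ tl) (h1 : tl ≤ t) (ht : t ≤ 1)
    (hcu : 1 / 2 ≤ cu) (num : 2 - 2 * cu + 2 * tl * cu < cu * (1 + tl) * (1 + 2 * tl * cu)) :
    c ≤ cu := by
  by_contra hcc
  push Not at hcc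
  have k := h (by linarith)
  have e1 : 0 ≤ (t - tl) * c * (2 * c - 1 + 2 * c * (t + tl)) := by
    have : 0 ≤ 2 * c - 1 + 2 * c * (t + tl) := by
      have : 0 ≤ 2 * c * (t + tl) := mul_nonneg (by linarith) (by linarith)
      linarith
    exact mul_nonneg (mul_nonneg (by linarith) (by linarith)) this
  have e2 : 0 ≤ (c - cu) * (3 - tl + 2 * tl * (c + cu) + 2 * tl ^ 2 * (c + cu)) := by
    have a1 : 0 ≤ 2 * tl * (c + cu) := mul_nonneg (by linarith) (by linarith)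
    have a2 : 0 ≤ 2 * tl ^ 2 * (c + cu) := mul_nonneg (by positivity) (by linarith)
    exact mul_nonneg (by linarith) (by linarith)
  have e3 : (t - tl) * c * (2 * c - 1 + 2 * c * (t + tl)) +
      (c - cu) * (3 - tl + 2 * tl * (c + cu) + 2 * tl ^ 2 * (c + cu)) =
      (c * (1 + t) * (1 + 2 * t * c) - (2 - 2 * c + 2 * t * c)) -
      (cu * (1 + tl) * (1 + 2 * tl * cu) - (2 - 2 * cu + 2 * tl * cu)) := by ring
  linarith

/-- The slope bound `sin 2R`. -/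
theorem sin_two_ge {R x y al : ℝ} (h0 : 0 < R) (h1 : R < π / 2) (hx : x ≤ cos R ^ 2)
    (hy : cos R ^ 2 ≤ y) (al0 : 0 ≤ al) (a1 : al ^ 2 ≤ 4 * x * (1 - x))
    (a2 : al ^ 2 ≤ 4 * y * (1 - y)) : al ≤ sin (2 * R) := by
  have s0 : 0 ≤ sin (2 * R) := sin_nonneg_of_nonneg_of_le_pi (by linarith) (by linarith)
  refine sqle ?_ s0
  have e : sin (2 * R) ^ 2 = 4 * cos R ^ 2 * (1 - cos R ^ 2) := by
    have := Real.sin_sq_add_cos_sq R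
    rw [Real.sin_two_mul]
    have : sin R ^ 2 = 1 - cos R ^ 2 := by linarith
    calc (2 * sin R * cos R) ^ 2 = 4 * cos R ^ 2 * sin R ^ 2 := by ring
      _ = _ := by rw [this]
  rw [e]
  set c := cos R ^ 2
  have k : 0 ≤ (c - x) * (y - c) := mul_nonneg (by linarith) (by linarith)
  rcases le_total 0 (1 - x - y) with j | j
  · have : 0 ≤ (c - x) * (1 - x - y) := mul_nonneg (by linarith) j
    nlinarith
  · have : 0 ≤ (y - c) * (x + y - 1) := mul_nonneg (by linarith) (by linarith)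
    nlinarith

section

variable {τ R r0 al Il El Du Iu Dl tl tu cl cu : ℝ}

theorem hJ_sinh_sq (τ R : ℝ) : sinh (hJ τ R) ^ 2 = τ ^ 2 * cos R ^ 2 := by
  rw [sinh_hJ]; ring

theorem RA.of (hτ : 0 < τ) (hR0 : 0 < R) (hR : R ≤ r0) (hr0 : r0 ≤ 3 / 2) (h1 : tl ≤ τ ^ 2)
    (h2 : τ ^ 2 ≤ tu) (htl : 0 ≤ tl) (hcu : cos R ^ 2 ≤ cu) (hcl0 : 0 < cl)
    (hcl : cl ≤ 1 - r0 ^ 2 / 2 + r0 ^ 4 / 24 - r0 ^ 6 / 720)
    (al0 : 0 ≤ al) (a1 : al ^ 2 ≤ 4 * cl ^ 2 * (1 - cl ^ 2)) (a2 : al ^ 2 ≤ 4 * cu * (1 - cu))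
    (Il0 : 0 ≤ Il) (Il1 : Il ≤ 1) (hI : (Il + Il ^ 3 / 6 + Il ^ 5 / 100) ^ 2 ≤ tl * cl ^ 2)
    (El0 : 0 ≤ El) (hE : El ^ 2 ≤ 4 * (tl * cl ^ 2) * (1 + tl * cl ^ 2))
    (d1 : 1 / cl ^ 2 - 2 ≤ (Du - 1) * (1 + tl)) (d2 : 1 / cl ^ 2 - 2 ≤ (Du - 1) * (1 + tu)) :
    RA τ R r0 al Il El Du := by
  have hpi := pi_gt_three
  have R2 : R < π / 2 := by linarith
  have r00 : 0 ≤ r0 := hR0.le.trans hR
  have c1 : cl ≤ cos R :=
    (hcl.trans (cos_sext r00)).trans (cos_le_cos_of_nonneg_of_le_pi hR0.le (by linarith) hR)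
  have c2 : cl ^ 2 ≤ cos R ^ 2 := pow_le_pow_left₀ hcl0.le c1 2
  have t0 : 0 ≤ τ ^ 2 := sq_nonneg τ
  have q1 : tl * cl ^ 2 ≤ sinh (hJ τ R) ^ 2 := by
    rw [hJ_sinh_sq]
    exact mul_le_mul h1 c2 (by positivity) t0
  have cR : 0 < cos R := hcl0.trans_le c1
  have J0 : 0 ≤ hJ τ R := hJ_nonneg hτ.le cR.le
  have S0 : 0 ≤ sinh (hJ τ R) := sinh_nonneg_iff.2 J0
  refine ⟨hR0, hR, R2, al0, sin_two_ge hR0 R2 c2 hcu al0 a1 a2, Il0, ?_, El0, ?_, ?_⟩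
  · rw [← sinh_le_sinh]
    refine (sinh_upper Il0 Il1).trans ?_
    exact sqle (hI.trans q1) S0
  · have e : sinh (2 * hJ τ R) ^ 2 = 4 * sinh (hJ τ R) ^ 2 * (1 + sinh (hJ τ R) ^ 2) := by
      rw [Real.sinh_two_mul]
      have := Real.cosh_sq (hJ τ R)
      calc (2 * sinh (hJ τ R) * cosh (hJ τ R)) ^ 2 =
          4 * sinh (hJ τ R) ^ 2 * cosh (hJ τ R) ^ 2 := by ring
        _ = _ := by rw [this]; ring
    refine sqle ?_ (sinh_nonneg_iff.2 (by linarith))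
    rw [e]
    refine hE.trans ?_
    have z0 : 0 ≤ tl * cl ^ 2 := by positivity
    nlinarith
  · have k1 : 1 / cos R ^ 2 ≤ 1 / cl ^ 2 := one_div_le_one_div_of_le (by positivity) c2
    have k2 : 1 / cl ^ 2 - 2 ≤ (Du - 1) * (1 + τ ^ 2) := by
      rcases le_total 0 (Du - 1) with k | k
      · exact d1.trans (mul_le_mul_of_nonneg_left (by linarith) k)
      · exact d2.trans (mul_le_mul_of_nonpos_left (by linarith) k)
    have k3 : (1 / cos R ^ 2 - 2) / (1 + τ ^ 2) ≤ Du - 1 := by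
      rw [div_le_iff₀ (by positivity)]; linarith
    rw [DD]; linarith

theorem Ra.of (hτ : 0 < τ) (hR : r0 ≤ R) (R2 : R < π / 2) (r00 : 0 ≤ r0) (h1 : tl ≤ τ ^ 2)
    (h2 : τ ^ 2 ≤ tu)
    (hcu : 1 - r0 ^ 2 / 2 + r0 ^ 4 / 24 - r0 ^ 6 / 720 + r0 ^ 8 / 40320 ≤ cu)
    (Iu0 : 0 ≤ Iu) (hI : tu * cu ^ 2 ≤ (Iu + Iu ^ 3 / 6) ^ 2)
    (d1 : (Dl - 1) * (1 + tl) ≤ 1 / cu ^ 2 - 2) (d2 : (Dl - 1) * (1 + tu) ≤ 1 / cu ^ 2 - 2) :
    Ra τ R r0 Iu Dl := by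
  have hpi := pi_gt_three
  have cR : 0 < cos R := cos_pos_of_mem_Ioo ⟨by linarith, R2⟩
  have c1 : cos R ≤ cu :=
    ((cos_le_cos_of_nonneg_of_le_pi r00 (by linarith) hR).trans (cos_oct r00)).trans hcu
  have c2 : cos R ^ 2 ≤ cu ^ 2 := pow_le_pow_left₀ cR.le c1 2
  have q1 : sinh (hJ τ R) ^ 2 ≤ tu * cu ^ 2 := by
    rw [hJ_sinh_sq]
    exact mul_le_mul h2 c2 (by positivity) ((sq_nonneg τ).trans h2)
  have J0 : 0 ≤ hJ τ R := hJ_nonneg hτ.le cR.le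
  refine ⟨hR, R2, r00, J0, ?_, ?_⟩
  · rw [← sinh_le_sinh]
    refine le_trans ?_ (sinh_cubic Iu0)
    exact sqle (q1.trans hI) (by positivity)
  · have k1 : 1 / cu ^ 2 ≤ 1 / cos R ^ 2 := one_div_le_one_div_of_le (by positivity) c2
    have k2 : (Dl - 1) * (1 + τ ^ 2) ≤ 1 / cu ^ 2 - 2 := by
      rcases le_total 0 (Dl - 1) with k | k
      · exact (mul_le_mul_of_nonneg_left (by linarith) k).trans d2
      · exact (mul_le_mul_of_nonpos_left (by linarith) k).trans d1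
    have k3 : Dl - 1 ≤ (1 / cos R ^ 2 - 2) / (1 + τ ^ 2) := by
      rw [le_div_iff₀ (by positivity)]; linarith
    rw [DD]; linarith

end

section

variable {τ T q κ Tl Tu tl tu η S : ℝ}

theorem hJ_div_sJ (hτ : 0 < τ) (hT : 0 < T) (hT1 : T < π / 2) (hq : cos T = q) :
    hJ τ T / sJ τ T = q / sin T * (hJ τ T * cosh (hJ τ T) / sinh (hJ τ T)) := by
  have s0 : 0 < sin T := sin_pos_of_pos_of_lt_pi hT (by linarith [pi_pos])
  have c0 : 0 < cos T := cos_pos_of_mem_Ioo ⟨by linarith, hT1⟩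
  have := Real.cosh_pos (hJ τ T)
  rw [sinh_hJ, sJ, ← hq]
  field_simp

theorem eta_ge (hτ : 0 < τ) (hT : 0 < T) (hT1 : T < π / 2) (hq : cos T = q)
    (hκ0 : 0 ≤ κ) (hκ : κ ^ 2 * (1 - q ^ 2) ≤ q ^ 2) (hTu : T ≤ Tu) (htl : 0 ≤ tl)
    (h1 : tl ≤ τ ^ 2) (h2 : τ ^ 2 ≤ 1)
    (num : η ≤ κ * (1 + tl * q ^ 2 / 3 - 2 * (tl * q ^ 2) ^ 2 / 15) - Tu) :
    η ≤ hJ τ T / sJ τ T - T := by
  have s0 : 0 < sin T := sin_pos_of_pos_of_lt_pi hT (by linarith [pi_pos])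
  have c0 : 0 < cos T := cos_pos_of_mem_Ioo ⟨by linarith, hT1⟩
  rw [hJ_div_sJ hτ hT hT1 hq]
  have q0 : 0 < q := hq ▸ c0
  have q1 : q ≤ 1 := hq ▸ cos_le_one T
  have J0 : 0 < hJ τ T := by
    rw [hJ, Real.arsinh_pos_iff]; exact mul_pos hτ c0
  have S0 : 0 < sinh (hJ τ T) := sinh_pos_iff.2 J0
  have k := fJ_ge' J0.le
  set x := sinh (hJ τ T) ^ 2 with hx
  have x1 : x = τ ^ 2 * q ^ 2 := by rw [hx, hJ_sinh_sq, hq]
  have x2 : tl * q ^ 2 ≤ x := by rw [x1]; exact mul_le_mul_of_nonneg_right h1 (sq_nonneg q)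
  have x3 : x ≤ 1 := by
    rw [x1]; exact mul_le_one₀ h2 (sq_nonneg q) (pow_le_one₀ q0.le q1)
  have a1 : 1 + x / 3 - 2 * x ^ 2 / 15 ≤ hJ τ T * cosh (hJ τ T) / sinh (hJ τ T) := by
    rw [le_div_iff₀ S0]
    have : 2 * sinh (hJ τ T) ^ 4 / 15 = 2 * x ^ 2 / 15 := by rw [hx]; ring
    rw [this] at k
    linarith
  have y0 : 0 ≤ tl * q ^ 2 := by positivity
  have a2 : 1 + tl * q ^ 2 / 3 - 2 * (tl * q ^ 2) ^ 2 / 15 ≤ 1 + x / 3 - 2 * x ^ 2 / 15 := by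
    have : 0 ≤ (x - tl * q ^ 2) * (1 / 3 - 2 * (x + tl * q ^ 2) / 15) :=
      mul_nonneg (by linarith) (by linarith)
    linarith [show (x - tl * q ^ 2) * (1 / 3 - 2 * (x + tl * q ^ 2) / 15) =
      (1 + x / 3 - 2 * x ^ 2 / 15) - (1 + tl * q ^ 2 / 3 - 2 * (tl * q ^ 2) ^ 2 / 15) by ring]
  have a3 : κ ≤ q / sin T := by
    rw [le_div_iff₀ s0]
    refine sqle ?_ q0.le
    have : sin T ^ 2 = 1 - q ^ 2 := by rw [← hq]; have := Real.sin_sq_add_cos_sq T; linarith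
    rw [mul_pow, this]; exact hκ
  have a4 : 0 ≤ 1 + tl * q ^ 2 / 3 - 2 * (tl * q ^ 2) ^ 2 / 15 := by
    have : tl * q ^ 2 ≤ 1 := x2.trans x3
    nlinarith
  have a5 := mul_le_mul a3 (a2.trans a1) a4 (hκ0.trans a3)
  linarith

theorem eta_le (hτ : 0 < τ) (hT : 0 < T) (hT1 : T < π / 2) (hq : cos T = q)
    (hκ0 : 0 ≤ κ) (hκ : q ^ 2 ≤ κ ^ 2 * (1 - q ^ 2)) (hTl : Tl ≤ T)
    (h2 : τ ^ 2 ≤ tu) (num : κ * (1 + tu * q ^ 2 / 3) - Tl ≤ η) :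
    hJ τ T / sJ τ T - T ≤ η := by
  have s0 : 0 < sin T := sin_pos_of_pos_of_lt_pi hT (by linarith [pi_pos])
  have c0 : 0 < cos T := cos_pos_of_mem_Ioo ⟨by linarith, hT1⟩
  rw [hJ_div_sJ hτ hT hT1 hq]
  have q0 : 0 < q := hq ▸ c0
  have J0 : 0 < hJ τ T := by
    rw [hJ, Real.arsinh_pos_iff]; exact mul_pos hτ c0
  have S0 : 0 < sinh (hJ τ T) := sinh_pos_iff.2 J0
  have k := fJ_le J0.le
  have x1 : sinh (hJ τ T) ^ 2 = τ ^ 2 * q ^ 2 := by rw [hJ_sinh_sq, hq]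
  have a1 : hJ τ T * cosh (hJ τ T) / sinh (hJ τ T) ≤ 1 + tu * q ^ 2 / 3 := by
    rw [div_le_iff₀ S0]
    have : sinh (hJ τ T) ^ 2 ≤ tu * q ^ 2 := by
      rw [x1]; exact mul_le_mul_of_nonneg_right h2 (sq_nonneg q)
    calc hJ τ T * cosh (hJ τ T) ≤ sinh (hJ τ T) * (1 + sinh (hJ τ T) ^ 2 / 3) := k
      _ ≤ sinh (hJ τ T) * (1 + tu * q ^ 2 / 3) := by
        apply mul_le_mul_of_nonneg_left _ S0.le; linarith
      _ = _ := by ring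
  have a3 : q / sin T ≤ κ := by
    rw [div_le_iff₀ s0]
    refine sqle ?_ (by positivity)
    have : sin T ^ 2 = 1 - q ^ 2 := by rw [← hq]; have := Real.sin_sq_add_cos_sq T; linarith
    rw [mul_pow, this]; exact hκ
  have a0 : 0 ≤ hJ τ T * cosh (hJ τ T) / sinh (hJ τ T) := by
    have := Real.cosh_pos (hJ τ T)
    positivity
  have a5 := mul_le_mul a3 a1 a0 hκ0
  linarith

theorem sJ_le (hτ : 0 < τ) (hT : 0 < T) (hT1 : T < π / 2) (hq : cos T = q) (h2 : τ ^ 2 ≤ tu)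
    (hS0 : 0 ≤ S) (num : tu * (1 - q ^ 2) ≤ S ^ 2 * (1 + tu * q ^ 2)) : sJ τ T ≤ S := by
  have s0 : 0 < sin T := sin_pos_of_pos_of_lt_pi hT (by linarith [pi_pos])
  have e2 : sin T ^ 2 = 1 - q ^ 2 := by rw [← hq]; have := Real.sin_sq_add_cos_sq T; linarith
  have ch := Real.cosh_pos (hJ τ T)
  rw [sJ, div_le_iff₀ ch]
  refine sqle ?_ (by positivity)
  have e3 : cosh (hJ τ T) ^ 2 = 1 + τ ^ 2 * q ^ 2 := by
    rw [Real.cosh_sq, hJ_sinh_sq, hq]; ring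
  rw [mul_pow, mul_pow, e2, e3]
  have p2 : 0 < sin T ^ 2 := by positivity
  rw [e2] at p2
  have t0 : 0 ≤ τ ^ 2 := sq_nonneg τ
  have t1 : 0 ≤ tu := t0.trans h2
  -- `t (1 - q²) (1 + tu q²) ≤ tu (1 - q²) (1 + t q²)`
  have k1 : τ ^ 2 * (1 - q ^ 2) * (1 + tu * q ^ 2) ≤ tu * (1 - q ^ 2) * (1 + τ ^ 2 * q ^ 2) := by
    have : 0 ≤ (tu - τ ^ 2) * (1 - q ^ 2) := mul_nonneg (by linarith) p2.le
    nlinarith
  have k2 : tu * (1 - q ^ 2) * (1 + τ ^ 2 * q ^ 2) ≤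
      S ^ 2 * (1 + tu * q ^ 2) * (1 + τ ^ 2 * q ^ 2) :=
    mul_le_mul_of_nonneg_right num (by positivity)
  have k3 : 0 < 1 + tu * q ^ 2 := by positivity
  have : τ ^ 2 * (1 - q ^ 2) * (1 + tu * q ^ 2) ≤
      (S ^ 2 * (1 + τ ^ 2 * q ^ 2)) * (1 + tu * q ^ 2) := by linarith
  exact le_of_mul_le_mul_right this k3

/-- Bounds of an angle from bounds of the cosine. -/
theorem angle_lt (hT : 0 < T) (hT1 : T < π / 2) (hq : cos T = q) (hTu0 : 0 ≤ Tu)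
    (num : 1 - Tu ^ 2 / 2 + Tu ^ 4 / 24 - Tu ^ 6 / 720 + Tu ^ 8 / 40320 < q) : T ≤ Tu := by
  by_contra hc
  push Not at hc
  have := cos_le_cos_of_nonneg_of_le_pi hTu0 (by linarith [pi_pos]) hc.le
  linarith [cos_oct hTu0]

theorem lt_angle (hT : 0 < T) (hq : cos T = q) (hTl0 : 0 ≤ Tl) (hTl : Tl ≤ 3)
    (num : q < 1 - Tl ^ 2 / 2 + Tl ^ 4 / 24 - Tl ^ 6 / 720) : Tl ≤ T := by
  by_contra hc
  push Not at hc
  have := cos_le_cos_of_nonneg_of_le_pi hT.le (by linarith [pi_gt_three]) hc.le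
  linarith [cos_sext hTl0]

end

/-- The test point for `0 ≤ P`. -/
noncomputable def Tp : ℝ := arccos (18 / 25)

/-- The test point for `P ≤ 0`. -/
noncomputable def Tn : ℝ := arccos (31 / 50)

theorem cos_Tp : cos Tp = 18 / 25 := cos_arccos (by norm_num) (by norm_num)
theorem Tp_pos : 0 < Tp := arccos_pos.2 (by norm_num)
theorem Tp_lt : Tp < π / 2 := arccos_lt_pi_div_two.2 (by norm_num)
theorem Tp_le : Tp ≤ 76701 / 100000 :=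
  angle_lt Tp_pos Tp_lt cos_Tp (by norm_num) (by norm_num)
theorem le_Tp : 76698 / 100000 ≤ Tp :=
  lt_angle Tp_pos cos_Tp (by norm_num) (by norm_num) (by norm_num)

theorem cos_Tn : cos Tn = 31 / 50 := cos_arccos (by norm_num) (by norm_num)
theorem Tn_pos : 0 < Tn := arccos_pos.2 (by norm_num)
theorem Tn_lt : Tn < π / 2 := arccos_lt_pi_div_two.2 (by norm_num)
theorem Tn_le : Tn ≤ 9021 / 10000 :=
  angle_lt Tn_pos Tn_lt cos_Tn (by norm_num) (by norm_num)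
theorem le_Tn : 9020 / 10000 ≤ Tn :=
  lt_angle Tn_pos cos_Tn (by norm_num) (by norm_num) (by norm_num)

end Pool.Agent.S3.Ls
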